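import Mathlib

set_option autoImplicit false

namespace Pool.Agent.EQB

open Finset

section Families

variable {α : Type} [Fintype α] [DecidableEq α]

/-- No set of the family `F` is cut by `Y`. -/
def Closed (F : Finset (Finset α)) (Y : Finset α) : Prop := ∀ R ∈ F, R ⊆ Y ∨ Disjoint R Y

/-- The hypergraph `(X, F)` is connected. -/
def Conn (X : Finset α) (F : Finset (Finset α)) : Prop := ∀ Y ⊆ X, Closed F Y → Y = ∅ ∨ Y = X

/-- indicator vector -/
def ind (R : Finset α) : α → ℝ := fun a => if a ∈ R then 1 else 0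

/-- the span of the indicator vectors of the sets of `F` -/
def V (F : Finset (Finset α)) : Submodule ℝ (α → ℝ) :=
  Submodule.span ℝ (ind '' (F : Set (Finset α)))

/-- the rank of `F` -/
noncomputable def rk (F : Finset (Finset α)) : ℕ := Module.finrank ℝ (V F)

/-- `F` is a family of `s`-subsets of `X`, with positive weights of sum one at every point. -/
structure Sys (s : ℕ) (X : Finset α) (F : Finset (Finset α)) (w : Finset α → ℝ) : Prop where
  pos_s : 0 < s
  sub : ∀ R ∈ F, R ⊆ X
  card : ∀ R ∈ F, R.card = s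
  pos : ∀ R ∈ F, 0 < w R
  sum : ∀ x ∈ X, ∑ R ∈ F with x ∈ R, w R = 1

/-- `V F` contains a nonzero nonnegative vector with small support. -/
def Small (s : ℕ) (F : Finset (Finset α)) : Prop :=
  ∃ u ∈ V F, (∀ a, 0 ≤ u a) ∧ (∃ a, u a ≠ 0) ∧ (univ.filter (fun a => u a ≠ 0)).card < s

/-- The two conclusions of the rank theorem (`κ = |X|/s`): `rk ≥ 2κ - 1`, and `rk ≥ 2κ` if there
is a nonnegative vector with small support. -/
def Good (s : ℕ) (X : Finset α) (F : Finset (Finset α)) : Prop :=
  2 * X.card ≤ s * (rk F + 1) ∧ (Small s F → 2 * X.card ≤ s * rk F)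

/-- The sets of `F` inside `Y`. -/
def inside (F : Finset (Finset α)) (Y : Finset α) : Finset (Finset α) := F.filter (fun R => R ⊆ Y)

/-- `P` is the set of the components of `(X, F)`. -/
structure IsComp (X : Finset α) (F : Finset (Finset α)) (P : Finset (Finset α)) : Prop where
  ne : ∀ Y ∈ P, Y.Nonempty
  sub : ∀ Y ∈ P, Y ⊆ X
  disj : ∀ Y ∈ P, ∀ Y' ∈ P, Y ≠ Y' → Disjoint Y Y'
  cover : ∀ x ∈ X, ∃ Y ∈ P, x ∈ Y
  closed : ∀ Y ∈ P, Closed F Y
  conn : ∀ Y ∈ P, Conn Y (inside F Y)

/-- Modulo the span of `S`, the sets of `F \ S` satisfy at most one relation. -/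
def OneRel (F S : Finset (Finset α)) : Prop :=
  ∀ E₀ ∈ F \ S, ∀ z : Finset α → ℝ, z E₀ = 0 → (∑ E ∈ F \ S, z E • ind E) ∈ V S →
    ∀ E ∈ F \ S, z E = 0

end Families

section Matrices

variable {ι : Type} [Fintype ι] [DecidableEq ι]

/-- The functions which are constant on the rows of a matrix with unit diagonal. -/
def D (Z : Matrix ι ι ℝ) : Submodule ℝ (ι → ℝ) where
  carrier := {f | ∀ i j, Z i j = 1 → f i = f j}
  add_mem' := by
    intro f g hf hg i j h
    have h1 : f i = f j := hf i j h
    have h2 : g i = g j := hg i j h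
    simp [h1, h2]
  zero_mem' := fun _ _ _ => rfl
  smul_mem' := by
    intro c f hf i j h
    have h1 : f i = f j := hf i j h
    simp [h1]

/-- A `0/1` matrix with unit diagonal and all row and column sums equal to `s`. -/
structure Reg (Z : Matrix ι ι ℝ) (s : ℕ) : Prop where
  entry : ∀ i j, Z i j = 0 ∨ Z i j = 1
  diag : ∀ i, Z i i = 1
  row : ∀ i, ∑ j, Z i j = s
  col : ∀ j, ∑ i, Z i j = s

end Matrices

section Profiles

/-- the largest element of a decreasing list, `0` for the empty list -/
def hd (l : List ℕ) : ℕ := l.headD 0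

/-- the quadratic form of the profile -/
noncomputable def FF : List ℕ → ℝ
  | [] => 0
  | q :: l => FF l + ((min q (2 * (q - hd l)) : ℕ) : ℝ) / (1 + (l.sum : ℝ))

/-- some element of `l` lies in `[t, 2t)` -/
noncomputable def al (l : List ℕ) (t : ℕ) : ℝ := by
  classical exact if ∃ q ∈ l, t ≤ q ∧ q < 2 * t then 1 else 0

/-- some element of `l` lies in `[t, 2t-1)` -/
noncomputable def be (l : List ℕ) (t : ℕ) : ℝ := by
  classical exact if ∃ q ∈ l, t ≤ q ∧ q + 1 < 2 * t then 1 else 0

/-- one plus the sum of the elements of `l` below `t` -/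
def den (l : List ℕ) (t : ℕ) : ℕ := 1 + (l.filter (fun q => decide (q < t))).sum

/-- the constant `A` -/
noncomputable def cA : ℝ := Real.log 5 / 4 - 1 / 5

/-- the constant `γ` -/
noncomputable def cg : ℝ := Real.log (5 / 3) / 2 - cA

/-- the potential `g` -/
noncomputable def gg (y : ℝ) : ℝ := max 0 (cg + 3 / 10 * (y - 2 / 3))

end Profiles

section Systems

variable {ι α : Type} [DecidableEq α]

/-- `A_i, B_i` form a 1-cross intersecting set pair system: `A_i ∩ B_i = ∅` for every `i` and
`|A_i ∩ B_j| = 1` for all `i ≠ j`. -/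
def OneCross (A B : ι → Finset α) : Prop :=
  (∀ i, A i ∩ B i = ∅) ∧ ∀ i j, i ≠ j → (A i ∩ B j).card = 1

/-- the number of indices `i` with `x ∈ A i` -/
def deg [Fintype ι] (A : ι → Finset α) (x : α) : ℕ := (univ.filter (fun i => x ∈ A i)).card

/-- the type of `x`: the number of sets `A_i` and the number of sets `B_j` which contain `x` -/
def typ [Fintype ι] (A B : ι → Finset α) (x : α) : ℕ × ℕ := (deg A x, deg B x)

/-- The multiset of the types of the elements of `A_i` is the same for all `i`, and likewise for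
`B_i`. -/
def Equit [Fintype ι] (A B : ι → Finset α) : Prop :=
  (∀ i j, (A i).val.map (typ A B) = (A j).val.map (typ A B)) ∧
    ∀ i j, (B i).val.map (typ A B) = (B j).val.map (typ A B)

/-- One-sided equitability: the row sums and the column sums of the matrices `ZZ A B t` are
constant. -/
def QEq [Fintype ι] (A B : ι → Finset α) : Prop :=
  (∀ (t : ℕ) (i j : ι), ∑ x ∈ A i with deg B x < t, deg B x =
    ∑ x ∈ A j with deg B x < t, deg B x) ∧
  (∀ (t : ℕ) (i j : ι), ∑ x ∈ B i with deg B x < t, deg A x =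
    ∑ x ∈ B j with deg B x < t, deg A x)

/-- The automorphism group of the system is transitive on the indices. -/
def Trans (A B : ι → Finset α) : Prop :=
  ∀ i j : ι, ∃ (π : Equiv.Perm ι) (φ : Equiv.Perm α), π i = j ∧
    ∀ k, (A k).map φ.toEmbedding = A (π k) ∧ (B k).map φ.toEmbedding = B (π k)

/-- the sorted list of the values of `f` on the finite set `s` -/
noncomputable def prof (s : Finset α) (f : α → ℕ) : List ℕ := (s.val.map f).sort (· ≥ ·)

/-- The matrix of the pairs `(i,j)` whose label `x` (the element of `A i ∩ B j`) has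
`deg B x < t`, together with the diagonal. -/
noncomputable def ZZ [Fintype ι] [DecidableEq ι] (A B : ι → Finset α) (t : ℕ) : Matrix ι ι ℝ :=
  fun i j => (if i = j then 1 else 0) +
    ∑ x ∈ A i, if x ∈ B j ∧ deg B x < t then (1 : ℝ) else 0

end Systems

end Pool.Agent.EQB
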