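import Pool.Agent.EQB.Targets

set_option autoImplicit false

namespace Pool.Agent.EQB

open Finset

section BProof

variable {α : Type} [Fintype α] [DecidableEq α]

omit [Fintype α] in
lemma b_off {s : ℕ} {X : Finset α} {F : Finset (Finset α)} {w : Finset α → ℝ}
    (hF : Sys s X F w) {v : α → ℝ} (hv : v ∈ V F) : ∀ a, a ∉ X → v a = 0 := by
  intro a ha
  refine Submodule.span_induction (p := fun (f : α → ℝ) _ => f a = 0) ?_ ?_ ?_ ?_ hv
  · rintro f ⟨R, hR, rfl⟩
    have h1 : a ∉ R := fun h => ha (hF.sub R (by simpa using hR) h)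
    simp [ind, h1]
  · rfl
  · intro f g _ _ hf hg
    simp [hf, hg]
  · intro c f _ hf
    simp [hf]

omit [Fintype α] in
lemma b_dec {F S : Finset (Finset α)} {u : α → ℝ} (hu : u ∈ V F) :
    ∃ v ∈ V S, ∃ β : Finset α → ℝ, u = v + ∑ E ∈ F \ S, β E • ind E := by
  classical
  refine Submodule.span_induction
    (p := fun (f : α → ℝ) _ => ∃ v ∈ V S, ∃ β : Finset α → ℝ,
      f = v + ∑ E ∈ F \ S, β E • ind E) ?_ ?_ ?_ ?_ hu
  · rintro f ⟨R, hR, rfl⟩
    have hR' : R ∈ F := by simpa using hR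
    by_cases hS : R ∈ S
    · exact ⟨ind R, Submodule.subset_span ⟨R, by simpa using hS, rfl⟩, fun _ => 0, by simp⟩
    · refine ⟨0, Submodule.zero_mem _, fun E => if E = R then 1 else 0, ?_⟩
      rw [zero_add, Finset.sum_eq_single R]
      · simp
      · intro b _ hb
        simp [hb]
      · intro h
        exact absurd (Finset.mem_sdiff.2 ⟨hR', hS⟩) h
  · exact ⟨0, Submodule.zero_mem _, fun _ => 0, by simp⟩
  · rintro f g _ _ ⟨v, hv, β, hf⟩ ⟨v', hv', β', hg⟩
    refine ⟨v + v', Submodule.add_mem _ hv hv', fun E => β E + β' E, ?_⟩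
    rw [hf, hg]
    simp only [add_smul, Finset.sum_add_distrib]
    abel
  · rintro c f _ ⟨v, hv, β, hf⟩
    refine ⟨c • v, Submodule.smul_mem _ _ hv, fun E => c * β E, ?_⟩
    rw [hf, smul_add, Finset.smul_sum]
    simp only [smul_smul]

omit [Fintype α] in
lemma b_norm {F S : Finset (Finset α)} {w : Finset α → ℝ} {u : α → ℝ} (hu : u ∈ V F)
    (hw : ∀ E ∈ F, 0 < w E) (h0 : (∑ E ∈ F \ S, w E • ind E) ∈ V S) (hne : (F \ S).Nonempty) :
    ∃ v ∈ V S, ∃ β : Finset α → ℝ, u = v + ∑ E ∈ F \ S, β E • ind E ∧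
      (∀ E ∈ F \ S, β E ≤ 0) ∧ ∃ E ∈ F \ S, β E = 0 := by
  classical
  obtain ⟨v, hv, β, hβ⟩ := b_dec (S := S) hu
  obtain ⟨E₀, hE₀, hmax⟩ := Finset.exists_max_image (F \ S) (fun E => β E / w E) hne
  have hw' : ∀ E ∈ F \ S, 0 < w E := fun E hE => hw E (Finset.mem_sdiff.1 hE).1
  set τ := β E₀ / w E₀ with hτ
  refine ⟨v + τ • ∑ E ∈ F \ S, w E • ind E, Submodule.add_mem _ hv (Submodule.smul_mem _ _ h0),
    fun E => β E - τ * w E, ?_, ?_, E₀, hE₀, ?_⟩
  · rw [hβ, Finset.smul_sum]
    simp only [sub_smul, Finset.sum_sub_distrib, smul_smul]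
    abel
  · intro E hE
    have h1 := hmax E hE
    have h2 := hw' E hE
    have h3 : β E ≤ τ * w E := by
      rw [div_le_iff₀ h2] at h1
      exact h1
    show β E - τ * w E ≤ 0
    linarith
  · have h2 := hw' E₀ hE₀
    show β E₀ - τ * w E₀ = 0
    rw [hτ, div_mul_cancel₀ _ h2.ne']
    ring

omit [Fintype α] in
lemma b_sum_inter {P Q : Finset (Finset α)}
    (hd : ∀ Y ∈ P, ∀ Y' ∈ P, Y ≠ Y' → Disjoint Y Y') (hQ : Q ⊆ P) (T : Finset α) :
    ∑ Y ∈ Q, (T ∩ Y).card = (T ∩ Q.biUnion id).card := by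
  classical
  rw [Finset.inter_biUnion, Finset.card_biUnion]
  · rfl
  · intro Y hY Y' hY' hne
    have h := hd Y (hQ hY) Y' (hQ hY') hne
    exact Finset.disjoint_of_subset_left Finset.inter_subset_right
      (Finset.disjoint_of_subset_right Finset.inter_subset_right h)

end BProof

theorem p_B (hREL : T_REL) (hRES : T_RES) : T_B := by
  classical
  intro α _ _ s X F S P w w' hF hconn hSF hSne hS hP hcard hns hιs hsm
  obtain ⟨u, huF, hu0, hune, hsupp⟩ := hsm
  have hs : 0 < s := hF.pos_s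
  have hCne : (F \ S).Nonempty := by
    rw [Finset.sdiff_nonempty]
    intro h
    exact hSne (Finset.Subset.antisymm hSF h)
  obtain ⟨v, hv, β, hβ, hβ0, E₀, hE₀, hE₀0⟩ :=
    b_norm huF hF.pos (hREL α s X F S w w' hF hS hSF) hCne
  -- pointwise form
  have hpt : ∀ a, u a = v a + ∑ E ∈ F \ S, β E * ind E a := by
    intro a
    have h := congrFun hβ a
    simpa [Finset.sum_apply] using h
  have hind : ∀ (E : Finset α) (a : α), 0 ≤ ind E a := by
    intro E a
    unfold ind
    split_ifs <;> norm_num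
  have hterm : ∀ a, ∀ E ∈ F \ S, β E * ind E a ≤ 0 := fun a E hE =>
    mul_nonpos_of_nonpos_of_nonneg (hβ0 E hE) (hind E a)
  have hsum : ∀ a, ∑ E ∈ F \ S, β E * ind E a ≤ 0 := fun a => Finset.sum_nonpos (hterm a)
  have hv0 : ∀ a, 0 ≤ v a := by
    intro a
    have h1 := hpt a
    have h2 := hsum a
    have h3 := hu0 a
    linarith
  set C := F \ S with hC
  set C₀ := C.filter (fun E => β E = 0) with hC₀
  set C₁ := C.filter (fun E => ¬ β E = 0) with hC₁
  set P₀ := P.filter (fun Y => ∀ a ∈ Y, v a = 0) with hP₀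
  set P₁ := P.filter (fun Y => ¬ ∀ a ∈ Y, v a = 0) with hP₁
  have hCc : C₀.card + C₁.card = C.card := Finset.card_filter_add_card_filter_not _
  have hPc : P₀.card + P₁.card = P.card := Finset.card_filter_add_card_filter_not _
  have hEc : ∀ E ∈ C, E.card = s := fun E hE => hF.card E (Finset.mem_sdiff.1 hE).1
  -- (3)
  have h3 : ∀ Y ∈ P₁, s ≤ ((univ.filter (fun a => u a ≠ 0)) ∩ Y).card +
      ∑ E ∈ C₁, (E ∩ Y).card := by
    intro Y hY
    obtain ⟨hYP, hYv⟩ := Finset.mem_filter.1 hY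
    push Not at hYv
    obtain ⟨b, hbY, hbv⟩ := hYv
    have hres := hRES α S Y v (hP.closed Y hYP) hv
    have hle : s ≤ (univ.filter (fun a => (fun a => if a ∈ Y then v a else 0) a ≠ 0)).card := by
      by_contra hlt
      push Not at hlt
      refine hns Y hYP ⟨_, hres, ?_, ⟨b, ?_⟩, hlt⟩
      · intro a
        by_cases ha : a ∈ Y
        · simp only [ha, if_true]
          exact hv0 a
        · simp only [ha, if_false]
          exact le_refl _
      · simp only [hbY, if_true]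
        exact hbv
    have hsub : (univ.filter (fun a => (fun a => if a ∈ Y then v a else 0) a ≠ 0)) ⊆
        ((univ.filter (fun a => u a ≠ 0)) ∩ Y) ∪ C₁.biUnion (fun E => E ∩ Y) := by
      intro a ha
      simp only [Finset.mem_filter, Finset.mem_univ, true_and, ne_eq, ite_eq_right_iff,
        Classical.not_imp] at ha
      obtain ⟨haY, hav⟩ := ha
      rw [Finset.mem_union]
      by_cases hua : u a = 0
      · right
        by_contra hno
        apply hav
        have h1 := hpt a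
        have h2 : ∑ E ∈ C, β E * ind E a = 0 := by
          refine Finset.sum_eq_zero ?_
          intro E hE
          by_cases hb : β E = 0
          · simp [hb]
          · have hnE : a ∉ E := by
              intro haE
              apply hno
              rw [Finset.mem_biUnion]
              exact ⟨E, Finset.mem_filter.2 ⟨hE, hb⟩, Finset.mem_inter.2 ⟨haE, haY⟩⟩
            simp [ind, hnE]
        rw [h2, hua] at h1
        linarith
      · left
        rw [Finset.mem_inter]
        exact ⟨by simp [hua], haY⟩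
    calc s ≤ _ := hle
      _ ≤ _ := Finset.card_le_card hsub
      _ ≤ _ := Finset.card_union_le _ _
      _ ≤ _ := Nat.add_le_add_left Finset.card_biUnion_le _
  have hsum3 : P₁.card * s ≤ (univ.filter (fun a => u a ≠ 0)).card + C₁.card * s := by
    calc P₁.card * s = ∑ _Y ∈ P₁, s := by simp
      _ ≤ ∑ Y ∈ P₁, (((univ.filter (fun a => u a ≠ 0)) ∩ Y).card + ∑ E ∈ C₁, (E ∩ Y).card) :=
          Finset.sum_le_sum h3
      _ = ∑ Y ∈ P₁, ((univ.filter (fun a => u a ≠ 0)) ∩ Y).card +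
          ∑ E ∈ C₁, ∑ Y ∈ P₁, (E ∩ Y).card := by
          rw [Finset.sum_add_distrib, Finset.sum_comm]
      _ ≤ (univ.filter (fun a => u a ≠ 0)).card + ∑ _E ∈ C₁, s := by
          refine Nat.add_le_add ?_ (Finset.sum_le_sum ?_)
          · rw [b_sum_inter hP.disj (Finset.filter_subset _ _)]
            exact Finset.card_le_card Finset.inter_subset_left
          · intro E hE
            rw [b_sum_inter hP.disj (Finset.filter_subset _ _), ← hEc E (Finset.mem_filter.1 hE).1]
            exact Finset.card_le_card Finset.inter_subset_left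
      _ = (univ.filter (fun a => u a ≠ 0)).card + C₁.card * s := by simp
  have h31 : P₁.card ≤ C₁.card := by
    by_contra hlt
    push Not at hlt
    have h1 : (C₁.card + 1) * s ≤ P₁.card * s := Nat.mul_le_mul_right s hlt
    have h2 : (C₁.card + 1) * s = C₁.card * s + s := by ring
    omega
  have hC₀P₀ : C₀.card ≤ P₀.card := by omega
  -- (4)
  have h4 : ∀ Y ∈ P₀, ∀ a ∈ Y, u a = 0 ∧ ∀ E ∈ C₁, a ∉ E := by
    intro Y hY a ha
    obtain ⟨hYP, hYv⟩ := Finset.mem_filter.1 hY
    have h1 := hpt a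
    rw [hYv a ha, zero_add] at h1
    have h2 := hsum a
    have h5 := hu0 a
    have h6 : ∑ E ∈ C, β E * ind E a = 0 := by linarith
    refine ⟨by linarith, ?_⟩
    intro E hE haE
    obtain ⟨hEC, hEb⟩ := Finset.mem_filter.1 hE
    have h7 := (Finset.sum_eq_zero_iff_of_nonpos (hterm a)).1 h6 E hEC
    simp [ind, haE] at h7
    exact hEb h7
  set W := P₀.biUnion id with hW
  have h4s : ∀ Y ∈ P₀, ∑ E ∈ C₀, (E ∩ Y).card = s := by
    intro Y hY
    have h1 := hιs Y (Finset.mem_filter.1 hY).1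
    have h2 : ∑ E ∈ C₁, (E ∩ Y).card = 0 := by
      refine Finset.sum_eq_zero ?_
      intro E hE
      rw [Finset.card_eq_zero, Finset.eq_empty_iff_forall_notMem]
      intro a ha
      rw [Finset.mem_inter] at ha
      exact (h4 Y hY a ha.2).2 E hE ha.1
    have h5 : ∑ E ∈ C₀, (E ∩ Y).card + ∑ E ∈ C₁, (E ∩ Y).card = ∑ E ∈ C, (E ∩ Y).card :=
      Finset.sum_filter_add_sum_filter_not C (fun E => β E = 0) (fun E => (E ∩ Y).card)
    omega
  have hsum4 : P₀.card * s = ∑ E ∈ C₀, (E ∩ W).card := by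
    calc P₀.card * s = ∑ _Y ∈ P₀, s := by simp
      _ = ∑ Y ∈ P₀, ∑ E ∈ C₀, (E ∩ Y).card := (Finset.sum_congr rfl h4s).symm
      _ = ∑ E ∈ C₀, ∑ Y ∈ P₀, (E ∩ Y).card := Finset.sum_comm
      _ = ∑ E ∈ C₀, (E ∩ W).card :=
          Finset.sum_congr rfl (fun E _ => b_sum_inter hP.disj (Finset.filter_subset _ _) E)
  have hle4 : ∀ E ∈ C₀, (E ∩ W).card ≤ E.card := fun E _ =>
    Finset.card_le_card Finset.inter_subset_left
  have hsumE : ∑ E ∈ C₀, E.card = C₀.card * s := by
    calc ∑ E ∈ C₀, E.card = ∑ _E ∈ C₀, s :=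
          Finset.sum_congr rfl (fun E hE => hEc E (Finset.mem_filter.1 hE).1)
      _ = C₀.card * s := by rw [Finset.sum_const, smul_eq_mul]
  have hEq : ∑ E ∈ C₀, (E ∩ W).card = ∑ E ∈ C₀, E.card := by
    apply le_antisymm (Finset.sum_le_sum hle4)
    rw [hsumE, ← hsum4]
    exact Nat.mul_le_mul_right s hC₀P₀
  have hsubW : ∀ E ∈ C₀, E ⊆ W := by
    intro E hE
    have h1 := (Finset.sum_eq_sum_iff_of_le hle4).1 hEq E hE
    have h2 : E ∩ W = E := Finset.eq_of_subset_of_card_le Finset.inter_subset_left h1.ge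
    exact Finset.inter_eq_left.1 h2
  have hWX : W ⊆ X := by
    intro a ha
    obtain ⟨Y, hY, haY⟩ := Finset.mem_biUnion.1 ha
    exact hP.sub Y (Finset.mem_filter.1 hY).1 haY
  have hclosed : Closed F W := by
    intro R hR
    by_cases hRS : R ∈ S
    · by_cases hex : ∃ Y ∈ P₀, R ⊆ Y
      · obtain ⟨Y, hY, hRY⟩ := hex
        left
        exact fun a ha => Finset.mem_biUnion.2 ⟨Y, hY, hRY ha⟩
      · right
        push Not at hex
        rw [hW, Finset.disjoint_biUnion_right]
        intro Y hY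
        rcases hP.closed Y (Finset.mem_filter.1 hY).1 R hRS with h | h
        · exact absurd h (hex Y hY)
        · exact h
    · have hRC : R ∈ C := Finset.mem_sdiff.2 ⟨hR, hRS⟩
      by_cases hb : β R = 0
      · left
        exact hsubW R (Finset.mem_filter.2 ⟨hRC, hb⟩)
      · right
        rw [hW, Finset.disjoint_biUnion_right]
        intro Y hY
        rw [Finset.disjoint_left]
        intro a haR haY
        exact (h4 Y hY a haY).2 R (Finset.mem_filter.2 ⟨hRC, hb⟩) haR
  rcases hconn W hWX hclosed with hW0 | hWX'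
  · have hC₀pos : 0 < C₀.card := Finset.card_pos.2 ⟨E₀, Finset.mem_filter.2 ⟨hE₀, hE₀0⟩⟩
    have hP₀pos : 0 < P₀.card := lt_of_lt_of_le hC₀pos hC₀P₀
    obtain ⟨Y, hY⟩ := Finset.card_pos.1 hP₀pos
    obtain ⟨a, ha⟩ := hP.ne Y (Finset.mem_filter.1 hY).1
    have : a ∈ W := Finset.mem_biUnion.2 ⟨Y, hY, ha⟩
    rw [hW0] at this
    exact absurd this (Finset.notMem_empty a)
  · obtain ⟨a, ha⟩ := hune
    apply ha
    by_cases haX : a ∈ X
    · rw [← hWX'] at haX
      obtain ⟨Y, hY, haY⟩ := Finset.mem_biUnion.1 haX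
      exact (h4 Y hY a haY).1
    · exact b_off hF huF a haX

end Pool.Agent.EQB
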