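import Pool.Agent.EQB.Targets

set_option autoImplicit false

/-!
# Project EQB, target CL: the counting lemma
-/

namespace Pool.Agent.EQB

open Finset

theorem p_CL : T_CL := by
  classical
  intro α _ _ s X F w hS hC hF
  have hlt : ∀ R ∈ F, w R < 1 := by
    intro R hR
    by_contra hge
    have hge' : 1 ≤ w R := not_lt.mp hge
    have hdis : ∀ R' ∈ F, R' ≠ R → Disjoint R' R := by
      intro R' hR' hne
      rw [Finset.disjoint_left]
      intro x hx' hx
      have h1 := hS.sum x (hS.sub R hR hx)
      have h2 : ∑ Q ∈ ({R, R'} : Finset (Finset α)), w Q ≤ ∑ Q ∈ F with x ∈ Q, w Q := by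
        apply Finset.sum_le_sum_of_subset_of_nonneg
        · intro Q hQ
          rw [Finset.mem_insert, Finset.mem_singleton] at hQ
          rcases hQ with h | h
          · rw [h, Finset.mem_filter]
            exact ⟨hR, hx⟩
          · rw [h, Finset.mem_filter]
            exact ⟨hR', hx'⟩
        · intro Q hQ _
          exact (hS.pos Q (Finset.mem_filter.mp hQ).1).le
      rw [Finset.sum_pair hne.symm] at h2
      have h3 := hS.pos R' hR'
      linarith
    have hcl : Closed F R := by
      intro R' hR'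
      rcases eq_or_ne R' R with h | h
      · exact Or.inl h.subset
      · exact Or.inr (hdis R' hR' h)
    have hne : R ≠ ∅ := by
      intro h
      have h1 := hS.card R hR
      rw [h, Finset.card_empty] at h1
      have h2 := hS.pos_s
      omega
    have hX : R = X := by
      rcases hC R (hS.sub R hR) hcl with h | h
      · exact absurd h hne
      · exact h
    obtain ⟨R', hR', hne'⟩ := Finset.exists_mem_ne (by omega : 1 < F.card) R
    have h1 := hdis R' hR' hne'
    have h2 : R' ⊆ R := by
      rw [hX]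
      exact hS.sub R' hR'
    have h3 : R' = ∅ := by
      rw [Finset.eq_empty_iff_forall_notMem]
      intro x hx
      exact (Finset.disjoint_left.mp h1) hx (h2 hx)
    have h4 := hS.card R' hR'
    rw [h3, Finset.card_empty] at h4
    have h5 := hS.pos_s
    omega
  set U : Finset α := X.filter (fun x => ∃ R ∈ F, 1 / 2 < w R ∧ x ∈ R) with hU
  have h1 : 0 ≤ ∑ x ∈ U, ∑ R ∈ F with x ∈ R, (1 - 2 * w R) := by
    apply Finset.sum_nonneg
    intro x hx
    obtain ⟨hxX, R, hR, -, hxR⟩ := Finset.mem_filter.mp hx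
    have e1 := hS.sum x hxX
    have e2 : 2 ≤ (F.filter (fun Q => x ∈ Q)).card := by
      by_contra hlt2
      have hmem : R ∈ F.filter (fun Q => x ∈ Q) := Finset.mem_filter.mpr ⟨hR, hxR⟩
      have hc1 : (F.filter (fun Q => x ∈ Q)).card = 1 := by
        have := Finset.card_pos.mpr ⟨R, hmem⟩
        omega
      obtain ⟨Q, hQ⟩ := Finset.card_eq_one.mp hc1
      have hQR : R = Q := by
        rw [hQ, Finset.mem_singleton] at hmem
        exact hmem
      rw [hQ, Finset.sum_singleton, ← hQR] at e1
      exact absurd e1 (hlt R hR).ne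
    have e3 : ∑ Q ∈ F with x ∈ Q, (1 - 2 * w Q) =
        ((F.filter (fun Q => x ∈ Q)).card : ℝ) - 2 * ∑ Q ∈ F with x ∈ Q, w Q := by
      rw [Finset.sum_sub_distrib, ← Finset.mul_sum, Finset.sum_const, nsmul_eq_mul, mul_one]
    rw [e3, e1]
    have e4 : (2 : ℝ) ≤ ((F.filter (fun Q => x ∈ Q)).card : ℝ) := by exact_mod_cast e2
    linarith
  have h2 : ∑ x ∈ U, ∑ R ∈ F with x ∈ R, (1 - 2 * w R) =
      ∑ R ∈ F, ((U.filter (fun x => x ∈ R)).card : ℝ) * (1 - 2 * w R) := by
    have e1 : ∀ x ∈ U, ∑ R ∈ F with x ∈ R, (1 - 2 * w R) =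
        ∑ R ∈ F, if x ∈ R then (1 - 2 * w R) else 0 := fun x _ => Finset.sum_filter _ _
    rw [Finset.sum_congr rfl e1, Finset.sum_comm]
    refine Finset.sum_congr rfl fun R _ => ?_
    rw [← Finset.sum_filter, Finset.sum_const, nsmul_eq_mul]
  have h3 : ∑ R ∈ F, ((U.filter (fun x => x ∈ R)).card : ℝ) * (1 - 2 * w R) ≤
      ∑ R ∈ F, (s : ℝ) * (1 - 2 * w R) := by
    refine Finset.sum_le_sum fun R hR => ?_
    have hsubR : U.filter (fun x => x ∈ R) ⊆ R := fun x hx => (Finset.mem_filter.mp hx).2
    have hle : (U.filter (fun x => x ∈ R)).card ≤ s := by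
      rw [← hS.card R hR]
      exact Finset.card_le_card hsubR
    by_cases hw : 1 / 2 < w R
    · have heq : U.filter (fun x => x ∈ R) = R := by
        apply Finset.Subset.antisymm hsubR
        intro x hx
        rw [Finset.mem_filter, hU, Finset.mem_filter]
        exact ⟨⟨hS.sub R hR hx, R, hR, hw, hx⟩, hx⟩
      rw [heq, hS.card R hR]
    · have hw' : 0 ≤ 1 - 2 * w R := by
        have := not_lt.mp hw
        linarith
      exact mul_le_mul_of_nonneg_right (by exact_mod_cast hle) hw'
  have h4 : ∑ R ∈ F, (s : ℝ) * w R = X.card := by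
    have e1 : ∀ R ∈ F, (s : ℝ) * w R = ∑ x ∈ X, if x ∈ R then w R else 0 := by
      intro R hR
      rw [← Finset.sum_filter, Finset.sum_const, nsmul_eq_mul]
      have : X.filter (fun x => x ∈ R) = R := by
        ext x
        rw [Finset.mem_filter]
        exact ⟨fun h => h.2, fun h => ⟨hS.sub R hR h, h⟩⟩
      rw [this, hS.card R hR]
    rw [Finset.sum_congr rfl e1, Finset.sum_comm]
    have e2 : ∀ x ∈ X, (∑ R ∈ F, if x ∈ R then w R else 0) = 1 := by
      intro x hx
      rw [← Finset.sum_filter]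
      exact hS.sum x hx
    rw [Finset.sum_congr rfl e2, Finset.sum_const, nsmul_eq_mul, mul_one]
  have h5 : ∑ R ∈ F, (s : ℝ) * (1 - 2 * w R) = s * F.card - 2 * X.card := by
    rw [← h4, Finset.mul_sum, mul_comm (s : ℝ) (F.card : ℝ), ← nsmul_eq_mul,
      ← Finset.sum_const, ← Finset.sum_sub_distrib]
    exact Finset.sum_congr rfl fun R _ => by ring
  have h6 : (2 : ℝ) * X.card ≤ s * F.card := by linarith
  exact_mod_cast h6

end Pool.Agent.EQB
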