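import Pool.Agent.EQB.Targets

set_option autoImplicit false

/-!
# Components (target COMP)
-/

namespace Pool.Agent.EQB

open Finset

theorem p_COMP : T_COMP := by
  intro α _ _ s X F w hsys
  classical
  obtain ⟨K, hK⟩ : ∃ K : α → Finset α, ∀ x y, y ∈ K x ↔
      y ∈ X ∧ ∀ Y : Finset α, Y ⊆ X → Closed F Y → (x ∈ Y ↔ y ∈ Y) :=
    ⟨fun x => X.filter fun y => ∀ Y : Finset α, Y ⊆ X → Closed F Y → (x ∈ Y ↔ y ∈ Y),
      fun x y => by rw [Finset.mem_filter]⟩
  have hself : ∀ x ∈ X, x ∈ K x := fun x hx => (hK x x).2 ⟨hx, fun _ _ _ => Iff.rfl⟩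
  have hKX : ∀ x, K x ⊆ X := fun x y hy => ((hK x y).1 hy).1
  -- a point of `K x` has the same class
  have hsame : ∀ x y, y ∈ K x → K y = K x := by
    intro x y hy
    have h1 := ((hK x y).1 hy).2
    ext z
    rw [hK, hK]
    refine and_congr_right fun _ => ?_
    refine forall_congr' fun Y => forall_congr' fun hY => forall_congr' fun hc => ?_
    rw [h1 Y hY hc]
  have hclosed : ∀ x, Closed F (K x) := by
    intro x R hR
    by_cases hd : Disjoint R (K x)
    · exact Or.inr hd
    · left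
      rw [Finset.not_disjoint_iff] at hd
      obtain ⟨y, hyR, hyK⟩ := hd
      intro z hz
      rw [hK]
      refine ⟨hsys.sub R hR hz, fun Y hY hc => ?_⟩
      rw [((hK x y).1 hyK).2 Y hY hc]
      rcases hc R hR with h | h
      · exact ⟨fun _ => h hz, fun _ => h hyR⟩
      · exact ⟨fun h' => absurd h' (Finset.disjoint_left.1 h hyR),
          fun h' => absurd h' (Finset.disjoint_left.1 h hz)⟩
  refine ⟨X.image K, ?_, ?_, ?_, ?_, ?_, ?_⟩
  · intro Y hY
    obtain ⟨x, hx, rfl⟩ := Finset.mem_image.1 hY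
    exact ⟨x, hself x hx⟩
  · intro Y hY
    obtain ⟨x, hx, rfl⟩ := Finset.mem_image.1 hY
    exact hKX x
  · intro Y hY Y' hY' hne
    obtain ⟨x, hx, rfl⟩ := Finset.mem_image.1 hY
    obtain ⟨x', hx', rfl⟩ := Finset.mem_image.1 hY'
    rw [Finset.disjoint_left]
    intro z hz hz'
    exact hne ((hsame x z hz).symm.trans (hsame x' z hz'))
  · intro x hx
    exact ⟨K x, Finset.mem_image_of_mem K hx, hself x hx⟩
  · intro Y hY
    obtain ⟨x, hx, rfl⟩ := Finset.mem_image.1 hY
    exact hclosed x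
  · intro Y hY
    obtain ⟨x, hx, rfl⟩ := Finset.mem_image.1 hY
    intro Y hYK hYc
    have hYF : Closed F Y := by
      intro R hR
      rcases hclosed x R hR with h | h
      · exact hYc R (Finset.mem_filter.2 ⟨hR, h⟩)
      · exact Or.inr (Finset.disjoint_of_subset_right hYK h)
    by_cases hne : Y = ∅
    · exact Or.inl hne
    · right
      obtain ⟨y, hy⟩ := Finset.nonempty_iff_ne_empty.2 hne
      refine Finset.Subset.antisymm hYK fun z hz => ?_
      have hYX : Y ⊆ X := hYK.trans (hKX x)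
      have h1 := ((hK x y).1 (hYK hy)).2 Y hYX hYF
      have h2 := ((hK x z).1 hz).2 Y hYX hYF
      exact h2.1 (h1.2 hy)

end Pool.Agent.EQB
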