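import Pool.Agent.EQB.Targets

set_option autoImplicit false

namespace Pool.Agent.EQB

open Finset

theorem dim_mono {α : Type} [Fintype α] [DecidableEq α] {F S : Finset (Finset α)} (h : S ⊆ F) :
    V S ≤ V F := by
  apply Submodule.span_mono
  apply Set.image_mono
  intro x hx
  exact h hx

theorem dim_mem {α : Type} [Fintype α] [DecidableEq α] {F : Finset (Finset α)} {E : Finset α}
    (h : E ∈ F) : ind E ∈ V F :=
  Submodule.subset_span ⟨E, h, rfl⟩

theorem p_DIM : T_DIM := by
  intro α _ _ F S hSF hne hone
  obtain ⟨E₀, hE₀⟩ : (F \ S).Nonempty := by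
    rw [Finset.sdiff_nonempty]
    intro h
    exact hne (subset_antisymm hSF h)
  set T : Finset (Finset α) := (F \ S).erase E₀ with hT
  have hTF : ∀ E ∈ T, E ∈ F := by
    intro E hE
    exact (Finset.mem_sdiff.1 (Finset.mem_of_mem_erase hE)).1
  let φ : (V S × (T → ℝ)) →ₗ[ℝ] (α → ℝ) :=
    { toFun := fun p => (p.1 : α → ℝ) + ∑ E : T, p.2 E • ind (E : Finset α)
      map_add' := by
        intro p q
        simp only [Prod.fst_add, Prod.snd_add, Submodule.coe_add, Pi.add_apply, add_smul,
          Finset.sum_add_distrib]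
        abel
      map_smul' := by
        intro c p
        simp only [Prod.smul_fst, Prod.smul_snd, Submodule.coe_smul, Pi.smul_apply, smul_eq_mul,
          RingHom.id_apply, smul_add, Finset.smul_sum, mul_smul] }
  have hφ : ∀ p, φ p ∈ V F := by
    intro p
    apply Submodule.add_mem
    · exact dim_mono hSF p.1.2
    · apply Submodule.sum_mem
      intro E _
      exact Submodule.smul_mem _ _ (dim_mem (hTF _ E.2))
  have hinj : Function.Injective (LinearMap.codRestrict (V F) φ hφ) := by
    rw [← LinearMap.ker_eq_bot, LinearMap.ker_codRestrict, LinearMap.ker_eq_bot']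
    intro p hp
    have hp' : (p.1 : α → ℝ) + ∑ E : T, p.2 E • ind (E : Finset α) = 0 := hp
    classical
    set z : Finset α → ℝ := fun E => if h : E ∈ T then p.2 ⟨E, h⟩ else 0 with hz
    have hz0 : z E₀ = 0 := by
      simp [hz, hT]
    have hzT : ∀ E : T, z E = p.2 E := by
      intro E
      simp [hz, E.2]
    have hsum : ∑ E ∈ F \ S, z E • ind E = ∑ E : T, p.2 E • ind (E : Finset α) := by
      rw [← Finset.add_sum_erase (F \ S) _ hE₀, hz0, zero_smul, zero_add, ← hT,
        ← Finset.sum_coe_sort T]
      apply Finset.sum_congr rfl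
      intro E _
      rw [hzT]
    have hmem : (∑ E ∈ F \ S, z E • ind E) ∈ V S := by
      rw [hsum]
      have : ∑ E : T, p.2 E • ind (E : Finset α) = -(p.1 : α → ℝ) := by
        rw [eq_neg_iff_add_eq_zero, add_comm]
        exact hp'
      rw [this]
      exact Submodule.neg_mem _ p.1.2
    have hzero := hone E₀ hE₀ z hz0 hmem
    have h2 : p.2 = 0 := by
      funext E
      rw [← hzT E]
      exact hzero E (Finset.mem_of_mem_erase E.2)
    have h1 : p.1 = 0 := by
      rw [h2] at hp'
      simp only [Pi.zero_apply, zero_smul, Finset.sum_const_zero, add_zero] at hp'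
      exact Subtype.ext hp'
    exact Prod.ext h1 h2
  have hle := LinearMap.finrank_le_finrank_of_injective hinj
  rw [Module.finrank_prod, Module.finrank_fintype_fun_eq_card, Fintype.card_coe] at hle
  have hc : T.card + 1 = (F \ S).card := by
    rw [hT, Finset.card_erase_add_one hE₀]
  unfold rk
  omega

end Pool.Agent.EQB
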