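import Pool.Agent.EQB.Targets

set_option autoImplicit false

/-!
# EQB: DR, functions constant on the rows are in the range
-/

namespace Pool.Agent.EQB

open Finset

theorem dr_mul {ι : Type} [Fintype ι] [DecidableEq ι] {Z : Matrix ι ι ℝ} {s : ℕ} (h : Reg Z s)
    {d : ι → ℝ} (hd : d ∈ D Z) : Z.mulVec d = (s : ℝ) • d := by
  funext i
  have h1 : ∀ i j, Z i j = 1 → d i = d j := hd
  have h2 : ∀ j ∈ univ, Z i j * d j = Z i j * d i := by
    intro j _
    rcases h.entry i j with h0 | h0
    · rw [h0, zero_mul, zero_mul]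
    · rw [h1 i j h0]
  change ∑ j, Z i j * d j = (s : ℝ) * d i
  rw [sum_congr rfl h2, ← sum_mul, h.row i]

theorem dr_pos {ι : Type} [Fintype ι] [DecidableEq ι] {Z : Matrix ι ι ℝ} {s : ℕ} (h : Reg Z s)
    (i : ι) : (0 : ℝ) < s := by
  rw [← h.row i]
  have h1 : ∀ j ∈ univ, 0 ≤ Z i j := by
    intro j _
    rcases h.entry i j with h0 | h0
    · rw [h0]
    · rw [h0]; exact zero_le_one
  have h2 : Z i i ≤ ∑ j, Z i j := single_le_sum h1 (mem_univ i)
  rw [h.diag i] at h2
  linarith

theorem p_DR : T_DR := by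
  intro ι _ _ Z s h
  have hle : D Z ≤ LinearMap.range Z.mulVecLin := by
    intro d hd
    rcases isEmpty_or_nonempty ι with hι | ⟨⟨i⟩⟩
    · have : d = 0 := funext fun i => (hι.false i).elim
      rw [this]
      exact Submodule.zero_mem _
    · have hs := dr_pos h i
      refine ⟨(s : ℝ)⁻¹ • d, ?_⟩
      rw [Matrix.mulVecLin_apply, Matrix.mulVec_smul, dr_mul h hd, smul_smul,
        inv_mul_cancel₀ hs.ne', one_smul]
  exact Submodule.finrank_mono hle

end Pool.Agent.EQB
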