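import Pool.Agent.EQB.Targets

set_option autoImplicit false

/-!
# EQB, target EXC: the exchange argument
-/

namespace Pool.Agent.EQB

open Finset

namespace EXC_

variable {α : Type} [DecidableEq α]

theorem eval (F : Finset (Finset α)) (z : Finset α → ℝ) (x : α) :
    (∑ R ∈ F, z R • ind R) x = ∑ R ∈ F with x ∈ R, z R := by
  rw [Finset.sum_apply, Finset.sum_filter]
  refine Finset.sum_congr rfl fun R _ => ?_
  simp [ind]

theorem sys {s : ℕ} {X : Finset α} {F S : Finset (Finset α)} {w : Finset α → ℝ}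
    (hF : Sys s X F w) (hS : S ⊆ F) (u : Finset α → ℝ) (hpos : ∀ R ∈ S, 0 < u R)
    (hzero : ∀ R ∈ F, R ∉ S → u R = 0) (hsum : ∀ x ∈ X, ∑ R ∈ F with x ∈ R, u R = 1) :
    Sys s X S u where
  pos_s := hF.pos_s
  sub := fun R hR => hF.sub R (hS hR)
  card := fun R hR => hF.card R (hS hR)
  pos := hpos
  sum := by
    intro x hx
    rw [← hsum x hx]
    refine Finset.sum_subset (Finset.filter_subset_filter _ hS) ?_
    intro R hR hR'
    rw [Finset.mem_filter] at hR hR'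
    exact hzero R hR.1 fun h => hR' ⟨h, hR.2⟩

/-- The minimal ratio. -/
theorem ratio {β : Type} (G : Finset β) (w z : β → ℝ) (hw : ∀ R ∈ G, 0 < w R)
    (hz : ∃ R ∈ G, 0 < z R) : ∃ τ : ℝ, 0 < τ ∧ (∀ R ∈ G, 0 ≤ w R - τ * z R) ∧
      ∃ R ∈ G, w R - τ * z R = 0 := by
  classical
  obtain ⟨R₁, hR₁, hz₁⟩ := hz
  obtain ⟨R₀, hR₀, hmin⟩ := Finset.exists_min_image (G.filter fun R => 0 < z R)
    (fun R => w R / z R) ⟨R₁, Finset.mem_filter.2 ⟨hR₁, hz₁⟩⟩
  rw [Finset.mem_filter] at hR₀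
  have hτ : 0 < w R₀ / z R₀ := div_pos (hw R₀ hR₀.1) hR₀.2
  refine ⟨w R₀ / z R₀, hτ, fun R hR => ?_, R₀, hR₀.1, ?_⟩
  · rcases lt_or_ge 0 (z R) with h | h
    · have h1 := hmin R (Finset.mem_filter.2 ⟨hR, h⟩)
      rw [le_div_iff₀ h] at h1
      linarith
    · have h1 : w R₀ / z R₀ * z R ≤ 0 := mul_nonpos_of_nonneg_of_nonpos hτ.le h
      have h2 := hw R hR
      linarith
  · rw [div_mul_cancel₀ _ hR₀.2.ne', sub_self]

theorem start {s : ℕ} {X : Finset α} {F : Finset (Finset α)} {w : Finset α → ℝ}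
    (hF : Sys s X F w) (z : Finset α → ℝ) (hz : ∃ R ∈ F, 0 < z R)
    (h0 : ∑ R ∈ F, z R • ind R = 0) :
    ∃ (S : Finset (Finset α)) (w' : Finset α → ℝ), S ⊆ F ∧ S ≠ F ∧ Sys s X S w' := by
  classical
  obtain ⟨τ, -, hnn, R₀, hR₀, hR0⟩ := ratio F w z hF.pos hz
  refine ⟨F.filter fun R => 0 < w R - τ * z R, fun R => w R - τ * z R,
    Finset.filter_subset _ _, ?_, ?_⟩
  · intro h
    have h1 : R₀ ∈ F.filter fun R => 0 < w R - τ * z R := by
      rw [h]
      exact hR₀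
    rw [Finset.mem_filter, hR0] at h1
    exact lt_irrefl _ h1.2
  · refine sys hF (Finset.filter_subset _ _) _ (fun R hR => (Finset.mem_filter.1 hR).2) ?_ ?_
    · intro R hR hR'
      refine le_antisymm ?_ (hnn R hR)
      by_contra h
      exact hR' (Finset.mem_filter.2 ⟨hR, not_le.1 h⟩)
    · intro x hx
      have h1 := congrFun h0 x
      rw [eval] at h1
      rw [Finset.sum_sub_distrib, ← Finset.mul_sum, h1, hF.sum x hx]
      simp

theorem split {F S : Finset (Finset α)} (hS : S ⊆ F) (x : α) (u : Finset α → ℝ) :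
    ∑ R ∈ F with x ∈ R, u R = ∑ R ∈ S with x ∈ R, u R + ∑ R ∈ F \ S with x ∈ R, u R := by
  rw [Finset.sum_filter, Finset.sum_filter, Finset.sum_filter, add_comm,
    Finset.sum_sdiff hS]

theorem step {s : ℕ} {X : Finset α} {F S : Finset (Finset α)} {w w' : Finset α → ℝ}
    (hF : Sys s X F w) (hS : S ⊆ F) (hS' : Sys s X S w') (z y : Finset α → ℝ)
    (E₀ : Finset α) (hE₀ : E₀ ∈ F \ S) (hz₀ : z E₀ = 0)
    (hz : ∃ E ∈ F \ S, 0 < z E)
    (h0 : ∑ R ∈ S, y R • ind R = ∑ E ∈ F \ S, z E • ind E) :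
    ∃ (S' : Finset (Finset α)) (u : Finset α → ℝ), S' ⊆ F ∧ S' ≠ F ∧ Sys s X S' u ∧
      S.card < S'.card := by
  classical
  obtain ⟨τ, -, hnn, E₂, hE₂, hE2⟩ := ratio (F \ S) w z
    (fun R hR => hF.pos R (Finset.mem_sdiff.1 hR).1) hz
  let v : Finset α → ℝ := fun R => if R ∈ S then (w R - w' R) + τ * y R else w R - τ * z R
  have hvS : ∀ R ∈ S, v R = (w R - w' R) + τ * y R := fun R hR => if_pos hR
  have hvF : ∀ R ∈ F \ S, v R = w R - τ * z R := fun R hR =>
    if_neg (Finset.mem_sdiff.1 hR).2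
  have hv : ∀ x ∈ X, ∑ R ∈ F with x ∈ R, v R = 0 := by
    intro x hx
    have h1 := hF.sum x hx
    have h2 := hS'.sum x hx
    have h3 := congrFun h0 x
    rw [eval, eval] at h3
    rw [split hS x] at h1 ⊢
    have h4 : ∑ R ∈ S with x ∈ R, v R = ∑ R ∈ S with x ∈ R, ((w R - w' R) + τ * y R) :=
      Finset.sum_congr rfl fun R hR => hvS R (Finset.mem_filter.1 hR).1
    have h5 : ∑ R ∈ F \ S with x ∈ R, v R = ∑ R ∈ F \ S with x ∈ R, (w R - τ * z R) :=
      Finset.sum_congr rfl fun R hR => hvF R (Finset.mem_filter.1 hR).1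
    rw [h4, h5, Finset.sum_add_distrib, Finset.sum_sub_distrib, Finset.sum_sub_distrib,
      ← Finset.mul_sum, ← Finset.mul_sum, h3, h2]
    linarith
  let M : ℝ := 1 + ∑ R ∈ S, |v R| / w' R
  have hM : ∀ R ∈ S, |v R| < w' R * M := by
    intro R hR
    have h1 := hS'.pos R hR
    have h2 : |v R| / w' R ≤ ∑ R ∈ S, |v R| / w' R :=
      Finset.single_le_sum (f := fun R => |v R| / w' R)
        (fun T hT => div_nonneg (abs_nonneg _) (hS'.pos T hT).le) hR
    have h3 : |v R| / w' R < M := by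
      change |v R| / w' R < 1 + ∑ R ∈ S, |v R| / w' R
      linarith
    rw [div_lt_iff₀ h1] at h3
    linarith
  have hM1 : 0 < M := by
    have h2 : 0 ≤ ∑ R ∈ S, |v R| / w' R :=
      Finset.sum_nonneg fun T hT => div_nonneg (abs_nonneg _) (hS'.pos T hT).le
    change 0 < 1 + ∑ R ∈ S, |v R| / w' R
    linarith
  let u : Finset α → ℝ := fun R => (if R ∈ S then w' R else 0) + v R / M
  have huS : ∀ R ∈ S, 0 < u R := by
    intro R hR
    have h1 : u R = w' R + v R / M := by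
      change (if R ∈ S then w' R else 0) + v R / M = _
      rw [if_pos hR]
    rw [h1]
    have h2 := hM R hR
    have h3 : -(v R) ≤ |v R| := neg_le_abs _
    have h4 : -(v R) / M < w' R := by
      rw [div_lt_iff₀ hM1]
      linarith
    rw [neg_div] at h4
    linarith
  have huF : ∀ R ∈ F \ S, u R = v R / M := by
    intro R hR
    change (if R ∈ S then w' R else 0) + v R / M = _
    rw [if_neg (Finset.mem_sdiff.1 hR).2, zero_add]
  have hunn : ∀ R ∈ F, 0 ≤ u R := by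
    intro R hR
    by_cases h : R ∈ S
    · exact (huS R h).le
    · have h1 := Finset.mem_sdiff.2 ⟨hR, h⟩
      rw [huF R h1, hvF R h1]
      exact div_nonneg (hnn R h1) hM1.le
  have hE0 : 0 < u E₀ := by
    rw [huF E₀ hE₀, hvF E₀ hE₀, hz₀, mul_zero, sub_zero]
    exact div_pos (hF.pos E₀ (Finset.mem_sdiff.1 hE₀).1) hM1
  refine ⟨F.filter fun R => 0 < u R, u, Finset.filter_subset _ _, ?_, ?_, ?_⟩
  · intro h
    have h1 : E₂ ∈ F.filter fun R => 0 < u R := by
      rw [h]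
      exact (Finset.mem_sdiff.1 hE₂).1
    rw [Finset.mem_filter, huF E₂ hE₂, hvF E₂ hE₂, hE2, zero_div] at h1
    exact lt_irrefl _ h1.2
  · refine sys hF (Finset.filter_subset _ _) _ (fun R hR => (Finset.mem_filter.1 hR).2) ?_ ?_
    · intro R hR hR'
      refine le_antisymm ?_ (hunn R hR)
      by_contra h
      exact hR' (Finset.mem_filter.2 ⟨hR, not_le.1 h⟩)
    · intro x hx
      have h1 : ∑ R ∈ F with x ∈ R, u R = ∑ R ∈ F with x ∈ R, (if R ∈ S then w' R else 0) +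
          ∑ R ∈ F with x ∈ R, v R / M := Finset.sum_add_distrib
      have h2 : ∑ R ∈ F with x ∈ R, (if R ∈ S then w' R else 0) = 1 := by
        rw [split hS x, ← hS'.sum x hx]
        have h3 : ∑ R ∈ F \ S with x ∈ R, (if R ∈ S then w' R else 0) = 0 :=
          Finset.sum_eq_zero fun R hR =>
            if_neg (Finset.mem_sdiff.1 (Finset.mem_filter.1 hR).1).2
        rw [h3, add_zero]
        exact Finset.sum_congr rfl fun R hR => if_pos (Finset.mem_filter.1 hR).1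
      rw [h1, h2, ← Finset.sum_div, hv x hx, zero_div, add_zero]
  · refine Finset.card_lt_card ⟨fun R hR => Finset.mem_filter.2 ⟨hS hR, huS R hR⟩, fun h => ?_⟩
    exact (Finset.mem_sdiff.1 hE₀).2
      (h (Finset.mem_filter.2 ⟨(Finset.mem_sdiff.1 hE₀).1, hE0⟩))

end EXC_

open EXC_ in
theorem p_EXC : T_EXC := by
  intro α _ _ s X F w hF hex
  classical
  obtain ⟨z, ⟨R₁, hR₁, hz₁⟩, h0⟩ := hex
  have hst : ∃ (S : Finset (Finset α)) (w' : Finset α → ℝ), S ⊆ F ∧ S ≠ F ∧ Sys s X S w' := by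
    rcases lt_or_gt_of_ne hz₁ with h | h
    · refine start hF (fun R => -z R) ⟨R₁, hR₁, by linarith⟩ ?_
      simp only [neg_smul, Finset.sum_neg_distrib, h0, neg_zero]
    · exact start hF z ⟨R₁, hR₁, h⟩ h0
  obtain ⟨S₀, w₀, hS₀, hne₀, hsys₀⟩ := hst
  obtain ⟨S, hS, hmax⟩ := Finset.exists_max_image
    (F.powerset.filter fun S => S ≠ F ∧ ∃ w', Sys s X S w') Finset.card
    ⟨S₀, Finset.mem_filter.2 ⟨Finset.mem_powerset.2 hS₀, hne₀, w₀, hsys₀⟩⟩
  rw [Finset.mem_filter, Finset.mem_powerset] at hS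
  obtain ⟨hSF, hne, w', hsys⟩ := hS
  refine ⟨S, w', hSF, hne, hsys, ?_⟩
  intro E₀ hE₀ z hz₀ hz
  by_contra hcon
  push Not at hcon
  obtain ⟨E₁, hE₁, hzE₁⟩ := hcon
  unfold V at hz
  obtain ⟨y, hy⟩ := (Submodule.mem_span_image_finset_iff_exists_fun' ℝ).1 hz
  have key : ∃ (S' : Finset (Finset α)) (u : Finset α → ℝ), S' ⊆ F ∧ S' ≠ F ∧ Sys s X S' u ∧
      S.card < S'.card := by
    rcases lt_or_gt_of_ne hzE₁ with h | h
    · refine step hF hSF hsys (fun R => -z R) (fun R => -y R) E₀ hE₀ (by simp [hz₀])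
        ⟨E₁, hE₁, by linarith⟩ ?_
      simp only [neg_smul, Finset.sum_neg_distrib, hy]
    · exact step hF hSF hsys z y E₀ hE₀ hz₀ ⟨E₁, hE₁, h⟩ hy
  obtain ⟨S', u, h1, h2, h3, h4⟩ := key
  exact absurd (hmax S' (Finset.mem_filter.2 ⟨Finset.mem_powerset.2 h1, h2, u, h3⟩))
    (not_le.2 h4)

end Pool.Agent.EQB
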