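import Pool.Agent.EQB.Targets

set_option autoImplicit false

namespace Pool.Agent.EQB

open Finset

theorem p_LAB : T_LAB := by
  intro ι β _ _ _ G f g M hM
  classical
  have hfac : M = (Matrix.of fun (i : ι) (x : G) => f x.1 i) *
      (Matrix.of fun (x : G) (j : ι) => g x.1 j) := by
    ext i j
    rw [Matrix.mul_apply, hM i j]
    simp only [Matrix.of_apply]
    exact (Finset.sum_coe_sort G (fun x => f x i * g x j)).symm
  rw [hfac]
  refine (Matrix.rank_mul_le_left _ _).trans ?_
  refine (Matrix.rank_le_card_width _).trans ?_
  rw [Fintype.card_coe]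

end Pool.Agent.EQB
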