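import Pool.Agent.EQB.Targets

set_option autoImplicit false

namespace Pool.Agent.EQB

open Finset

section

variable {α : Type} [Fintype α] [DecidableEq α]

lemma mc_mem_V (F : Finset (Finset α)) (R : Finset α) (hR : R ∈ F) : ind R ∈ V F :=
  Submodule.subset_span ⟨R, hR, rfl⟩

lemma mc_empty (s : ℕ) (X : Finset α) (w : Finset α → ℝ) (h : Sys s X ∅ w) : X = ∅ := by
  by_contra hne
  obtain ⟨x, hx⟩ := Finset.nonempty_iff_ne_empty.2 hne
  have := h.sum x hx
  simp at this

/-- a set of the family through every point -/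
lemma mc_exists (s : ℕ) (X : Finset α) (F : Finset (Finset α)) (w : Finset α → ℝ)
    (h : Sys s X F w) (x : α) (hx : x ∈ X) : ∃ R ∈ F, x ∈ R := by
  by_contra hne
  push Not at hne
  have h1 := h.sum x hx
  rw [Finset.sum_eq_zero] at h1
  · norm_num at h1
  · intro R hR
    exact absurd (Finset.mem_filter.1 hR).2 (hne R (Finset.mem_filter.1 hR).1)

lemma mc_one (s : ℕ) (X : Finset α) (R : Finset α) (w : Finset α → ℝ)
    (h : Sys s X {R} w) : Good s X {R} := by
  classical
  have hRX : R = X := by
    apply Finset.Subset.antisymm (h.sub R (by simp))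
    intro x hx
    obtain ⟨R', hR', hx'⟩ := mc_exists s X _ w h x hx
    rw [Finset.mem_singleton] at hR'
    rwa [hR'] at hx'
  have hcR : R.card = s := h.card R (by simp)
  have hs := h.pos_s
  have hcX : X.card = s := by rw [← hRX]; exact hcR
  obtain ⟨a, ha⟩ : R.Nonempty := by
    rw [← Finset.card_pos, hcR]; exact hs
  have hind : ind R ≠ 0 := by
    intro h0
    have := congrFun h0 a
    simp [ind, ha] at this
  have hrk : 1 ≤ rk ({R} : Finset (Finset α)) := by
    unfold rk
    rw [Nat.one_le_iff_ne_zero]
    intro h0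
    rw [Submodule.finrank_eq_zero] at h0
    have h1 := mc_mem_V ({R} : Finset (Finset α)) R (by simp)
    rw [h0, Submodule.mem_bot] at h1
    exact hind h1
  refine ⟨?_, ?_⟩
  · rw [hcX]
    nlinarith
  · rintro ⟨u, hu, hu0, ⟨b, hb⟩, hcard⟩
    exfalso
    have hu' : u ∈ Submodule.span ℝ {ind R} := by
      have : (ind '' (({R} : Finset (Finset α)) : Set (Finset α))) = {ind R} := by
        simp
      unfold V at hu
      rwa [this] at hu
    obtain ⟨c, hc⟩ := Submodule.mem_span_singleton.1 hu'
    have hc0 : c ≠ 0 := by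
      rintro rfl
      apply hb
      rw [← hc]; simp
    have hsub : R ⊆ univ.filter (fun a => u a ≠ 0) := by
      intro x hx
      rw [Finset.mem_filter]
      refine ⟨Finset.mem_univ _, ?_⟩
      rw [← hc]
      simp [ind, hx, hc0]
    have := Finset.card_le_card hsub
    omega

lemma mc_rk_ge (F : Finset (Finset α))
    (h : ¬ ∃ z : Finset α → ℝ, (∃ R ∈ F, z R ≠ 0) ∧ ∑ R ∈ F, z R • ind R = 0) :
    F.card ≤ rk F := by
  classical
  push Not at h
  have hli : LinearIndependent ℝ (fun R : {R // R ∈ F} => (⟨ind R.1, mc_mem_V F R.1 R.2⟩ : V F)) := by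
    rw [Fintype.linearIndependent_iff]
    intro g hg R
    by_contra hne
    have h1 : ∑ R' ∈ F, (if h : R' ∈ F then g ⟨R', h⟩ else 0) • ind R' = 0 := by
      rw [← Finset.sum_attach]
      have h2 := congrArg (Submodule.subtype (V F)) hg
      rw [map_sum, map_zero] at h2
      rw [← h2, Finset.univ_eq_attach]
      apply Finset.sum_congr rfl
      intro x _
      simp
    refine h _ ⟨R.1, R.2, ?_⟩ h1
    simp only [R.2, dite_true]
    exact hne
  have := hli.fintype_card_le_finrank
  rw [Fintype.card_coe] at this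
  exact this

lemma mc_inside_sys (s : ℕ) (X : Finset α) (S P : Finset (Finset α)) (w : Finset α → ℝ)
    (h : Sys s X S w) (hP : IsComp X S P) (Y : Finset α) (hY : Y ∈ P) :
    Sys s Y (inside S Y) w := by
  refine ⟨h.pos_s, ?_, ?_, ?_, ?_⟩
  · intro R hR
    exact (Finset.mem_filter.1 hR).2
  · intro R hR
    exact h.card R (Finset.mem_filter.1 hR).1
  · intro R hR
    exact h.pos R (Finset.mem_filter.1 hR).1
  · intro x hx
    rw [← h.sum x (hP.sub Y hY hx)]
    apply Finset.sum_congr _ (fun _ _ => rfl)
    ext R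
    simp only [inside, Finset.mem_filter]
    constructor
    · rintro ⟨⟨h1, _⟩, h3⟩
      exact ⟨h1, h3⟩
    · rintro ⟨h1, h3⟩
      refine ⟨⟨h1, ?_⟩, h3⟩
      rcases hP.closed Y hY R h1 with h4 | h4
      · exact h4
      · exact absurd hx (Finset.disjoint_left.1 h4 h3)

lemma mc_card_sum (X : Finset α) (S P : Finset (Finset α)) (hP : IsComp X S P) :
    X.card = ∑ Y ∈ P, Y.card := by
  classical
  have h1 : X = P.biUnion id := by
    ext x
    rw [Finset.mem_biUnion]
    constructor
    · intro hx
      obtain ⟨Y, hY, hx'⟩ := hP.cover x hx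
      exact ⟨Y, hY, hx'⟩
    · rintro ⟨Y, hY, hx'⟩
      exact hP.sub Y hY hx'
  rw [h1, Finset.card_biUnion]
  · rfl
  · intro Y hY Y' hY' hne
    exact hP.disj Y hY Y' hY' hne

end

theorem p_MC (hCL : T_CL) (hEXC : T_EXC) (hDIM : T_DIM) (hCOMP : T_COMP) (hSUM : T_SUM)
    (hN1 : T_N1) (hB : T_B) : T_MC := by
  intro α _ _ s X F w hsys hconn
  classical
  induction hn : F.card using Nat.strong_induction_on generalizing X F w with
  | _ n ih =>
  rcases Nat.lt_or_ge F.card 2 with hlt | hge
  · rcases Nat.eq_zero_or_pos F.card with h0 | h0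
    · have hF : F = ∅ := Finset.card_eq_zero.1 h0
      subst hF
      have hX := mc_empty s X w hsys
      subst hX
      exact ⟨by simp, fun _ => by simp⟩
    · have h1 : F.card = 1 := by omega
      obtain ⟨R, hR⟩ := Finset.card_eq_one.1 h1
      subst hR
      exact mc_one s X R w hsys
  · by_cases hdep : ∃ z : Finset α → ℝ, (∃ R ∈ F, z R ≠ 0) ∧ ∑ R ∈ F, z R • ind R = 0
    swap
    · have h1 := mc_rk_ge F hdep
      have h2 := hCL α s X F w hsys hconn hge
      have h3 : s * F.card ≤ s * rk F := Nat.mul_le_mul_left _ h1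
      refine ⟨?_, fun _ => h2.trans h3⟩
      refine (h2.trans h3).trans (Nat.mul_le_mul_left _ (Nat.le_succ _))
    · obtain ⟨S, w', hSF, hne, hsysS, hone⟩ := hEXC α s X F w hsys hdep
      obtain ⟨P, hP⟩ := hCOMP α s X S w' hsysS
      have hgood : ∀ Y ∈ P, Good s Y (inside S Y) := by
        intro Y hY
        have hlt' : (inside S Y).card < n := by
          rw [← hn]
          refine lt_of_le_of_lt (Finset.card_le_card (Finset.filter_subset _ _)) ?_
          exact Finset.card_lt_card (Finset.ssubset_iff_subset_ne.2 ⟨hSF, hne⟩)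
        exact ih _ hlt' Y (inside S Y) w' (mc_inside_sys s X S P w' hsysS hP Y hY)
          (hP.conn Y hY) rfl
      have hdim := hDIM α F S hSF hne hone
      have hsum := hSUM α X S P hP
      obtain ⟨hN_sum, hN_pos, hN_ge, hN_card⟩ := hN1 α s X F S P w w' hsys hconn hSF hne hsysS hP
      have hs := hsys.pos_s
      set c₀ := (F \ S).card with hc₀
      have hc₀pos : 1 ≤ c₀ := by
        rw [hc₀, Nat.one_le_iff_ne_zero, ne_eq, Finset.card_eq_zero, Finset.sdiff_eq_empty_iff_subset]
        intro h
        exact hne (Finset.Subset.antisymm hSF h)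
      set Q := P.filter (fun Y => ¬ Small s (inside S Y)) with hQ
      have hQP : Q ⊆ P := Finset.filter_subset _ _
      have hQn : Q.card ≤ c₀ := hN_card Q hQP (fun Y hY => (Finset.mem_filter.1 hY).2)
      have hX : 2 * X.card ≤ s * rk S + s * Q.card := by
        rw [mc_card_sum X S P hP, Finset.mul_sum]
        have h1 : ∀ Y ∈ P, 2 * Y.card ≤ s * rk (inside S Y) + (if Y ∈ Q then s else 0) := by
          intro Y hY
          by_cases hYQ : Y ∈ Q
          · rw [if_pos hYQ]
            have := (hgood Y hY).1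
            rw [Nat.mul_add, Nat.mul_one] at this
            exact this
          · rw [if_neg hYQ]
            have h2 : Small s (inside S Y) := by
              by_contra h3
              exact hYQ (Finset.mem_filter.2 ⟨hY, h3⟩)
            exact (hgood Y hY).2 h2
        refine (Finset.sum_le_sum h1).trans ?_
        rw [Finset.sum_add_distrib, ← Finset.mul_sum, ← Finset.sum_filter]
        have h4 : P.filter (fun Y => Y ∈ Q) = Q := by
          ext Y
          rw [Finset.mem_filter]
          exact ⟨fun h => h.2, fun h => ⟨hQP h, h⟩⟩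
        rw [h4, Finset.sum_const, smul_eq_mul, Nat.mul_comm Q.card s]
        exact Nat.add_le_add_right (Nat.mul_le_mul_left _ hsum) _
      have hX' : 2 * X.card ≤ s * (rk S + Q.card) := by
        rw [Nat.mul_add]; exact hX
      refine ⟨?_, ?_⟩
      · refine hX'.trans (Nat.mul_le_mul_left _ ?_)
        omega
      · intro hsmall
        rcases Nat.lt_or_ge Q.card c₀ with h1 | h1
        · refine hX'.trans (Nat.mul_le_mul_left _ ?_)
          omega
        · exfalso
          have hQc : Q.card = c₀ := le_antisymm hQn h1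
          -- all components are in `Q`
          have hsplit : ∑ Y ∈ Q, ∑ E ∈ F \ S, (E ∩ Y).card +
              ∑ Y ∈ P \ Q, ∑ E ∈ F \ S, (E ∩ Y).card = s * c₀ := by
            rw [← hN_sum, add_comm, Finset.sum_sdiff hQP]
          have hQge : s * c₀ ≤ ∑ Y ∈ Q, ∑ E ∈ F \ S, (E ∩ Y).card := by
            rw [← hQc, Nat.mul_comm, ← smul_eq_mul, ← Finset.sum_const]
            apply Finset.sum_le_sum
            intro Y hY
            exact hN_ge Y (hQP hY) (Finset.mem_filter.1 hY).2
          have hzero : ∑ Y ∈ P \ Q, ∑ E ∈ F \ S, (E ∩ Y).card = 0 := by omega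
          have hPQ : P = Q := by
            apply Finset.Subset.antisymm _ hQP
            intro Y hY
            by_contra hYQ
            have h2 := (Finset.sum_eq_zero_iff.1 hzero) Y (Finset.mem_sdiff.2 ⟨hY, hYQ⟩)
            have h3 := hN_pos Y hY
            omega
          have hnot : ∀ Y ∈ P, ¬ Small s (inside S Y) := by
            intro Y hY
            rw [hPQ] at hY
            exact (Finset.mem_filter.1 hY).2
          have hge' : ∀ Y ∈ P, s ≤ ∑ E ∈ F \ S, (E ∩ Y).card := fun Y hY =>
            hN_ge Y hY (hnot Y hY)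
          have hPc : P.card = c₀ := by rw [hPQ]; exact hQc
          have heq : ∀ Y ∈ P, s = ∑ E ∈ F \ S, (E ∩ Y).card := by
            apply (Finset.sum_eq_sum_iff_of_le hge').1
            rw [Finset.sum_const, smul_eq_mul, hPc, hN_sum, Nat.mul_comm]
          exact hB α s X F S P w w' hsys hconn hSF hne hsysS hP hPc hnot
            (fun Y hY => (heq Y hY).symm) hsmall

end Pool.Agent.EQB
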