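import Pool.Agent.EQB.Targets

set_option autoImplicit false

namespace Pool.Agent.EQB

open Finset

namespace n1_

variable {α : Type} [Fintype α] [DecidableEq α]

omit [Fintype α] in
theorem part {X : Finset α} {S P : Finset (Finset α)} (hP : IsComp X S P) {E : Finset α}
    (hE : E ⊆ X) : ∑ Y ∈ P, (E ∩ Y).card = E.card := by
  rw [← card_biUnion]
  · congr 1
    ext a
    rw [mem_biUnion]
    constructor
    · rintro ⟨Y, _, h⟩
      exact (mem_inter.1 h).1
    · intro ha
      obtain ⟨Y, hY, h⟩ := hP.cover a (hE ha)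
      exact ⟨Y, hY, mem_inter.2 ⟨ha, h⟩⟩
  · intro Y hY Y' hY' hne
    exact (hP.disj Y hY Y' hY' hne).mono inter_subset_right inter_subset_right

theorem total {s : ℕ} {X : Finset α} {F S P : Finset (Finset α)} {w : Finset α → ℝ}
    (hF : Sys s X F w) (hP : IsComp X S P) :
    ∑ Y ∈ P, ∑ E ∈ F \ S, (E ∩ Y).card = s * (F \ S).card := by
  rw [sum_comm]
  have h : ∀ E ∈ F \ S, ∑ Y ∈ P, (E ∩ Y).card = s := fun E hE => by
    have hEF := (mem_sdiff.1 hE).1
    rw [part hP (hF.sub E hEF), hF.card E hEF]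
  rw [sum_congr rfl h, sum_const, smul_eq_mul, mul_comm]

omit [Fintype α] in
theorem posi {s : ℕ} {X : Finset α} {F S P : Finset (Finset α)} {w : Finset α → ℝ}
    (hF : Sys s X F w) (hconn : Conn X F) (hS : S ⊆ F) (hne : S ≠ F) (hP : IsComp X S P)
    {Y : Finset α} (hY : Y ∈ P) : 0 < ∑ E ∈ F \ S, (E ∩ Y).card := by
  by_contra hcon
  have h0 : ∑ E ∈ F \ S, (E ∩ Y).card = 0 := by omega
  rw [sum_eq_zero_iff] at h0
  have hdis : ∀ E ∈ F \ S, Disjoint E Y := fun E hE => by
    rw [disjoint_iff_inter_eq_empty]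
    exact card_eq_zero.1 (h0 E hE)
  have hcl : Closed F Y := by
    intro R hR
    by_cases hRS : R ∈ S
    · exact hP.closed Y hY R hRS
    · exact Or.inr (hdis R (mem_sdiff.2 ⟨hR, hRS⟩))
  have hYX : Y = X := by
    rcases hconn Y (hP.sub Y hY) hcl with h | h
    · exact absurd h (hP.ne Y hY).ne_empty
    · exact h
  obtain ⟨E, hEF, hES⟩ : ∃ E ∈ F, E ∉ S := by
    by_contra hcon2
    push Not at hcon2
    exact hne (Subset.antisymm hS fun E hE => hcon2 E hE)
  have hd := hdis E (mem_sdiff.2 ⟨hEF, hES⟩)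
  have hEY : E ⊆ Y := hYX ▸ hF.sub E hEF
  have hE0 : E = ∅ := by
    rw [disjoint_iff_inter_eq_empty, inter_eq_left.2 hEY] at hd
    exact hd
  have := hF.card E hEF
  rw [hE0, card_empty] at this
  have := hF.pos_s
  omega

omit [Fintype α] in
theorem val (C : Finset (Finset α)) (w : Finset α → ℝ) (a : α) :
    (∑ E ∈ C, w E • ind E) a = ∑ E ∈ C, w E * (if a ∈ E then 1 else 0) := by
  rw [Finset.sum_apply]
  rfl

theorem big (hREL : T_REL) (hRES : T_RES) {s : ℕ} {X : Finset α} {F S P : Finset (Finset α)}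
    {w w' : Finset α → ℝ} (hF : Sys s X F w) (hconn : Conn X F) (hS : S ⊆ F) (hne : S ≠ F)
    (hS' : Sys s X S w') (hP : IsComp X S P) {Y : Finset α} (hY : Y ∈ P)
    (hsm : ¬ Small s (inside S Y)) : s ≤ ∑ E ∈ F \ S, (E ∩ Y).card := by
  classical
  have hu := hREL α s X F S w w' hF hS' hS
  have hu' := hRES α S Y _ (hP.closed Y hY) hu
  have hw : ∀ E ∈ F \ S, 0 < w E := fun E hE => hF.pos E (mem_sdiff.1 hE).1
  have hnn : ∀ a, 0 ≤ (∑ E ∈ F \ S, w E • ind E) a := fun a => by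
    rw [val]
    refine sum_nonneg fun E hE => mul_nonneg (hw E hE).le ?_
    split_ifs <;> norm_num
  by_contra hcon
  push Not at hcon
  refine hsm ⟨_, hu', fun a => ?_, ?_, lt_of_le_of_lt ?_ hcon⟩
  · split_ifs
    · exact hnn a
    · exact le_refl 0
  · have h1 := posi hF hconn hS hne hP hY
    obtain ⟨E, hE, hc⟩ : ∃ E ∈ F \ S, 0 < (E ∩ Y).card := by
      by_contra hcon2
      push Not at hcon2
      have : ∑ E ∈ F \ S, (E ∩ Y).card = 0 := sum_eq_zero fun E hE => by
        have := hcon2 E hE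
        omega
      omega
    obtain ⟨a, ha⟩ := card_pos.1 hc
    obtain ⟨haE, haY⟩ := mem_inter.1 ha
    refine ⟨a, ?_⟩
    rw [if_pos haY, val]
    refine (lt_of_lt_of_le (hw E hE) ?_).ne'
    have h2 : w E = w E * (if a ∈ E then 1 else 0) := by rw [if_pos haE, mul_one]
    rw [h2]
    refine single_le_sum (f := fun E => w E * (if a ∈ E then (1 : ℝ) else 0)) ?_ hE
    intro E' hE'
    refine mul_nonneg (hw E' hE').le ?_
    split_ifs <;> norm_num
  · refine le_trans (card_le_card ?_) (card_biUnion_le (s := F \ S) (t := fun E => E ∩ Y))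
    intro a ha
    have ha' := (mem_filter.1 ha).2
    by_cases haY : a ∈ Y
    · rw [if_pos haY, val] at ha'
      obtain ⟨E, hE, hne2⟩ := exists_ne_zero_of_sum_ne_zero ha'
      have haE : a ∈ E := by
        by_contra hcon3
        rw [if_neg hcon3, mul_zero] at hne2
        exact hne2 rfl
      exact mem_biUnion.2 ⟨E, hE, mem_inter.2 ⟨haE, haY⟩⟩
    · rw [if_neg haY] at ha'
      exact absurd rfl ha'

end n1_

open n1_ in
theorem p_N1 (hREL : T_REL) (hRES : T_RES) : T_N1 := by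
  intro α _ _ s X F S P w w' hF hconn hS hne hS' hP
  have h1 := total hF hP
  have h3 : ∀ Y ∈ P, ¬ Small s (inside S Y) → s ≤ ∑ E ∈ F \ S, (E ∩ Y).card :=
    fun Y hY hsm => big hREL hRES hF hconn hS hne hS' hP hY hsm
  refine ⟨h1, fun Y hY => posi hF hconn hS hne hP hY, h3, fun Q hQ hsm => ?_⟩
  have h4 : s * Q.card ≤ s * (F \ S).card := by
    rw [← h1]
    refine le_trans ?_ (sum_le_sum_of_subset hQ)
    rw [mul_comm, ← smul_eq_mul, ← sum_const]
    exact sum_le_sum fun Y hY => h3 Y (hQ hY) (hsm Y hY)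
  exact Nat.le_of_mul_le_mul_left h4 hF.pos_s

end Pool.Agent.EQB
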