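import Pool.Agent.EQB.Targets

set_option autoImplicit false

/-!
# EQB: proof of the target POW, powers of the pentagon (helper88)
-/

namespace Pool.Agent.EQB

open Finset

/-- the sets `A i` of the pentagon -/
def pow_A (i : Fin 5) : Finset (Fin 5) := {i, i + 1}

/-- the sets `B i` of the pentagon -/
def pow_B (i : Fin 5) : Finset (Fin 5) := {i + 2, i + 4}

theorem pow_cross : OneCross pow_A pow_B := by
  unfold OneCross pow_A pow_B
  decide

theorem pow_trans : Trans pow_A pow_B := by
  have h : ∀ c k : Fin 5, (pow_A k).map (Equiv.addRight c).toEmbedding = pow_A (k + c) ∧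
      (pow_B k).map (Equiv.addRight c).toEmbedding = pow_B (k + c) := by
    unfold pow_A pow_B
    decide
  intro i j
  refine ⟨Equiv.addRight (j - i), Equiv.addRight (j - i), ?_, fun k => h (j - i) k⟩
  simp

theorem pow_card (i : Fin 5) : (pow_A i).card = 2 ∧ (pow_B i).card = 2 := by
  unfold pow_A pow_B
  revert i
  decide

section Comp

variable {ι κ α β : Type} [DecidableEq ι] [DecidableEq α] [DecidableEq β]

/-- the composition of two families -/
def pow_comp (A : ι → Finset α) (A' : κ → Finset β) : ι × κ → Finset (α ⊕ (ι × β)) :=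
  fun p => (A p.1).disjSum ({p.1} ×ˢ A' p.2)

omit [DecidableEq ι] [DecidableEq α] [DecidableEq β] in
theorem pow_mem_inl (A : ι → Finset α) (A' : κ → Finset β) (p : ι × κ) (a : α) :
    (Sum.inl a : α ⊕ (ι × β)) ∈ pow_comp A A' p ↔ a ∈ A p.1 := by
  unfold pow_comp
  rw [Finset.inl_mem_disjSum]

omit [DecidableEq ι] [DecidableEq α] [DecidableEq β] in
theorem pow_mem_inr (A : ι → Finset α) (A' : κ → Finset β) (p : ι × κ) (b : ι × β) :
    (Sum.inr b : α ⊕ (ι × β)) ∈ pow_comp A A' p ↔ b.1 = p.1 ∧ b.2 ∈ A' p.2 := by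
  unfold pow_comp
  rw [Finset.inr_mem_disjSum, Finset.mem_product, Finset.mem_singleton]

omit [DecidableEq ι] [DecidableEq α] [DecidableEq β] in
theorem pow_comp_card (A : ι → Finset α) (A' : κ → Finset β) (p : ι × κ) :
    (pow_comp A A' p).card = (A p.1).card + (A' p.2).card := by
  unfold pow_comp
  rw [Finset.card_disjSum, Finset.card_product, Finset.card_singleton, one_mul]

theorem pow_inter (A B : ι → Finset α) (A' B' : κ → Finset β) (p r : ι × κ) :
    pow_comp A A' p ∩ pow_comp B B' r =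
      (A p.1 ∩ B r.1).disjSum (({p.1} ∩ {r.1}) ×ˢ (A' p.2 ∩ B' r.2)) := by
  ext x
  rcases x with a | b
  · rw [Finset.mem_inter, pow_mem_inl, pow_mem_inl, Finset.inl_mem_disjSum, Finset.mem_inter]
  · rw [Finset.mem_inter, pow_mem_inr, pow_mem_inr, Finset.inr_mem_disjSum, Finset.mem_product,
      Finset.mem_inter, Finset.mem_inter, Finset.mem_singleton, Finset.mem_singleton]
    tauto

theorem pow_comp_cross (A B : ι → Finset α) (A' B' : κ → Finset β) (h : OneCross A B)
    (h' : OneCross A' B') : OneCross (pow_comp A A') (pow_comp B B') := by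
  constructor
  · intro p
    rw [pow_inter, h.1, h'.1, Finset.product_empty]
    rfl
  · intro p r hpr
    rw [pow_inter, Finset.card_disjSum, Finset.card_product]
    by_cases h1 : p.1 = r.1
    · have h2 : p.2 ≠ r.2 := fun h2 => hpr (Prod.ext h1 h2)
      rw [h1, h.1, Finset.card_empty, h'.2 _ _ h2, Finset.inter_self, Finset.card_singleton]
    · have h3 : ({p.1} ∩ {r.1} : Finset ι) = ∅ := by
        rw [Finset.singleton_inter_of_notMem]
        rwa [Finset.mem_singleton]
      rw [h.2 _ _ h1, h3, Finset.card_empty, zero_mul, add_zero]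

theorem pow_comp_map (A : ι → Finset α) (A' : κ → Finset β) (π : Equiv.Perm ι)
    (π' : Equiv.Perm κ) (φ : Equiv.Perm α) (φ' : Equiv.Perm β)
    (h : ∀ k, (A k).map φ.toEmbedding = A (π k))
    (h' : ∀ k, (A' k).map φ'.toEmbedding = A' (π' k)) (p : ι × κ) :
    (pow_comp A A' p).map (Equiv.sumCongr φ (Equiv.prodCongr π φ')).toEmbedding =
      pow_comp A A' (Equiv.prodCongr π π' p) := by
  ext x
  rw [Finset.mem_map_equiv]
  rcases x with a | b
  · have e1 : (Equiv.sumCongr φ (Equiv.prodCongr π φ')).symm (Sum.inl a) = Sum.inl (φ.symm a) := rfl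
    rw [e1, pow_mem_inl, pow_mem_inl]
    have e2 : (Equiv.prodCongr π π' p).1 = π p.1 := rfl
    rw [e2, ← h, Finset.mem_map_equiv]
  · have e1 : (Equiv.sumCongr φ (Equiv.prodCongr π φ')).symm (Sum.inr b) =
        Sum.inr (π.symm b.1, φ'.symm b.2) := rfl
    rw [e1, pow_mem_inr, pow_mem_inr]
    have e2 : (Equiv.prodCongr π π' p).1 = π p.1 := rfl
    have e3 : (Equiv.prodCongr π π' p).2 = π' p.2 := rfl
    rw [e2, e3, ← h', Finset.mem_map_equiv]
    have e4 : π.symm b.1 = p.1 ↔ b.1 = π p.1 := Equiv.symm_apply_eq π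
    exact and_congr e4 Iff.rfl

theorem pow_comp_trans (A B : ι → Finset α) (A' B' : κ → Finset β) (h : Trans A B)
    (h' : Trans A' B') : Trans (pow_comp A A') (pow_comp B B') := by
  intro p r
  obtain ⟨π, φ, h1, h2⟩ := h p.1 r.1
  obtain ⟨π', φ', h1', h2'⟩ := h' p.2 r.2
  refine ⟨Equiv.prodCongr π π', Equiv.sumCongr φ (Equiv.prodCongr π φ'), ?_, fun k => ⟨?_, ?_⟩⟩
  · exact Prod.ext h1 h1'
  · exact pow_comp_map A A' π π' φ φ' (fun k => (h2 k).1) (fun k => (h2' k).1) k
  · exact pow_comp_map B B' π π' φ φ' (fun k => (h2 k).2) (fun k => (h2' k).2) k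

end Comp

theorem p_POW : T_POW := by
  intro k
  induction k with
  | zero =>
    refine ⟨Unit, Unit, inferInstance, inferInstance, fun _ => ∅, fun _ => ∅, ?_, ?_, ?_, ?_, ?_⟩
    · simp
    · exact ⟨fun _ => rfl, fun i j h => absurd (Subsingleton.elim i j) h⟩
    · intro i j
      exact ⟨Equiv.refl _, Equiv.refl _, Subsingleton.elim _ _, fun _ => ⟨rfl, rfl⟩⟩
    · intro i
      rfl
    · intro i
      rfl
  | succ k ih =>
    obtain ⟨κ, β, iκ, iβ, A', B', h1, h2, h3, h4, h5⟩ := ih
    refine ⟨Fin 5 × κ, Fin 5 ⊕ (Fin 5 × β), inferInstance, inferInstance,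
      pow_comp pow_A A', pow_comp pow_B B', ?_, pow_comp_cross _ _ _ _ pow_cross h2,
      pow_comp_trans _ _ _ _ pow_trans h3, ?_, ?_⟩
    · rw [Fintype.card_prod, h1, Fintype.card_fin, pow_succ, mul_comm]
    · intro p
      rw [pow_comp_card, (pow_card _).1, h4]
      ring
    · intro p
      rw [pow_comp_card, (pow_card _).2, h5]
      ring

end Pool.Agent.EQB
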