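import Pool.Agent.EQB.Targets

set_option autoImplicit false

namespace Pool.Agent.EQB

lemma prof_gg_nonneg (y : ℝ) : 0 ≤ gg y := le_max_left _ _

lemma prof_gg_zero : gg 0 = 0 := by
  unfold gg
  apply max_eq_left
  unfold cg cA
  have h1 : Real.log (5 / 3) ≤ Real.log 5 / 2 := by
    have h2 : Real.log ((5 / 3 : ℝ) ^ 2) ≤ Real.log 5 :=
      Real.log_le_log (by norm_num) (by norm_num)
    rw [Real.log_pow] at h2
    push_cast at h2
    linarith
  linarith

lemma prof_hd_le (l : List ℕ) : hd l ≤ l.sum := by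
  cases l with
  | nil => exact le_refl _
  | cons a l =>
    unfold hd
    rw [List.sum_cons]
    exact Nat.le_add_right _ _

lemma prof_hd_cons {q : ℕ} {l : List ℕ} (h : (q :: l).Pairwise (· ≥ ·)) : hd l ≤ q := by
  cases l with
  | nil => exact Nat.zero_le _
  | cons a l =>
    exact (List.pairwise_cons.1 h).1 a (List.mem_cons_self)

lemma prof_main (hSTEP : T_STEP) : ∀ l : List ℕ, l.Pairwise (· ≥ ·) →
    Real.log (1 + (l.sum : ℝ)) / 2 + gg ((hd l : ℝ) / (1 + (l.sum : ℝ))) ≤
      cA * l.length + FF l / 5 := by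
  intro l
  induction l with
  | nil =>
    intro _
    have h1 : ((hd ([] : List ℕ) : ℕ) : ℝ) / (1 + ((([] : List ℕ).sum : ℕ) : ℝ)) = 0 := by
      simp [hd]
    rw [h1, prof_gg_zero]
    simp [FF]
  | cons q l ih =>
    intro hp
    have hih := ih (List.pairwise_cons.1 hp).2
    have hhq := prof_hd_cons hp
    have hhs := prof_hd_le l
    set S : ℝ := 1 + (l.sum : ℝ) with hS
    have hS0 : 0 < S := by positivity
    have hhq' : (hd l : ℝ) ≤ (q : ℝ) := by exact_mod_cast hhq
    have hhs' : (hd l : ℝ) ≤ (l.sum : ℝ) := by exact_mod_cast hhs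
    have hy0 : 0 ≤ (hd l : ℝ) / S := by positivity
    have hy1 : (hd l : ℝ) / S < 1 := by
      rw [div_lt_one hS0]
      linarith
    have hyz : (hd l : ℝ) / S ≤ (q : ℝ) / S := div_le_div_of_nonneg_right hhq' hS0.le
    have h1 := hSTEP ((hd l : ℝ) / S) ((q : ℝ) / S) hy0 hy1 hyz
    have hsum : 1 + (((q :: l).sum : ℕ) : ℝ) = S + q := by
      rw [List.sum_cons, hS]
      push_cast
      ring
    have h2 : 1 + (q : ℝ) / S = (S + q) / S := by
      field_simp
    have hSq : 0 < S + (q : ℝ) := by positivity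
    have h3 : Real.log (1 + (q : ℝ) / S) = Real.log (S + q) - Real.log S := by
      rw [h2, Real.log_div hSq.ne' hS0.ne']
    have h4 : (q : ℝ) / S / (1 + (q : ℝ) / S) = (q : ℝ) / (S + q) := by
      rw [h2]
      field_simp
    have h5 : min ((q : ℝ) / S) (2 * ((q : ℝ) / S - (hd l : ℝ) / S)) =
        ((min q (2 * (q - hd l)) : ℕ) : ℝ) / S := by
      have h8 : 2 * ((q : ℝ) / S - (hd l : ℝ) / S) = ((2 * (q - hd l) : ℕ) : ℝ) / S := by
        rw [Nat.cast_mul, Nat.cast_sub hhq]
        push_cast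
        ring
      rw [h8, Nat.cast_min, min_div_div_right hS0.le]
    rw [h3, h4, h5] at h1
    have h6 : FF (q :: l) = FF l + ((min q (2 * (q - hd l)) : ℕ) : ℝ) / S := rfl
    have h7 : hd (q :: l) = q := rfl
    have h9 : (((q :: l).length : ℕ) : ℝ) = (l.length : ℝ) + 1 := by
      rw [List.length_cons]
      push_cast
      ring
    rw [hsum, h6, h7, h9]
    linarith

theorem p_PROF (hSTEP : T_STEP) : T_PROF := by
  intro l hl
  have h1 := prof_main hSTEP l hl
  have h2 := prof_gg_nonneg ((hd l : ℝ) / (1 + (l.sum : ℝ)))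
  linarith

end Pool.Agent.EQB
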