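import Pool.Agent.EQB.Targets

set_option autoImplicit false

namespace Pool.Agent.EQB

open Finset

theorem rel_val {α : Type} [Fintype α] [DecidableEq α] {s : ℕ} {X : Finset α}
    {F : Finset (Finset α)} {w : Finset α → ℝ} (h : Sys s X F w) (a : α) :
    ∑ R ∈ F, w R * ind R a = if a ∈ X then 1 else 0 := by
  have e : ∀ R ∈ F, w R * ind R a = if a ∈ R then w R else 0 := by
    intro R _
    unfold ind
    split_ifs <;> simp
  rw [sum_congr rfl e, ← sum_filter]
  split_ifs with ha
  · exact h.sum a ha
  · refine sum_eq_zero fun R hR => ?_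
    rw [mem_filter] at hR
    exact absurd (h.sub R hR.1 hR.2) ha

theorem p_REL : T_REL := by
  intro α _ _ s X F S w w' hF hS hSF
  have e : (∑ E ∈ F \ S, w E • ind E) = ∑ R ∈ S, (w' R - w R) • ind R := by
    funext a
    have h1 := rel_val hF a
    have h2 := rel_val hS a
    rw [← sum_sdiff hSF] at h1
    simp only [Finset.sum_apply, Pi.smul_apply, smul_eq_mul, sub_mul, sum_sub_distrib]
    linarith
  rw [e]
  exact Submodule.sum_mem _ fun R hR => Submodule.smul_mem _ _
    (Submodule.subset_span (Set.mem_image_of_mem _ (Finset.mem_coe.2 hR)))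

end Pool.Agent.EQB
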