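import Pool.Agent.EQB.Targets

set_option autoImplicit false

namespace Pool.Agent.EQB

open Finset

/-- restriction to a set, as a linear map -/
def res_map {α : Type} [DecidableEq α] (Y : Finset α) : (α → ℝ) →ₗ[ℝ] (α → ℝ) where
  toFun v := fun a => if a ∈ Y then v a else 0
  map_add' u v := by
    funext a
    by_cases h : a ∈ Y <;> simp [h]
  map_smul' c v := by
    funext a
    by_cases h : a ∈ Y <;> simp [h]

theorem p_RES : T_RES := by
  intro α _ _ F Y v hY hv
  have key : (V F).map (res_map Y) ≤ V (inside F Y) := by
    unfold V
    rw [Submodule.map_span_le]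
    rintro u ⟨R, hR, rfl⟩
    have hR' : R ∈ F := hR
    rcases hY R hR' with h | h
    · have hu : res_map Y (ind R) = ind R := by
        funext a
        show (if a ∈ Y then ind R a else 0) = ind R a
        by_cases ha : a ∈ Y
        · simp [ha]
        · have : a ∉ R := fun h' => ha (h h')
          simp [ha, ind, this]
      rw [hu]
      apply Submodule.subset_span
      refine ⟨R, ?_, rfl⟩
      show R ∈ inside F Y
      unfold inside
      rw [Finset.mem_filter]
      exact ⟨hR', h⟩
    · have hu : res_map Y (ind R) = 0 := by
        funext a
        show (if a ∈ Y then ind R a else 0) = 0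
        by_cases ha : a ∈ Y
        · have : a ∉ R := fun h' => (Finset.disjoint_left.1 h) h' ha
          simp [ind, this]
        · simp [ha]
      rw [hu]
      exact Submodule.zero_mem _
  exact key (Submodule.mem_map_of_mem hv)

end Pool.Agent.EQB
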