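import Pool.Agent.EQB.Targets

set_option autoImplicit false

namespace Pool.Agent.EQB

open Finset

section rk_sec

variable {ι : Type} [Fintype ι] [DecidableEq ι]

/-- the set of the ones in a row -/
noncomputable def rk_R (Z : Matrix ι ι ℝ) (i : ι) : Finset ι :=
  univ.filter (fun j => Z i j = 1)

/-- the family of the rows -/
noncomputable def rk_F (Z : Matrix ι ι ℝ) : Finset (Finset ι) := univ.image (rk_R Z)

/-- the weights -/
noncomputable def rk_w (Z : Matrix ι ι ℝ) (s : ℕ) (R : Finset ι) : ℝ :=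
  ((univ.filter (fun i => rk_R Z i = R)).card : ℝ) / s

omit [DecidableEq ι] in
theorem rk_ite {Z : Matrix ι ι ℝ} {s : ℕ} (h : Reg Z s) (i j : ι) :
    (if Z i j = 1 then (1 : ℝ) else 0) = Z i j := by
  rcases h.entry i j with h0 | h1
  · rw [h0]; simp
  · rw [h1]; simp

omit [DecidableEq ι] in
theorem rk_mem {Z : Matrix ι ι ℝ} (i j : ι) : j ∈ rk_R Z i ↔ Z i j = 1 := by
  simp [rk_R]

theorem rk_ind {Z : Matrix ι ι ℝ} {s : ℕ} (h : Reg Z s) (i : ι) : ind (rk_R Z i) = Z i := by
  funext j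
  have := rk_ite h i j
  simp only [ind, rk_mem]
  exact this

omit [DecidableEq ι] in
theorem rk_card {Z : Matrix ι ι ℝ} {s : ℕ} (h : Reg Z s) (i : ι) : (rk_R Z i).card = s := by
  have h1 : ((rk_R Z i).card : ℝ) = ∑ j, (if Z i j = 1 then (1 : ℝ) else 0) := by
    rw [rk_R, Finset.card_filter]
    push_cast
    rfl
  have h2 : ((rk_R Z i).card : ℝ) = s := by
    rw [h1, ← h.row i]
    exact Finset.sum_congr rfl (fun j _ => rk_ite h i j)
  exact_mod_cast h2

theorem rk_col {Z : Matrix ι ι ℝ} {s : ℕ} (h : Reg Z s) (j : ι) :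
    ((univ.filter (fun i => j ∈ rk_R Z i)).card : ℝ) = s := by
  rw [Finset.card_filter]
  push_cast
  rw [← h.col j]
  refine Finset.sum_congr rfl (fun i _ => ?_)
  have := rk_ite h i j
  simp only [rk_mem]
  exact this

theorem rk_pos {Z : Matrix ι ι ℝ} {s : ℕ} (h : Reg Z s) (i : ι) : 0 < s := by
  rw [← rk_card h i]
  exact Finset.card_pos.2 ⟨i, (rk_mem i i).2 (h.diag i)⟩

theorem rk_sys {Z : Matrix ι ι ℝ} {s : ℕ} (h : Reg Z s) (i₀ : ι) :
    Sys s univ (rk_F Z) (rk_w Z s) := by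
  have hs := rk_pos h i₀
  have hs' : (s : ℝ) ≠ 0 := by exact_mod_cast hs.ne'
  refine ⟨hs, fun R _ => Finset.subset_univ R, ?_, ?_, ?_⟩
  · intro R hR
    obtain ⟨i, -, rfl⟩ := Finset.mem_image.1 hR
    exact rk_card h i
  · intro R hR
    obtain ⟨i, -, rfl⟩ := Finset.mem_image.1 hR
    apply div_pos
    · exact_mod_cast Finset.card_pos.2 ⟨i, by simp⟩
    · exact_mod_cast hs
  · intro x _
    have h1 : (univ.filter (fun i => x ∈ rk_R Z i)).card =
        ∑ R ∈ rk_F Z with x ∈ R, (univ.filter (fun i => rk_R Z i = R)).card := by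
      rw [Finset.card_eq_sum_card_fiberwise (f := rk_R Z)
        (t := (rk_F Z).filter (fun R => x ∈ R))]
      · refine Finset.sum_congr rfl (fun R hR => ?_)
        congr 1
        ext i
        simp only [Finset.mem_filter, Finset.mem_univ, true_and]
        constructor
        · rintro ⟨-, h2⟩; exact h2
        · rintro h2
          refine ⟨?_, h2⟩
          rw [h2]; exact (Finset.mem_filter.1 hR).2
      · intro i hi
        simp only [Finset.coe_filter, Finset.mem_univ, true_and, Set.mem_ofPred_eq] at hi ⊢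
        exact ⟨Finset.mem_image_of_mem _ (Finset.mem_univ i), hi⟩
    have h2 := rk_col h x
    rw [h1] at h2
    push_cast at h2
    simp only [rk_w]
    rw [← Finset.sum_div, h2]
    exact div_self hs'

theorem rk_rank {Z : Matrix ι ι ℝ} {s : ℕ} (h : Reg Z s) : rk (rk_F Z) = Z.rank := by
  rw [Matrix.rank_eq_finrank_span_row]
  unfold rk V
  have : ind '' ((rk_F Z : Finset (Finset ι)) : Set (Finset ι)) = Set.range Z.row := by
    ext f
    constructor
    · rintro ⟨R, hR, rfl⟩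
      obtain ⟨i, -, rfl⟩ := Finset.mem_image.1 (Finset.mem_coe.1 hR)
      exact ⟨i, (rk_ind h i).symm⟩
    · rintro ⟨i, rfl⟩
      exact ⟨rk_R Z i, Finset.mem_coe.2 (Finset.mem_image_of_mem _ (Finset.mem_univ i)),
        rk_ind h i⟩
  rw [this]

theorem rk_inside {s : ℕ} {F : Finset (Finset ι)} {w : Finset ι → ℝ} (hS : Sys s univ F w)
    {Y : Finset ι} (hY : Closed F Y) : Sys s Y (inside F Y) w := by
  refine ⟨hS.pos_s, ?_, ?_, ?_, ?_⟩
  · intro R hR; exact (Finset.mem_filter.1 hR).2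
  · intro R hR; exact hS.card R (Finset.mem_filter.1 hR).1
  · intro R hR; exact hS.pos R (Finset.mem_filter.1 hR).1
  · intro x hx
    rw [← hS.sum x (Finset.mem_univ x)]
    apply Finset.sum_congr _ (fun _ _ => rfl)
    ext R
    simp only [Finset.mem_filter, inside]
    constructor
    · rintro ⟨⟨h1, -⟩, h2⟩; exact ⟨h1, h2⟩
    · rintro ⟨h1, h2⟩
      refine ⟨⟨h1, ?_⟩, h2⟩
      rcases hY R h1 with h3 | h3
      · exact h3
      · exact absurd hx (Finset.disjoint_left.1 h3 h2)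

theorem rk_indep {Z : Matrix ι ι ℝ} {P : Finset (Finset ι)} (hP : IsComp univ (rk_F Z) P)
    (hd : ∀ i, Z i i = 1) : P.card ≤ Module.finrank ℝ (D Z) := by
  have hmem : ∀ Y ∈ P, ind Y ∈ D Z := by
    intro Y hY i j hij
    show ind Y i = ind Y j
    have hi : i ∈ rk_R Z i := (rk_mem i i).2 (hd i)
    have hj : j ∈ rk_R Z i := (rk_mem i j).2 hij
    simp only [ind]
    rcases hP.closed Y hY (rk_R Z i) (Finset.mem_image_of_mem _ (Finset.mem_univ i)) with h | h
    · rw [if_pos (h hi), if_pos (h hj)]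
    · rw [if_neg (Finset.disjoint_left.1 h hi), if_neg (Finset.disjoint_left.1 h hj)]
  have hli : LinearIndependent ℝ
      (fun Y : {Y // Y ∈ P} => (⟨ind Y.1, hmem Y.1 Y.2⟩ : D Z)) := by
    rw [Fintype.linearIndependent_iff]
    intro g hg Y
    obtain ⟨a, ha⟩ := hP.ne Y.1 Y.2
    have h1 := congrArg (fun f : D Z => (f : ι → ℝ) a) hg
    simp only [Submodule.coe_sum, Submodule.coe_smul, Finset.sum_apply, Pi.smul_apply,
      smul_eq_mul, Submodule.coe_zero, Pi.zero_apply] at h1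
    rw [Finset.sum_eq_single Y] at h1
    · simpa [ind, ha] using h1
    · intro Y' _ hne
      have : Disjoint Y'.1 Y.1 := hP.disj Y'.1 Y'.2 Y.1 Y.2 (fun h => hne (Subtype.ext h))
      have h2 : a ∉ Y'.1 := Finset.disjoint_right.1 this ha
      simp [ind, h2]
    · intro h; exact absurd (Finset.mem_univ Y) h
  have := hli.fintype_card_le_finrank
  simpa using this

end rk_sec

theorem p_RK (hMC : T_MC) (hCOMP : T_COMP) (hSUM : T_SUM) : T_RK := by
  intro ι _ _ Z s h
  rcases isEmpty_or_nonempty ι with he | ⟨⟨i₀⟩⟩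
  · simp
  have hS := rk_sys h i₀
  obtain ⟨P, hP⟩ := hCOMP ι s univ (rk_F Z) (rk_w Z s) hS
  have h1 : ∀ Y ∈ P, 2 * Y.card ≤ s * (rk (inside (rk_F Z) Y) + 1) := fun Y hY =>
    (hMC ι s Y (inside (rk_F Z) Y) (rk_w Z s) (rk_inside hS (hP.closed Y hY)) (hP.conn Y hY)).1
  have h2 : ∑ Y ∈ P, Y.card = Fintype.card ι := by
    have h3 : P.biUnion id = univ := by
      ext x
      simp only [Finset.mem_biUnion, id, Finset.mem_univ, iff_true]
      exact hP.cover x (Finset.mem_univ x)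
    rw [← Finset.card_univ, ← h3, Finset.card_biUnion]
    · rfl
    · intro Y hY Y' hY' hne
      exact hP.disj Y hY Y' hY' hne
  have h4 := hSUM ι univ (rk_F Z) P hP
  have h5 := rk_indep hP h.diag
  have h6 := rk_rank h
  calc 2 * Fintype.card ι = ∑ Y ∈ P, 2 * Y.card := by rw [← h2, Finset.mul_sum]
    _ ≤ ∑ Y ∈ P, s * (rk (inside (rk_F Z) Y) + 1) := Finset.sum_le_sum h1
    _ = s * (∑ Y ∈ P, rk (inside (rk_F Z) Y) + P.card) := by
        rw [← Finset.mul_sum, Finset.sum_add_distrib]; simp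
    _ ≤ s * (Z.rank + Module.finrank ℝ (D Z)) := by
        apply Nat.mul_le_mul_left
        omega

end Pool.Agent.EQB
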