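import Pool.Agent.EQB.Targets

set_option autoImplicit false

namespace Pool.Agent.EQB

open Finset

section

variable {ι α : Type} [Fintype ι] [DecidableEq ι] [DecidableEq α]

lemma side_deg_le (A : ι → Finset α) (x : α) : deg A x ≤ Fintype.card ι := by
  unfold deg
  exact (Finset.card_le_card (Finset.filter_subset _ _)).trans (by rw [Finset.card_univ])

lemma side_deg_pos (A : ι → Finset α) (x : α) (j : ι) (h : x ∈ A j) : 1 ≤ deg A x := by
  unfold deg
  exact Finset.card_pos.2 ⟨j, Finset.mem_filter.2 ⟨Finset.mem_univ _, h⟩⟩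

lemma side_exists (A : ι → Finset α) (x : α) (h : 1 ≤ deg A x) : ∃ j, x ∈ A j := by
  unfold deg at h
  obtain ⟨j, hj⟩ := Finset.card_pos.1 h
  exact ⟨j, (Finset.mem_filter.1 hj).2⟩

lemma side_sum_cast (A B : ι → Finset α) (i j : ι) (t : ℕ) :
    (∑ x ∈ A i, if x ∈ B j ∧ deg B x < t then (1 : ℝ) else 0) =
      (((A i ∩ B j).filter (fun x => deg B x < t)).card : ℝ) := by
  rw [← Finset.sum_filter, Finset.sum_const, nsmul_eq_mul, mul_one]
  congr 2
  ext x
  simp only [Finset.mem_filter, Finset.mem_inter]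
  tauto

lemma side_allone (A B : ι → Finset α) (h : OneCross A B) (t : ℕ) (ht : Fintype.card ι < t)
    (i j : ι) : ZZ A B t i j = 1 := by
  unfold ZZ
  rw [side_sum_cast]
  have h1 : (A i ∩ B j).filter (fun x => deg B x < t) = A i ∩ B j := by
    apply Finset.filter_true_of_mem
    intro x _
    exact lt_of_le_of_lt (side_deg_le B x) ht
  rw [h1]
  by_cases hij : i = j
  · subst hij
    rw [h.1 i]
    simp
  · rw [h.2 i j hij, if_neg hij]
    simp

lemma side_diff (A B : ι → Finset α) (t t' : ℕ) (htt : t ≤ t') (i j : ι) :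
    (ZZ A B t' - ZZ A B t) i j =
      ∑ x ∈ ((univ.biUnion A).filter (fun x => 1 ≤ deg B x)).filter
        (fun x => t ≤ deg B x ∧ deg B x < t'),
        (if x ∈ A i then (1 : ℝ) else 0) * (if x ∈ B j then (1 : ℝ) else 0) := by
  have h1 : (ZZ A B t' - ZZ A B t) i j =
      ∑ x ∈ A i, ((if x ∈ B j ∧ deg B x < t' then (1 : ℝ) else 0) -
        (if x ∈ B j ∧ deg B x < t then (1 : ℝ) else 0)) := by
    rw [Finset.sum_sub_distrib]
    simp only [Matrix.sub_apply, ZZ]
    ring
  rw [h1]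
  have h2 : ∀ x, ((if x ∈ B j ∧ deg B x < t' then (1 : ℝ) else 0) -
        (if x ∈ B j ∧ deg B x < t then (1 : ℝ) else 0)) =
        if x ∈ B j ∧ t ≤ deg B x ∧ deg B x < t' then 1 else 0 := by
    intro x
    by_cases hx : x ∈ B j
    · by_cases h3 : deg B x < t
      · have h4 : deg B x < t' := lt_of_lt_of_le h3 htt
        have h5 : ¬ t ≤ deg B x := by omega
        simp [hx, h3, h4]
      · by_cases h4 : deg B x < t'
        · have h5 : t ≤ deg B x := by omega
          simp [hx, h3, h4, h5]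
        · simp [h3, h4]
    · simp [hx]
  rw [Finset.sum_congr rfl (fun x _ => h2 x)]
  rw [← Finset.sum_filter]
  have h3 : ∀ x, (if x ∈ A i then (1 : ℝ) else 0) * (if x ∈ B j then (1 : ℝ) else 0) =
      if x ∈ A i ∧ x ∈ B j then 1 else 0 := by
    intro x
    by_cases hx : x ∈ A i <;> by_cases hx' : x ∈ B j <;> simp [hx, hx']
  rw [Finset.sum_congr rfl (fun x _ => h3 x), ← Finset.sum_filter]
  apply Finset.sum_congr _ (fun _ _ => rfl)
  ext x
  simp only [Finset.mem_filter, Finset.mem_biUnion, Finset.mem_univ, true_and]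
  constructor
  · rintro ⟨h4, h5, h6, h7⟩
    exact ⟨⟨⟨⟨i, h4⟩, side_deg_pos B x j h5⟩, h6, h7⟩, h4, h5⟩
  · rintro ⟨⟨_, h6, h7⟩, h4, h5⟩
    exact ⟨h4, h5, h6, h7⟩

lemma side_row_diff (A B : ι → Finset α) (t t' : ℕ) (htt : t ≤ t') (i : ι) (x : α)
    (hx : x ∈ A i) (h1 : t ≤ deg B x) (h2 : deg B x < t') (h0 : 1 ≤ deg B x) :
    ∑ j, ZZ A B t i j < ∑ j, ZZ A B t' i j := by
  obtain ⟨j₀, hj₀⟩ := side_exists B x h0
  have hmono : ∀ j, ZZ A B t i j ≤ ZZ A B t' i j := by
    intro j
    unfold ZZ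
    gcongr with y hy
    by_cases h3 : y ∈ B j ∧ deg B y < t
    · have h4 : y ∈ B j ∧ deg B y < t' := ⟨h3.1, lt_of_lt_of_le h3.2 htt⟩
      rw [if_pos h3, if_pos h4]
    · rw [if_neg h3]
      split_ifs <;> norm_num
  apply Finset.sum_lt_sum (fun j _ => hmono j)
  refine ⟨j₀, Finset.mem_univ _, ?_⟩
  unfold ZZ
  rw [side_sum_cast, side_sum_cast]
  have h5 : ((A i ∩ B j₀).filter (fun x => deg B x < t)).card <
      ((A i ∩ B j₀).filter (fun x => deg B x < t')).card := by
    apply Finset.card_lt_card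
    rw [Finset.ssubset_iff_of_subset]
    · refine ⟨x, ?_, ?_⟩
      · exact Finset.mem_filter.2 ⟨Finset.mem_inter.2 ⟨hx, hj₀⟩, h2⟩
      · intro h6
        have := (Finset.mem_filter.1 h6).2
        omega
    · intro y hy
      rw [Finset.mem_filter] at hy ⊢
      exact ⟨hy.1, lt_of_lt_of_le hy.2 htt⟩
  have h6 : (((A i ∩ B j₀).filter (fun x => deg B x < t)).card : ℝ) <
      (((A i ∩ B j₀).filter (fun x => deg B x < t')).card : ℝ) := by exact_mod_cast h5
  linarith

lemma side_mem_prof (s : Finset α) (f : α → ℕ) (k : ℕ) : k ∈ prof s f ↔ ∃ x ∈ s, f x = k := by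
  unfold prof
  rw [Multiset.mem_sort, Multiset.mem_map]
  rfl

/-- number of elements of `A i` with given degree -/
lemma side_count (A B : ι → Finset α) (hq : QEq A B) (k : ℕ) (hk : 1 ≤ k) (i i' : ι)
    (h : ∃ x ∈ A i, deg B x = k) : ∃ x ∈ A i', deg B x = k := by
  by_contra hne
  push Not at hne
  obtain ⟨x, hx, hxk⟩ := h
  have h1 := hq.1 k i i'
  have h2 := hq.1 (k + 1) i i'
  have h3 : ∑ y ∈ A i' with deg B y < k + 1, deg B y = ∑ y ∈ A i' with deg B y < k, deg B y := by
    apply Finset.sum_congr _ (fun _ _ => rfl)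
    apply Finset.filter_congr
    intro y hy
    have := hne y hy
    omega
  have h4 : ∑ y ∈ A i with deg B y < k, deg B y < ∑ y ∈ A i with deg B y < k + 1, deg B y := by
    apply Finset.sum_lt_sum_of_subset (i := x)
    · intro y hy
      rw [Finset.mem_filter] at hy ⊢
      exact ⟨hy.1, by omega⟩
    · exact Finset.mem_filter.2 ⟨hx, by omega⟩
    · intro h5
      have := (Finset.mem_filter.1 h5).2
      omega
    · omega
    · intro y _ _
      exact Nat.zero_le _
  omega

end

theorem p_SIDE (hRK : T_RK) (hWIN : T_WIN) (hDR : T_DR) (hLAB : T_LAB) (hTEL : T_TEL)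
    (hTHR : T_THR) (hZREG : T_ZREG) : T_SIDE := by
  intro ι α _ _ _ A B h hq b hb i₀
  classical
  set m := Fintype.card ι with hm
  have hmpos : 0 < m := Fintype.card_pos_iff.2 ⟨i₀⟩
  set l := prof (A i₀) (deg B) with hl
  set Ω := (univ.biUnion A).filter (fun x => 1 ≤ deg B x) with hΩ
  have hreg : ∀ t, Reg (ZZ A B t) (den l t) := fun t => hZREG ι α A B h hq t i₀
  have hden : ∀ t, 1 ≤ den l t := fun t => by unfold den; omega
  set ρ : ℕ → ℝ := fun t => ((ZZ A B t).rank : ℝ) with hρ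
  set c : ℕ → ℝ := fun t => (Module.finrank ℝ (D (ZZ A B t)) : ℝ) with hc
  have hchi : ∀ t, 0 ≤ ρ t - c t := by
    intro t
    have := hDR ι (ZZ A B t) (den l t) (hreg t)
    simp only [hρ, hc]
    rw [sub_nonneg]
    exact_mod_cast this
  have hc0 : ∀ t, 0 ≤ c t := fun t => by simp only [hc]; positivity
  have hchi0 : ∀ t, m < t → ρ t - c t = 0 := by
    intro t ht
    have hJ : ∀ i j, ZZ A B t i j = 1 := fun i j => side_allone A B h t ht i j
    have h1 : (ZZ A B t).rank ≤ 1 := by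
      have := hLAB ι Unit {()} (fun _ _ => 1) (fun _ _ => 1) (ZZ A B t)
        (fun i j => by rw [hJ]; simp)
      simpa using this
    have h2 : 1 ≤ Module.finrank ℝ (D (ZZ A B t)) := by
      rw [Nat.one_le_iff_ne_zero]
      intro h0
      rw [Submodule.finrank_eq_zero] at h0
      have h3 : (fun _ => 1 : ι → ℝ) ∈ D (ZZ A B t) := fun i j _ => rfl
      rw [h0, Submodule.mem_bot] at h3
      have := congrFun h3 i₀
      simp at this
    have h3 := hchi t
    have h4 : (ρ t : ℝ) ≤ 1 := by simp only [hρ]; exact_mod_cast h1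
    have h5 : (1 : ℝ) ≤ c t := by simp only [hc]; exact_mod_cast h2
    linarith
  have hkap : ∀ t, 1 ≤ t → 2 * ((m : ℝ) / (den l t : ℝ)) ≤ (ρ t - c t) + 2 * c t := by
    intro t _
    have h1 := hRK ι (ZZ A B t) (den l t) (hreg t)
    have hd : (0 : ℝ) < (den l t : ℝ) := by exact_mod_cast hden t
    have h2 : (2 : ℝ) * m ≤ (den l t : ℝ) * (ρ t + c t) := by
      simp only [hρ, hc]
      exact_mod_cast h1
    rw [← mul_div_assoc, div_le_iff₀ hd]
    nlinarith
  have hwin1 : ∀ t t', 1 ≤ t → t < t' → (∃ x ∈ Ω, t ≤ deg B x ∧ deg B x < t') →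
      (ρ t - c t) + c t ≤ (ρ t' - c t') +
        ((Ω.filter (fun x => t ≤ deg B x ∧ deg B x < t')).card : ℝ) := by
    intro t t' _ htt hex
    obtain ⟨x, hx, hx1, hx2⟩ := hex
    rw [hΩ, Finset.mem_filter, Finset.mem_biUnion] at hx
    obtain ⟨⟨i, _, hxi⟩, hx0⟩ := hx
    have hrow := side_row_diff A B t t' htt.le i x hxi hx1 hx2 hx0
    rw [(hreg t).row i, (hreg t').row i] at hrow
    have hne : den l t' ≠ den l t := by
      intro h1
      rw [h1] at hrow
      exact lt_irrefl _ hrow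
    have hle : ∀ i j, ZZ A B t i j = 1 → ZZ A B t' i j = 1 := by
      intro i j h1
      rcases (hreg t').entry i j with h2 | h2
      · exfalso
        have h3 := side_diff A B t t' htt.le i j
        rw [Matrix.sub_apply, h1, h2] at h3
        have h4 : (0 : ℝ) ≤ ∑ x ∈ ((univ.biUnion A).filter (fun x => 1 ≤ deg B x)).filter
          (fun x => t ≤ deg B x ∧ deg B x < t'),
          (if x ∈ A i then (1 : ℝ) else 0) * (if x ∈ B j then (1 : ℝ) else 0) := by
          apply Finset.sum_nonneg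
          intro y _
          apply mul_nonneg
          · split_ifs <;> norm_num
          · split_ifs <;> norm_num
        rw [← h3] at h4
        norm_num at h4
      · exact h2
    have h1 := hWIN ι (ZZ A B t') (ZZ A B t) (den l t') (den l t) (hreg t') (hreg t) hne hle
    have h2 := hLAB ι α (Ω.filter (fun x => t ≤ deg B x ∧ deg B x < t'))
      (fun x i => if x ∈ A i then (1 : ℝ) else 0) (fun x j => if x ∈ B j then (1 : ℝ) else 0)
      (ZZ A B t' - ZZ A B t) (fun i j => side_diff A B t t' htt.le i j)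
    have h3 : ρ t + c t' ≤ ((Ω.filter (fun x => t ≤ deg B x ∧ deg B x < t')).card : ℝ) + ρ t' := by
      simp only [hρ, hc]
      exact_mod_cast h1.trans (Nat.add_le_add_right h2 _)
    linarith
  have hwin2 : ∀ t t', 1 ≤ t → t < t' → (¬ ∃ x ∈ Ω, t ≤ deg B x ∧ deg B x < t') →
      ρ t - c t = ρ t' - c t' := by
    intro t t' _ htt hex
    have h1 : ZZ A B t' = ZZ A B t := by
      rw [← sub_eq_zero]
      ext i j
      rw [side_diff A B t t' htt.le i j]
      apply Finset.sum_eq_zero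
      intro x hx
      exfalso
      exact hex ⟨x, (Finset.mem_filter.1 hx).1, (Finset.mem_filter.1 hx).2⟩
    have h2 : Module.finrank ℝ (D (ZZ A B t')) = Module.finrank ℝ (D (ZZ A B t)) :=
      congrArg (fun Z => Module.finrank ℝ (D Z)) h1
    simp only [hρ, hc]
    rw [h2, h1]
  set l' := l.filter (fun q => decide (0 < q)) with hl'
  have hmem : ∀ k, k ∈ l' ↔ ∃ x ∈ Ω, deg B x = k := by
    intro k
    rw [hl', List.mem_filter, hl, side_mem_prof]
    constructor
    · rintro ⟨⟨x, hx, hxk⟩, hk⟩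
      have hk' : 0 < k := of_decide_eq_true hk
      refine ⟨x, ?_, hxk⟩
      rw [hΩ, Finset.mem_filter, Finset.mem_biUnion]
      exact ⟨⟨i₀, Finset.mem_univ _, hx⟩, by omega⟩
    · rintro ⟨x, hx, hxk⟩
      rw [hΩ, Finset.mem_filter, Finset.mem_biUnion] at hx
      obtain ⟨⟨i, _, hxi⟩, hx0⟩ := hx
      have hk : 1 ≤ k := by omega
      exact ⟨side_count A B hq k hk i i₀ ⟨x, hxi, hxk⟩, decide_eq_true (by omega)⟩
  have htel := hTEL α Ω (deg B) m (fun t => ρ t - c t) c (fun t => (m : ℝ) / (den l t : ℝ))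
    (fun x hx => ⟨(Finset.mem_filter.1 hx).2, side_deg_le B x⟩) hchi hc0 hchi0 hkap hwin1 hwin2
    l' hmem
  have hal : ∀ t ∈ Icc 1 m, al l' t = al l t := by
    intro t ht
    rw [Finset.mem_Icc] at ht
    unfold al
    have : (∃ q ∈ l', t ≤ q ∧ q < 2 * t) ↔ ∃ q ∈ l, t ≤ q ∧ q < 2 * t := by
      constructor
      · rintro ⟨q, h1, h2⟩
        exact ⟨q, (List.mem_filter.1 h1).1, h2⟩
      · rintro ⟨q, h1, h2⟩
        exact ⟨q, List.mem_filter.2 ⟨h1, decide_eq_true (by omega)⟩, h2⟩
    simp only [this]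
  have hbe : ∀ t ∈ Icc 1 m, be l' t = be l t := by
    intro t ht
    rw [Finset.mem_Icc] at ht
    unfold be
    have : (∃ q ∈ l', t ≤ q ∧ q + 1 < 2 * t) ↔ ∃ q ∈ l, t ≤ q ∧ q + 1 < 2 * t := by
      constructor
      · rintro ⟨q, h1, h2⟩
        exact ⟨q, (List.mem_filter.1 h1).1, h2⟩
      · rintro ⟨q, h1, h2⟩
        exact ⟨q, List.mem_filter.2 ⟨h1, decide_eq_true (by omega)⟩, h2⟩
    simp only [this]
  have hsorted : l.Pairwise (· ≥ ·) := by
    rw [hl]
    unfold prof
    exact Multiset.pairwise_sort _ _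
  have hthr := hTHR l m hsorted (by
    intro q hq'
    rw [hl, side_mem_prof] at hq'
    obtain ⟨x, _, hx⟩ := hq'
    rw [← hx]
    exact side_deg_le B x)
  have hlhs : ∑ t ∈ Icc 1 m, (al l' t + be l' t) * ((m : ℝ) / (den l t : ℝ)) = m * FF l := by
    rw [← hthr, Finset.mul_sum]
    apply Finset.sum_congr rfl
    intro t ht
    rw [hal t ht, hbe t ht]
    ring
  have htot : ∑ x ∈ Ω, (deg B x : ℝ) ≤ m * b := by
    have h1 : ∑ x ∈ Ω, deg B x ≤ m * b := by
      calc ∑ x ∈ Ω, deg B x = ∑ x ∈ Ω, ∑ j, (if x ∈ B j then 1 else 0) := by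
            apply Finset.sum_congr rfl
            intro x _
            unfold deg
            rw [Finset.card_filter]
        _ = ∑ j, ∑ x ∈ Ω, (if x ∈ B j then 1 else 0) := Finset.sum_comm
        _ ≤ ∑ j : ι, b := by
            apply Finset.sum_le_sum
            intro j _
            rw [← Finset.card_filter]
            refine (Finset.card_le_card ?_).trans (hb j)
            intro x hx
            exact (Finset.mem_filter.1 hx).2
        _ = m * b := by rw [Finset.sum_const, Finset.card_univ, smul_eq_mul]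
    exact_mod_cast h1
  have hfin : (m : ℝ) * FF l ≤ m * b := by
    rw [← hlhs]
    exact htel.trans htot
  have hm' : (0 : ℝ) < m := by exact_mod_cast hmpos
  exact le_of_mul_le_mul_left hfin hm'

end Pool.Agent.EQB
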