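import Pool.Agent.EQB.Targets

set_option autoImplicit false

namespace Pool.Agent.EQB

open Finset

namespace Step_

/-- The tangent of the logarithm at `c`. -/
theorem log_tangent {c x : ℝ} (hc : 0 < c) (hx : 0 < x) :
    Real.log x ≤ Real.log c + x / c - 1 := by
  have h1 := Real.log_le_sub_one_of_pos (div_pos hx hc)
  rw [Real.log_div hx.ne' hc.ne'] at h1
  linarith

theorem log5 : Real.log 5 = 2 * Real.log 2 + Real.log (5 / 4) := by
  have h : (5 : ℝ) = 2 ^ 2 * (5 / 4) := by norm_num
  conv_lhs => rw [h]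
  rw [Real.log_mul (by norm_num) (by norm_num), Real.log_pow]
  push_cast
  ring

theorem log54_ge : 1 / 5 ≤ Real.log (5 / 4) := by
  have h := Real.one_sub_inv_le_log_of_pos (by norm_num : (0 : ℝ) < 5 / 4)
  norm_num at h
  linarith

theorem log54_le : Real.log (5 / 4) ≤ 1 / 4 := by
  have h := Real.log_le_sub_one_of_pos (by norm_num : (0 : ℝ) < 5 / 4)
  linarith

theorem log53 : Real.log (5 / 3) = Real.log 5 - Real.log 3 :=
  Real.log_div (by norm_num) (by norm_num)

theorem log52 : Real.log (5 / 2) = Real.log 5 - Real.log 2 :=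
  Real.log_div (by norm_num) (by norm_num)

theorem gg_nonneg (y : ℝ) : 0 ≤ gg y := le_max_left _ _

theorem gg_ge (y : ℝ) : cg + 3 / 10 * (y - 2 / 3) ≤ gg y := le_max_right _ _

end Step_

open Step_ in
theorem p_STEP : T_STEP := by
  intro y z hy hy1 hyz
  have hz : 0 ≤ z := hy.trans hyz
  have h1z : 0 < 1 + z := by linarith
  have h5 := log5
  have h54 := log54_ge
  have h54' := log54_le
  have h2 := Real.log_two_gt_d9
  have hgy := gg_nonneg y
  have hgy' := gg_ge y
  have h53 := log53
  have h52 := log52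
  have hA : cA = Real.log 5 / 4 - 1 / 5 := rfl
  have hg : cg = Real.log (5 / 3) / 2 - cA := rfl
  -- the quotient
  set v := z / (1 + z) with hv
  have hvz : v * (1 + z) = z := by
    rw [hv, div_mul_cancel₀ _ h1z.ne']
  suffices h : 0 ≤ cA + 1 / 5 * min z (2 * (z - y)) + gg y - Real.log (1 + z) / 2 ∧
      cg + 3 / 10 * (v - 2 / 3) ≤
        cA + 1 / 5 * min z (2 * (z - y)) + gg y - Real.log (1 + z) / 2 by
    have h3 : gg v ≤ cA + 1 / 5 * min z (2 * (z - y)) + gg y - Real.log (1 + z) / 2 :=
      max_le h.1 h.2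
    linarith
  rcases le_total (2 * y) z with hc | hc
  · -- the case `z ≥ 2 y`
    have hmin : min z (2 * (z - y)) = z := min_eq_left (by linarith)
    rw [hmin]
    constructor
    · have h3 := log_tangent (by norm_num : (0 : ℝ) < 5 / 2) h1z
      have h4 : (1 + z) / (5 / 2) = 2 / 5 * (1 + z) := by ring
      rw [h4] at h3
      linarith
    · have h3 := log_tangent (by norm_num : (0 : ℝ) < 3) h1z
      -- `v ≤ 2/3 + (stuff)`
      have h4 : v = 1 - 1 / (1 + z) := by
        rw [hv]
        field_simp
        ring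
      have h6 : 2 / 3 - (1 + z) / 9 ≤ 1 / (1 + z) := by
        rw [le_div_iff₀ h1z]
        nlinarith [sq_nonneg (z - 2)]
      linarith
  · -- the case `z ≤ 2 y`
    have hmin : min z (2 * (z - y)) = 2 * (z - y) := min_eq_right (by linarith)
    rw [hmin]
    constructor
    · rcases le_total (1 / 4) y with hy4 | hy4
      · have h1y : 0 < 1 + y := by linarith
        have h3 := log_tangent h1y h1z
        have h4 := log_tangent (by norm_num : (0 : ℝ) < 5 / 3) h1y
        have h6 : (1 + z) / (1 + y) ≤ 1 + 4 / 5 * (z - y) := by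
          rw [div_le_iff₀ h1y]
          nlinarith [mul_nonneg (by linarith : (0 : ℝ) ≤ z - y) (by linarith : 0 ≤ y - 1 / 4)]
        have h7 : (1 + y) / (5 / 3) = 3 / 5 * (1 + y) := by ring
        rw [h7] at h4
        linarith
      · have h3 := log_tangent (by norm_num : (0 : ℝ) < 5 / 4) h1z
        have h4 : (1 + z) / (5 / 4) = 4 / 5 * (1 + z) := by ring
        rw [h4] at h3
        linarith
    · have h3 := log_tangent (by norm_num : (0 : ℝ) < 2) h1z
      rcases le_total z 1 with hz1 | hz1
      · -- `v ≤ z - (3 z - 1) / 4`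
        have h4 : v ≤ z - (3 * z - 1) / 4 := by
          rw [hv, div_le_iff₀ h1z]
          nlinarith [sq_nonneg (z - 1)]
        linarith
      · have h4 : v ≤ 1 / 2 + (z - 1) / 4 := by
          rw [hv, div_le_iff₀ h1z]
          nlinarith [sq_nonneg (z - 1)]
        linarith

end Pool.Agent.EQB
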