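import Pool.Agent.EQB.Targets

set_option autoImplicit false

namespace Pool.Agent.EQB

open Finset

/-- The functions in `V (inside F Y)` vanish outside `Y`. -/
theorem sum_vanish {α : Type} [Fintype α] [DecidableEq α] (F : Finset (Finset α)) (Y : Finset α)
    (v : α → ℝ) (hv : v ∈ V (inside F Y)) (a : α) (ha : a ∉ Y) : v a = 0 := by
  unfold V at hv
  induction hv using Submodule.span_induction with
  | mem x hx =>
    obtain ⟨R, hR, rfl⟩ := hx
    have hR' : R ∈ inside F Y := by simpa using hR
    have hsub : R ⊆ Y := (Finset.mem_filter.mp hR').2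
    have : a ∉ R := fun h => ha (hsub h)
    simp [ind, this]
  | zero => rfl
  | add x y _ _ hx hy => simp [hx, hy]
  | smul c x _ hx => simp [hx]

theorem sum_mono {α : Type} [Fintype α] [DecidableEq α] (F : Finset (Finset α)) (Y : Finset α) :
    V (inside F Y) ≤ V F := by
  unfold V
  apply Submodule.span_mono
  apply Set.image_mono
  intro R hR
  have hR' : R ∈ inside F Y := by simpa using hR
  have : R ∈ F := (Finset.mem_filter.mp hR').1
  simpa using this

/-- The sum map. -/
noncomputable def sum_lin {α : Type} [Fintype α] [DecidableEq α] (F P : Finset (Finset α)) :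
    (∀ Y : {Y // Y ∈ P}, V (inside F Y.1)) →ₗ[ℝ] V F :=
  ∑ Y : {Y // Y ∈ P}, (Submodule.inclusion (sum_mono F Y.1)).comp
    (LinearMap.proj (R := ℝ) (φ := fun Y : {Y // Y ∈ P} => V (inside F Y.1)) Y)

theorem sum_lin_apply {α : Type} [Fintype α] [DecidableEq α] (F P : Finset (Finset α))
    (v : ∀ Y : {Y // Y ∈ P}, V (inside F Y.1)) (a : α) :
    (sum_lin F P v : α → ℝ) a = ∑ Z : {Y // Y ∈ P}, (v Z : α → ℝ) a := by
  unfold sum_lin
  rw [LinearMap.sum_apply, Submodule.coe_sum, Finset.sum_apply]
  rfl

theorem p_SUM : T_SUM := by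
  intro α _ _ X F P hP
  have hinj : Function.Injective (sum_lin F P) := by
    rw [← LinearMap.ker_eq_bot, LinearMap.ker_eq_bot']
    intro v hv
    funext Y
    apply Subtype.ext
    funext a
    by_cases ha : a ∈ Y.1
    · have h1 : ((sum_lin F P v : V F) : α → ℝ) a = 0 := by
        rw [hv]; rfl
      have h2 : ((sum_lin F P v : V F) : α → ℝ) a = ∑ Z : {Y // Y ∈ P}, ((v Z : _) : α → ℝ) a := by
        exact sum_lin_apply F P v a
      have h3 : ∑ Z : {Y // Y ∈ P}, ((v Z : _) : α → ℝ) a = ((v Y : _) : α → ℝ) a := by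
        apply Finset.sum_eq_single Y
        · intro Z _ hZ
          apply sum_vanish F Z.1 _ (v Z).2
          intro haZ
          have hne : Z.1 ≠ Y.1 := fun h => hZ (Subtype.ext h)
          exact (Finset.disjoint_left.mp (hP.disj Z.1 Z.2 Y.1 Y.2 hne)) haZ ha
        · intro h
          exact absurd (Finset.mem_univ _) h
      have h4 : ((v Y : _) : α → ℝ) a = 0 := by
        rw [← h3, ← h2, h1]
      simpa using h4
    · simpa using sum_vanish F Y.1 _ (v Y).2 a ha
  have hfin := LinearMap.finrank_le_finrank_of_injective hinj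
  rw [Module.finrank_pi_fintype] at hfin
  unfold rk
  rw [← Finset.sum_coe_sort P (fun Y => Module.finrank ℝ (V (inside F Y)))]
  exact hfin

end Pool.Agent.EQB
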