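import Pool.Agent.EQB.Targets

set_option autoImplicit false

namespace Pool.Agent.EQB

open Finset

theorem thr_al_pos {l : List ℕ} {t : ℕ} (h : ∃ q ∈ l, t ≤ q ∧ q < 2 * t) : al l t = 1 := by
  unfold al
  exact if_pos h

theorem thr_al_neg {l : List ℕ} {t : ℕ} (h : ¬ ∃ q ∈ l, t ≤ q ∧ q < 2 * t) : al l t = 0 := by
  unfold al
  exact if_neg h

theorem thr_be_pos {l : List ℕ} {t : ℕ} (h : ∃ q ∈ l, t ≤ q ∧ q + 1 < 2 * t) : be l t = 1 := by
  unfold be
  exact if_pos h

theorem thr_be_neg {l : List ℕ} {t : ℕ} (h : ¬ ∃ q ∈ l, t ≤ q ∧ q + 1 < 2 * t) : be l t = 0 := by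
  unfold be
  exact if_neg h

theorem thr_al_congr {l l' : List ℕ} {t : ℕ}
    (h : (∃ q ∈ l, t ≤ q ∧ q < 2 * t) ↔ ∃ q ∈ l', t ≤ q ∧ q < 2 * t) : al l t = al l' t := by
  by_cases h1 : ∃ q ∈ l, t ≤ q ∧ q < 2 * t
  · rw [thr_al_pos h1, thr_al_pos (h.1 h1)]
  · rw [thr_al_neg h1, thr_al_neg (fun h2 => h1 (h.2 h2))]

theorem thr_be_congr {l l' : List ℕ} {t : ℕ}
    (h : (∃ q ∈ l, t ≤ q ∧ q + 1 < 2 * t) ↔ ∃ q ∈ l', t ≤ q ∧ q + 1 < 2 * t) :
    be l t = be l' t := by
  by_cases h1 : ∃ q ∈ l, t ≤ q ∧ q + 1 < 2 * t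
  · rw [thr_be_pos h1, thr_be_pos (h.1 h1)]
  · rw [thr_be_neg h1, thr_be_neg (fun h2 => h1 (h.2 h2))]

theorem thr_hd {l : List ℕ} (hl : l.Pairwise (· ≥ ·)) : ∀ x ∈ l, x ≤ hd l := by
  intro x hx
  cases l with
  | nil => exact absurd hx (by simp)
  | cons a l =>
    rcases List.mem_cons.1 hx with rfl | hx
    · exact le_refl _
    · exact (List.pairwise_cons.1 hl).1 x hx

theorem thr_hd_mem {l : List ℕ} (h : 0 < hd l) : hd l ∈ l := by
  cases l with
  | nil => exact absurd h (by simp [hd])
  | cons a l => exact List.mem_cons_self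

/-- the first indicator -/
noncomputable def thr_i (h q t : ℕ) : ℝ := if h < t ∧ t ≤ q ∧ q < 2 * t then 1 else 0

/-- the second indicator -/
noncomputable def thr_j (h q t : ℕ) : ℝ := if h < t ∧ t ≤ q ∧ q + 1 < 2 * t then 1 else 0

theorem thr_filter_all {l : List ℕ} {t : ℕ} (h : ∀ x ∈ l, x < t) :
    (l.filter (fun q => decide (q < t))) = l :=
  List.filter_eq_self.2 (fun x hx => by simp [h x hx])

theorem thr_point (q : ℕ) (l : List ℕ) (hl : (q :: l).Pairwise (· ≥ ·)) (t : ℕ) (ht : 1 ≤ t) :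
    (al (q :: l) t + be (q :: l) t) / (den (q :: l) t : ℝ) =
      (al l t + be l t) / (den l t : ℝ) +
        (thr_i (hd l) q t + thr_j (hd l) q t) / (1 + (l.sum : ℝ)) := by
  have hq := (List.pairwise_cons.1 hl).1
  have hl' := (List.pairwise_cons.1 hl).2
  have hh := thr_hd hl'
  by_cases h1 : t ≤ hd l
  · have hm : hd l ∈ l := thr_hd_mem (by omega)
    have hq1 : hd l ≤ q := hq _ hm
    have e1 : al (q :: l) t = al l t := by
      apply thr_al_congr
      constructor
      · rintro ⟨x, hx, h2, h3⟩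
        rcases List.mem_cons.1 hx with rfl | hx
        · exact ⟨hd l, hm, h1, by omega⟩
        · exact ⟨x, hx, h2, h3⟩
      · rintro ⟨x, hx, h2, h3⟩
        exact ⟨x, List.mem_cons_of_mem _ hx, h2, h3⟩
    have e2 : be (q :: l) t = be l t := by
      apply thr_be_congr
      constructor
      · rintro ⟨x, hx, h2, h3⟩
        rcases List.mem_cons.1 hx with rfl | hx
        · exact ⟨hd l, hm, h1, by omega⟩
        · exact ⟨x, hx, h2, h3⟩
      · rintro ⟨x, hx, h2, h3⟩
        exact ⟨x, List.mem_cons_of_mem _ hx, h2, h3⟩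
    have e3 : den (q :: l) t = den l t := by
      unfold den
      rw [List.filter_cons_of_neg (by simp; omega)]
    have e4 : thr_i (hd l) q t = 0 := if_neg (by omega)
    have e5 : thr_j (hd l) q t = 0 := if_neg (by omega)
    rw [e1, e2, e3, e4, e5]
    simp
  · have hlt : ∀ x ∈ l, x < t := fun x hx => lt_of_le_of_lt (hh x hx) (by omega)
    have e1 : al l t = 0 := thr_al_neg (by
      rintro ⟨x, hx, h2, -⟩
      have := hlt x hx
      omega)
    have e2 : be l t = 0 := thr_be_neg (by
      rintro ⟨x, hx, h2, -⟩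
      have := hlt x hx
      omega)
    by_cases h2 : t ≤ q
    · have e3 : den (q :: l) t = 1 + l.sum := by
        unfold den
        rw [List.filter_cons_of_neg (by simp; omega), thr_filter_all hlt]
      have e4 : al (q :: l) t = thr_i (hd l) q t := by
        by_cases h3 : q < 2 * t
        · rw [thr_al_pos ⟨q, List.mem_cons_self, h2, h3⟩]
          exact (if_pos (by omega)).symm
        · rw [thr_al_neg]
          · exact (if_neg (by omega)).symm
          · rintro ⟨x, hx, h4, h5⟩
            rcases List.mem_cons.1 hx with rfl | hx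
            · exact h3 h5
            · have := hlt x hx
              omega
      have e5 : be (q :: l) t = thr_j (hd l) q t := by
        by_cases h3 : q + 1 < 2 * t
        · rw [thr_be_pos ⟨q, List.mem_cons_self, h2, h3⟩]
          exact (if_pos (by omega)).symm
        · rw [thr_be_neg]
          · exact (if_neg (by omega)).symm
          · rintro ⟨x, hx, h4, h5⟩
            rcases List.mem_cons.1 hx with rfl | hx
            · exact h3 h5
            · have := hlt x hx
              omega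
      rw [e1, e2, e3, e4, e5]
      push_cast
      simp
    · have e4 : thr_i (hd l) q t = 0 := if_neg (by omega)
      have e5 : thr_j (hd l) q t = 0 := if_neg (by omega)
      have e6 : al (q :: l) t = 0 := thr_al_neg (by
        rintro ⟨x, hx, h4, -⟩
        rcases List.mem_cons.1 hx with rfl | hx
        · exact h2 h4
        · have := hlt x hx
          omega)
      have e7 : be (q :: l) t = 0 := thr_be_neg (by
        rintro ⟨x, hx, h4, -⟩
        rcases List.mem_cons.1 hx with rfl | hx
        · exact h2 h4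
        · have := hlt x hx
          omega)
      rw [e1, e2, e4, e5, e6, e7]
      simp

theorem thr_sum_i (h q M : ℕ) (hq : q ≤ M) :
    ∑ t ∈ Icc 1 M, thr_i h q t = ((q - max h (q / 2) : ℕ) : ℝ) := by
  unfold thr_i
  rw [Finset.sum_boole]
  have : (Icc 1 M).filter (fun t => h < t ∧ t ≤ q ∧ q < 2 * t) = Ioc (max h (q / 2)) q := by
    ext t
    simp only [mem_filter, mem_Icc, mem_Ioc]
    omega
  rw [this, Nat.card_Ioc]

theorem thr_sum_j (h q M : ℕ) (hq : q ≤ M) :
    ∑ t ∈ Icc 1 M, thr_j h q t = ((q - max h ((q + 1) / 2) : ℕ) : ℝ) := by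
  unfold thr_j
  rw [Finset.sum_boole]
  have : (Icc 1 M).filter (fun t => h < t ∧ t ≤ q ∧ q + 1 < 2 * t) =
      Ioc (max h ((q + 1) / 2)) q := by
    ext t
    simp only [mem_filter, mem_Icc, mem_Ioc]
    omega
  rw [this, Nat.card_Ioc]

theorem p_THR : T_THR := by
  intro l M
  induction l with
  | nil =>
    intro _ _
    have h : ∀ t ∈ Icc 1 M, (al [] t + be [] t) / (den [] t : ℝ) = 0 := by
      intro t _
      rw [thr_al_neg (by simp), thr_be_neg (by simp)]
      simp
    rw [Finset.sum_congr rfl h]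
    simp [FF]
  | cons q l ih =>
    intro hl hM
    have hl' := (List.pairwise_cons.1 hl).2
    have hq := (List.pairwise_cons.1 hl).1
    have ih' := ih hl' (fun x hx => hM x (List.mem_cons_of_mem _ hx))
    have hqM : q ≤ M := hM q List.mem_cons_self
    have hhq : hd l ≤ q := by
      by_cases h : 0 < hd l
      · exact hq _ (thr_hd_mem h)
      · omega
    have h : ∀ t ∈ Icc 1 M, (al (q :: l) t + be (q :: l) t) / (den (q :: l) t : ℝ) =
        (al l t + be l t) / (den l t : ℝ) +
          (thr_i (hd l) q t + thr_j (hd l) q t) / (1 + (l.sum : ℝ)) := by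
      intro t ht
      exact thr_point q l hl t (Finset.mem_Icc.1 ht).1
    rw [Finset.sum_congr rfl h, Finset.sum_add_distrib, ih', ← Finset.sum_div,
      Finset.sum_add_distrib, thr_sum_i _ _ _ hqM, thr_sum_j _ _ _ hqM]
    have hF : FF (q :: l) = FF l + ((min q (2 * (q - hd l)) : ℕ) : ℝ) / (1 + (l.sum : ℝ)) := rfl
    rw [hF, ← Nat.cast_add]
    have he : q - max (hd l) (q / 2) + (q - max (hd l) ((q + 1) / 2)) =
        min q (2 * (q - hd l)) := by omega
    rw [he]

end Pool.Agent.EQB
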