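import Pool.Agent.EQB.Targets

set_option autoImplicit false

namespace Pool.Agent.EQB

open Finset

theorem tr_deg {ι α : Type} [Fintype ι] [DecidableEq α] (A : ι → Finset α)
    (π : Equiv.Perm ι) (φ : Equiv.Perm α) (h : ∀ k, (A k).map φ.toEmbedding = A (π k)) (x : α) :
    deg A (φ x) = deg A x := by
  unfold deg
  symm
  refine Finset.card_bij (fun k _ => π k) ?_ ?_ ?_
  · intro k hk
    rw [Finset.mem_filter] at hk ⊢
    refine ⟨Finset.mem_univ _, ?_⟩
    rw [← h k, Finset.mem_map]
    exact ⟨x, hk.2, rfl⟩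
  · intro a _ b _ hab
    exact π.injective hab
  · intro k hk
    rw [Finset.mem_filter] at hk
    refine ⟨π.symm k, ?_, π.apply_symm_apply k⟩
    rw [Finset.mem_filter]
    refine ⟨Finset.mem_univ _, ?_⟩
    have h1 := hk.2
    rw [← π.apply_symm_apply k, ← h, Finset.mem_map] at h1
    obtain ⟨y, hy, hyx⟩ := h1
    have : y = x := φ.injective hyx
    rwa [this] at hy

theorem tr_map {ι α : Type} [Fintype ι] [DecidableEq α] (A B C : ι → Finset α)
    (π : Equiv.Perm ι) (φ : Equiv.Perm α) (hA : ∀ k, (A k).map φ.toEmbedding = A (π k))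
    (hB : ∀ k, (B k).map φ.toEmbedding = B (π k))
    (hC : ∀ k, (C k).map φ.toEmbedding = C (π k)) (i : ι) :
    (C i).val.map (typ A B) = (C (π i)).val.map (typ A B) := by
  rw [← hC i, Finset.map_val, Multiset.map_map]
  refine Multiset.map_congr rfl ?_
  intro x _
  show typ A B x = typ A B (φ x)
  unfold typ
  rw [tr_deg A π φ hA, tr_deg B π φ hB]

/-- T_TR. -/
theorem p_TR : T_TR := by
  intro ι α _ _ A B h
  refine ⟨?_, ?_⟩
  · intro i j
    obtain ⟨π, φ, hij, hk⟩ := h i j
    have := tr_map A B A π φ (fun k => (hk k).1) (fun k => (hk k).2) (fun k => (hk k).1) i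
    rwa [hij] at this
  · intro i j
    obtain ⟨π, φ, hij, hk⟩ := h i j
    have := tr_map A B B π φ (fun k => (hk k).1) (fun k => (hk k).2) (fun k => (hk k).2) i
    rwa [hij] at this

end Pool.Agent.EQB
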