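import Pool.Agent.EQB.Targets

set_option autoImplicit false

/-!
# Project EQB, target WIN: the window lemma
-/

namespace Pool.Agent.EQB

open Finset Matrix

theorem win_left {ι : Type} [Fintype ι] [DecidableEq ι] {A B : Matrix ι ι ℝ} {s : ℕ}
    (hB : Reg B s) (hBA : ∀ i j, B i j = 1 → A i j = 1) {d : ι → ℝ} (hd : d ∈ D A) :
    d ᵥ* B = (s : ℝ) • d := by
  funext j
  have h1 : ∀ i, d i * B i j = B i j * d j := by
    intro i
    rcases hB.entry i j with h | h
    · rw [h]; ring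
    · have : d i = d j := hd i j (hBA i j h)
      rw [this, mul_comm]
  simp only [Matrix.vecMul, dotProduct, Pi.smul_apply, smul_eq_mul]
  rw [Finset.sum_congr rfl fun i _ => h1 i, ← Finset.sum_mul, hB.col j]

theorem win_right {ι : Type} [Fintype ι] [DecidableEq ι] {A : Matrix ι ι ℝ} {s : ℕ}
    (hA : Reg A s) {d : ι → ℝ} (hd : d ∈ D A) : A *ᵥ d = (s : ℝ) • d := by
  funext i
  have h1 : ∀ j, A i j * d j = A i j * d i := by
    intro j
    rcases hA.entry i j with h | h
    · rw [h]; ring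
    · have : d i = d j := hd i j h
      rw [this]
  simp only [Matrix.mulVec, dotProduct, Pi.smul_apply, smul_eq_mul]
  rw [Finset.sum_congr rfl fun j _ => h1 j, ← Finset.sum_mul, hA.row i]

theorem p_WIN : T_WIN := by
  intro ι _ _ A B sA sB hA hB hne hBA
  have hsA : (sA : ℝ) ≠ 0 ∨ IsEmpty ι := by
    rcases isEmpty_or_nonempty ι with h | ⟨⟨i⟩⟩
    · exact Or.inr h
    · left
      intro h0
      have h1 := hA.row i
      rw [h0] at h1
      have h2 : (0 : ℝ) < ∑ j, A i j := by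
        apply Finset.sum_pos'
        · intro j _
          rcases hA.entry i j with h | h <;> rw [h]
          norm_num
        · exact ⟨i, Finset.mem_univ i, by rw [hA.diag i]; norm_num⟩
      linarith
  set G := LinearMap.ker (A - B).mulVecLin with hG
  have hGm : ∀ f ∈ G, A *ᵥ f = B *ᵥ f := by
    intro f hf
    have h1 : (A - B) *ᵥ f = 0 := LinearMap.mem_ker.mp hf
    rw [Matrix.sub_mulVec] at h1
    exact sub_eq_zero.mp h1
  set φ : G →ₗ[ℝ] (ι → ℝ) := A.mulVecLin.domRestrict G with hφ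
  have hn1 := LinearMap.finrank_range_add_finrank_ker (A - B).mulVecLin
  rw [← hG] at hn1
  have hn2 := LinearMap.finrank_range_add_finrank_ker φ
  have hn3 := LinearMap.finrank_range_add_finrank_ker B.mulVecLin
  have hker : Module.finrank ℝ (LinearMap.ker φ) ≤
      Module.finrank ℝ (LinearMap.ker B.mulVecLin) := by
    rw [← Submodule.finrank_map_subtype_eq G (LinearMap.ker φ)]
    apply Submodule.finrank_mono
    rintro f ⟨g, hg, rfl⟩
    have hg' : φ g = 0 := LinearMap.mem_ker.mp hg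
    have h1 : A *ᵥ (g : ι → ℝ) = 0 := by
      have : φ g = A *ᵥ (g : ι → ℝ) := rfl
      rw [← this]
      exact hg'
    rw [LinearMap.mem_ker]
    show B *ᵥ (g : ι → ℝ) = 0
    rw [← hGm g g.2, h1]
  have hdis : LinearMap.range φ ⊓ D A = ⊥ := by
    rw [eq_bot_iff]
    rintro g ⟨⟨f, rfl⟩, hd⟩
    have hfe : φ f = A *ᵥ (f : ι → ℝ) := rfl
    rw [hfe] at hd ⊢
    have e1 : ∀ d ∈ D A, d ⬝ᵥ (A *ᵥ (f : ι → ℝ)) = 0 := by
      intro d hd'
      have k1 : d ⬝ᵥ (A *ᵥ (f : ι → ℝ)) = (sA : ℝ) * (d ⬝ᵥ (f : ι → ℝ)) := by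
        rw [Matrix.dotProduct_mulVec, win_left hA (fun i j h => h) hd', smul_dotProduct,
          smul_eq_mul]
      have k2 : d ⬝ᵥ (A *ᵥ (f : ι → ℝ)) = (sB : ℝ) * (d ⬝ᵥ (f : ι → ℝ)) := by
        rw [hGm f f.2, Matrix.dotProduct_mulVec, win_left hB hBA hd', smul_dotProduct,
          smul_eq_mul]
      have k3 : ((sA : ℝ) - sB) * (d ⬝ᵥ (f : ι → ℝ)) = 0 := by
        rw [sub_mul, ← k1, ← k2, sub_self]
      have k4 : ((sA : ℝ) - sB) ≠ 0 := by
        rw [sub_ne_zero]
        exact_mod_cast hne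
      have k5 : d ⬝ᵥ (f : ι → ℝ) = 0 := (mul_eq_zero.mp k3).resolve_left k4
      rw [k1, k5, mul_zero]
    have e2 := e1 _ hd
    rw [dotProduct_self_eq_zero] at e2
    rw [e2]
    exact Submodule.zero_mem _
  have hle : LinearMap.range φ ⊔ D A ≤ LinearMap.range A.mulVecLin := by
    apply sup_le
    · rintro g ⟨f, rfl⟩
      exact ⟨(f : ι → ℝ), rfl⟩
    · intro d hd
      rcases hsA with h | h
      · refine ⟨(sA : ℝ)⁻¹ • d, ?_⟩
        show A *ᵥ ((sA : ℝ)⁻¹ • d) = d
        rw [Matrix.mulVec_smul, win_right hA hd, smul_smul, inv_mul_cancel₀ h, one_smul]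
      · refine ⟨d, ?_⟩
        funext i
        exact (h.false i).elim
  have hsup := Submodule.finrank_sup_add_finrank_inf_eq (LinearMap.range φ) (D A)
  rw [hdis, finrank_bot] at hsup
  have hmono := Submodule.finrank_mono hle
  unfold Matrix.rank
  omega

end Pool.Agent.EQB
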