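import Pool.Agent.EQB.Targets

set_option autoImplicit false

namespace Pool.Agent.EQB

open Finset

section zreg

variable {ι α : Type} [Fintype ι] [DecidableEq ι] [DecidableEq α]

omit [DecidableEq ι] in
theorem zreg_ind (B : ι → Finset α) (x : α) (P : Prop) [Decidable P] :
    ∑ j, (if x ∈ B j ∧ P then (1 : ℝ) else 0) = if P then (deg B x : ℝ) else 0 := by
  by_cases h : P
  · simp only [h, and_true, if_true]
    rw [Finset.sum_boole]
    rfl
  · simp [h]

theorem zreg_row (A B : ι → Finset α) (t : ℕ) (i : ι) :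
    ∑ j, ZZ A B t i j = 1 + ((∑ x ∈ A i with deg B x < t, deg B x : ℕ) : ℝ) := by
  unfold ZZ
  rw [Finset.sum_add_distrib, Finset.sum_comm]
  simp only [zreg_ind]
  rw [Finset.sum_filter]
  push_cast
  simp

theorem zreg_col (A B : ι → Finset α) (t : ℕ) (j : ι) :
    ∑ i, ZZ A B t i j = 1 + ((∑ x ∈ B j with deg B x < t, deg A x : ℕ) : ℝ) := by
  have h1 : ∀ i, (∑ x ∈ A i, if x ∈ B j ∧ deg B x < t then (1 : ℝ) else 0) =
      ∑ x ∈ B j, if x ∈ A i ∧ deg B x < t then (1 : ℝ) else 0 := by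
    intro i
    rw [Finset.sum_boole, Finset.sum_boole]
    have h2 : (A i).filter (fun x => x ∈ B j ∧ deg B x < t) =
        (B j).filter (fun x => x ∈ A i ∧ deg B x < t) := by
      ext x
      simp only [Finset.mem_filter]
      tauto
    rw [h2]
  unfold ZZ
  rw [Finset.sum_add_distrib]
  simp only [h1]
  rw [Finset.sum_comm (s := Finset.univ) (t := B j)]
  simp only [zreg_ind]
  rw [Finset.sum_filter]
  push_cast
  simp

omit [DecidableEq ι] in
theorem zreg_sum_zero (A B : ι → Finset α) (h : OneCross A B) (t : ℕ) (i : ι) :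
    (∑ x ∈ A i, if x ∈ B i ∧ deg B x < t then (1 : ℝ) else 0) = 0 := by
  refine Finset.sum_eq_zero fun x hx => ?_
  rw [if_neg]
  rintro ⟨hb, _⟩
  have : x ∈ A i ∩ B i := Finset.mem_inter.mpr ⟨hx, hb⟩
  rw [h.1 i] at this
  exact absurd this (Finset.notMem_empty x)

theorem zreg_diag (A B : ι → Finset α) (h : OneCross A B) (t : ℕ) (i : ι) :
    ZZ A B t i i = 1 := by
  unfold ZZ
  rw [zreg_sum_zero A B h t i, if_pos rfl, add_zero]

theorem zreg_entry (A B : ι → Finset α) (h : OneCross A B) (t : ℕ) (i j : ι) :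
    ZZ A B t i j = 0 ∨ ZZ A B t i j = 1 := by
  by_cases hij : i = j
  · subst hij
    exact Or.inr (zreg_diag A B h t i)
  · have h1 : ZZ A B t i j =
        (((A i).filter (fun x => x ∈ B j ∧ deg B x < t)).card : ℝ) := by
      unfold ZZ
      rw [if_neg hij, zero_add, Finset.sum_boole]
    have h2 : ((A i).filter (fun x => x ∈ B j ∧ deg B x < t)).card ≤ 1 := by
      rw [← h.2 i j hij]
      refine Finset.card_le_card fun x hx => ?_
      rw [Finset.mem_filter] at hx
      exact Finset.mem_inter.mpr ⟨hx.1, hx.2.1⟩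
    rw [h1]
    rcases Nat.le_one_iff_eq_zero_or_eq_one.mp h2 with h3 | h3
    · left
      rw [h3]
      norm_num
    · right
      rw [h3]
      norm_num

omit [DecidableEq ι] in
theorem zreg_den (A B : ι → Finset α) (t : ℕ) (i₀ : ι) :
    den (prof (A i₀) (deg B)) t = 1 + ∑ x ∈ A i₀ with deg B x < t, deg B x := by
  unfold den prof
  have h1 : ((((A i₀).val.map (deg B)).sort (· ≥ ·)).filter (fun q => decide (q < t))).sum =
      (((A i₀).val.map (deg B)).filter (fun q => q < t)).sum := by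
    rw [← Multiset.sum_coe, ← Multiset.filter_coe, Multiset.sort_eq]
  rw [h1, Multiset.filter_map]
  rfl

end zreg

theorem p_ZREG : T_ZREG := by
  intro ι α _ _ _ A B h hq t i₀
  have hrow : ∀ i, ∑ j, ZZ A B t i j = (den (prof (A i₀) (deg B)) t : ℝ) := by
    intro i
    rw [zreg_row, zreg_den, hq.1 t i i₀]
    push_cast
    ring
  refine ⟨zreg_entry A B h t, zreg_diag A B h t, hrow, ?_⟩
  intro j
  have hcol : ∀ k, ∑ i, ZZ A B t i k = ∑ i, ZZ A B t i j := by
    intro k
    rw [zreg_col, zreg_col, hq.2 t k j]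
  have h1 : ∑ i, ∑ k, ZZ A B t i k = ∑ k, ∑ i, ZZ A B t i k := Finset.sum_comm
  simp only [hrow, hcol] at h1
  rw [Finset.sum_const, Finset.sum_const, nsmul_eq_mul, nsmul_eq_mul] at h1
  have h2 : ((Finset.univ : Finset ι).card : ℝ) ≠ 0 := by
    have : 0 < (Finset.univ : Finset ι).card := Finset.card_pos.mpr ⟨i₀, Finset.mem_univ _⟩
    positivity
  exact (mul_left_cancel₀ h2 h1).symm

end Pool.Agent.EQB
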