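import Pool.Agent.EQB.Main
import Pool.Agent.EQB.P_MC
import Pool.Agent.EQB.P_SIDE
import Pool.Agent.EQB.P_CL
import Pool.Agent.EQB.P_EXC
import Pool.Agent.EQB.P_DIM
import Pool.Agent.EQB.P_COMP
import Pool.Agent.EQB.P_RES
import Pool.Agent.EQB.P_REL
import Pool.Agent.EQB.P_SUM
import Pool.Agent.EQB.P_N1
import Pool.Agent.EQB.P_B
import Pool.Agent.EQB.P_RK
import Pool.Agent.EQB.P_WIN
import Pool.Agent.EQB.P_DR
import Pool.Agent.EQB.P_LAB
import Pool.Agent.EQB.P_TEL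
import Pool.Agent.EQB.P_THR
import Pool.Agent.EQB.P_STEP
import Pool.Agent.EQB.P_PROF
import Pool.Agent.EQB.P_ZREG
import Pool.Agent.EQB.P_TR
import Pool.Agent.EQB.P_POW

set_option autoImplicit false

namespace Pool.Agent.EQB

theorem f_MC : T_MC := p_MC p_CL p_EXC p_DIM p_COMP p_SUM (p_N1 p_REL p_RES) (p_B p_REL p_RES)
theorem f_RK : T_RK := p_RK f_MC p_COMP p_SUM
theorem f_SIDE : T_SIDE := p_SIDE f_RK p_WIN p_DR p_LAB p_TEL p_THR p_ZREG
theorem f_PROF : T_PROF := p_PROF p_STEP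
theorem f_TR : T_TR := p_TR
theorem f_POW : T_POW := p_POW

theorem f_bound {ι α : Type} [Fintype ι] [DecidableEq α]
    (A B : ι → Finset α) (h : OneCross A B) (hq : QEq A B) (hq' : QEq B A) (a b : ℕ)
    (ha : ∀ i, (A i).card ≤ a) (hb : ∀ i, (B i).card ≤ b) :
    (Fintype.card ι : ℝ) ≤ (5 : ℝ) ^ (((a : ℝ) + b) / 4) :=
  bound f_SIDE f_PROF A B h hq hq' a b ha hb

end Pool.Agent.EQB
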