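import Pool.Agent.EQB.Targets

set_option autoImplicit false

namespace Pool.Agent.EQB

open Finset

section

variable {ι α : Type} [Fintype ι] [DecidableEq ι] [DecidableEq α]

lemma main_swap (A B : ι → Finset α) (h : OneCross A B) : OneCross B A := by
  refine ⟨fun i => ?_, fun i j hij => ?_⟩
  · rw [Finset.inter_comm]; exact h.1 i
  · rw [Finset.inter_comm]; exact h.2 j i (Ne.symm hij)

lemma main_total (A B : ι → Finset α) (h : OneCross A B) (i : ι) :
    1 + (prof (A i) (deg B)).sum = Fintype.card ι := by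
  have h1 : (prof (A i) (deg B)).sum = ∑ x ∈ A i, deg B x := by
    unfold prof
    rw [← Multiset.sum_coe, Multiset.sort_eq]
    rfl
  have h2 : ∑ x ∈ A i, deg B x = ∑ j, (A i ∩ B j).card := by
    calc ∑ x ∈ A i, deg B x = ∑ x ∈ A i, ∑ j, (if x ∈ B j then 1 else 0) := by
          apply Finset.sum_congr rfl
          intro x _
          unfold deg
          rw [Finset.card_filter]
      _ = ∑ j, ∑ x ∈ A i, (if x ∈ B j then 1 else 0) := Finset.sum_comm
      _ = ∑ j, (A i ∩ B j).card := by
          apply Finset.sum_congr rfl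
          intro j _
          rw [← Finset.card_filter, Finset.filter_mem_eq_inter]
  have h3 : ∑ j, (A i ∩ B j).card = ∑ j ∈ univ.erase i, 1 := by
    rw [← Finset.add_sum_erase Finset.univ _ (Finset.mem_univ i), h.1 i, Finset.card_empty,
      zero_add]
    apply Finset.sum_congr rfl
    intro j hj
    exact h.2 i j (Ne.symm (Finset.ne_of_mem_erase hj))
  rw [h1, h2, h3, Finset.sum_const, smul_eq_mul, mul_one, Finset.card_erase_of_mem
    (Finset.mem_univ i), Finset.card_univ]
  have : 0 < Fintype.card ι := Fintype.card_pos_iff.2 ⟨i⟩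
  omega

lemma main_length (A : ι → Finset α) (f : α → ℕ) (i : ι) :
    (prof (A i) f).length = (A i).card := by
  unfold prof
  rw [Multiset.length_sort, Multiset.card_map]
  rfl

lemma main_sorted (s : Finset α) (f : α → ℕ) : (prof s f).Pairwise (· ≥ ·) := by
  unfold prof
  exact Multiset.pairwise_sort _ _

lemma main_cA : 0 ≤ cA := by
  unfold cA
  have h1 : (1 : ℝ) ≤ Real.log 5 := by
    rw [Real.le_log_iff_exp_le (by norm_num)]
    have := Real.exp_one_lt_d9
    linarith
  linarith

lemma main_one (hSIDE : T_SIDE) (hPROF : T_PROF) (A B : ι → Finset α) (h : OneCross A B)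
    (hq : QEq A B) (a b : ℕ) (ha : ∀ i, (A i).card ≤ a) (hb : ∀ i, (B i).card ≤ b) (i₀ : ι) :
    Real.log (Fintype.card ι) / 2 ≤ cA * a + b / 5 := by
  have h1 := hSIDE ι α A B h hq b hb i₀
  have h2 := hPROF (prof (A i₀) (deg B)) (main_sorted _ _)
  rw [main_length] at h2
  have h3 : (1 + ((prof (A i₀) (deg B)).sum : ℝ)) = (Fintype.card ι : ℝ) := by
    exact_mod_cast main_total A B h i₀
  rw [h3] at h2
  have h4 : cA * ((A i₀).card : ℝ) ≤ cA * a := by
    apply mul_le_mul_of_nonneg_left _ main_cA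
    exact_mod_cast ha i₀
  linarith

end

/-- The bound `m ≤ 5^((a+b)/4)`. -/
theorem bound (hSIDE : T_SIDE) (hPROF : T_PROF) {ι α : Type} [Fintype ι] [DecidableEq α]
    (A B : ι → Finset α) (h : OneCross A B) (hq : QEq A B) (hq' : QEq B A) (a b : ℕ)
    (ha : ∀ i, (A i).card ≤ a) (hb : ∀ i, (B i).card ≤ b) :
    (Fintype.card ι : ℝ) ≤ (5 : ℝ) ^ (((a : ℝ) + b) / 4) := by
  classical
  rcases isEmpty_or_nonempty ι with he | ⟨⟨i₀⟩⟩
  · rw [Fintype.card_eq_zero]
    simp only [Nat.cast_zero]
    positivity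
  · have h1 := main_one hSIDE hPROF A B h hq a b ha hb i₀
    have h2 := main_one hSIDE hPROF B A (main_swap A B h) hq' b a hb ha i₀
    have hm : (0 : ℝ) < Fintype.card ι := by
      exact_mod_cast Fintype.card_pos_iff.2 ⟨i₀⟩
    have h3 : Real.log (Fintype.card ι) ≤ ((a : ℝ) + b) / 4 * Real.log 5 := by
      have h4 : cA = Real.log 5 / 4 - 1 / 5 := rfl
      rw [h4] at h1 h2
      linarith
    rw [← Real.log_rpow (by norm_num)] at h3
    exact (Real.log_le_log_iff hm (by positivity)).1 h3

/-- Type-equitable systems are equitable. -/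
theorem qEq_of_equit {ι α : Type} [Fintype ι] [DecidableEq α] (A B : ι → Finset α)
    (h : Equit A B) : QEq A B ∧ QEq B A := by
  classical
  have key : ∀ (C : ι → Finset α) (f g : α → ℕ) (F : ℕ × ℕ → ℕ × ℕ),
      (∀ i j, (C i).val.map (typ A B) = (C j).val.map (typ A B)) →
      (∀ x, F (typ A B x) = (f x, g x)) → ∀ (t : ℕ) (i j : ι),
      ∑ x ∈ C i with f x < t, g x = ∑ x ∈ C j with f x < t, g x := by
    intro C f g F hC hF t i j
    have h1 : ∀ i, ∑ x ∈ C i with f x < t, g x =
        (((C i).val.map (typ A B)).map (fun p => if (F p).1 < t then (F p).2 else 0)).sum := by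
      intro i
      rw [Finset.sum_filter, Multiset.map_map, Finset.sum_eq_multiset_sum]
      congr 1
      apply Multiset.map_congr rfl
      intro x _
      simp only [Function.comp, hF]
    rw [h1, h1, hC i j]
  refine ⟨⟨?_, ?_⟩, ?_, ?_⟩
  · exact key A (deg B) (deg B) (fun p => (p.2, p.2)) h.1 (fun _ => rfl)
  · exact key B (deg B) (deg A) (fun p => (p.2, p.1)) h.2 (fun _ => rfl)
  · exact key B (deg A) (deg A) (fun p => (p.1, p.1)) h.2 (fun _ => rfl)
  · exact key A (deg A) (deg B) (fun p => (p.1, p.2)) h.1 (fun _ => rfl)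

end Pool.Agent.EQB
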