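import Pool.Agent.EQB.Targets

set_option autoImplicit false

namespace Pool.Agent.EQB

open Finset

theorem tel_card (q M : ℕ) (h1 : 1 ≤ q) (h2 : q ≤ M) :
    ∑ t ∈ Icc 1 M, ((if t ≤ q ∧ q < 2 * t then (1 : ℝ) else 0) +
      (if t ≤ q ∧ q < 2 * t - 1 then (1 : ℝ) else 0)) = q := by
  rw [Finset.sum_add_distrib, Finset.sum_ite, Finset.sum_ite]
  simp only [Finset.sum_const_zero, add_zero, Finset.sum_const, nsmul_eq_mul, mul_one]
  have e1 : (Icc 1 M).filter (fun t => t ≤ q ∧ q < 2 * t) = Ioc (q / 2) q := by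
    ext t
    simp only [Finset.mem_filter, Finset.mem_Icc, Finset.mem_Ioc]
    omega
  have e2 : (Icc 1 M).filter (fun t => t ≤ q ∧ q < 2 * t - 1) = Ioc ((q + 1) / 2) q := by
    ext t
    simp only [Finset.mem_filter, Finset.mem_Icc, Finset.mem_Ioc]
    omega
  rw [e1, e2, Nat.card_Ioc, Nat.card_Ioc, ← Nat.cast_add]
  congr 1
  omega

theorem tel_double (χ : ℕ → ℝ) (m : ℕ) :
    ∑ t ∈ Icc 1 m, (χ (2 * t) + χ (2 * t - 1)) = ∑ u ∈ Icc 1 (2 * m), χ u := by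
  induction m with
  | zero => simp
  | succ m ih =>
    rw [Finset.sum_Icc_succ_top (by omega), ih]
    have e : 2 * (m + 1) = 2 * m + 1 + 1 := by ring
    rw [e, Finset.sum_Icc_succ_top (by omega), Finset.sum_Icc_succ_top (by omega)]
    have e2 : 2 * m + 1 + 1 - 1 = 2 * m + 1 := by omega
    rw [e2]
    ring

theorem tel_half (χ : ℕ → ℝ) (M : ℕ) (h0 : ∀ t, M < t → χ t = 0) :
    ∑ u ∈ Icc 1 (2 * M), χ u = ∑ u ∈ Icc 1 M, χ u := by
  symm
  apply Finset.sum_subset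
  · intro u hu
    rw [Finset.mem_Icc] at hu ⊢
    omega
  · intro u hu hu'
    apply h0
    rw [Finset.mem_Icc] at hu hu'
    omega

theorem p_TEL : T_TEL := by
  intro β _ Ω q M χ c κ h1 hχ hc h0 hk hw hn l hl
  classical
  have hq : ∑ x ∈ Ω, (q x : ℝ) = ∑ t ∈ Icc 1 M,
      (((Ω.filter (fun x => t ≤ q x ∧ q x < 2 * t)).card : ℝ) +
        ((Ω.filter (fun x => t ≤ q x ∧ q x < 2 * t - 1)).card : ℝ)) := by
    have a1 : ∑ x ∈ Ω, (q x : ℝ) = ∑ x ∈ Ω, ∑ t ∈ Icc 1 M,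
        ((if t ≤ q x ∧ q x < 2 * t then (1 : ℝ) else 0) +
          (if t ≤ q x ∧ q x < 2 * t - 1 then (1 : ℝ) else 0)) := by
      apply Finset.sum_congr rfl
      intro x hx
      exact (tel_card (q x) M (h1 x hx).1 (h1 x hx).2).symm
    rw [a1, Finset.sum_comm]
    apply Finset.sum_congr rfl
    intro t _
    rw [Finset.sum_add_distrib, Finset.sum_boole, Finset.sum_boole]
  have hal : ∀ t, (al l t = 1 ∧ ∃ x ∈ Ω, t ≤ q x ∧ q x < 2 * t) ∨
      (al l t = 0 ∧ ¬ ∃ x ∈ Ω, t ≤ q x ∧ q x < 2 * t) := by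
    intro t
    unfold al
    by_cases h : ∃ k ∈ l, t ≤ k ∧ k < 2 * t
    · left
      rw [if_pos h]
      obtain ⟨k, hk1, hk2⟩ := h
      obtain ⟨x, hx, rfl⟩ := (hl k).1 hk1
      exact ⟨rfl, x, hx, hk2⟩
    · right
      rw [if_neg h]
      refine ⟨rfl, ?_⟩
      rintro ⟨x, hx, hx2⟩
      exact h ⟨q x, (hl _).2 ⟨x, hx, rfl⟩, hx2⟩
  have hbe : ∀ t, (be l t = 1 ∧ ∃ x ∈ Ω, t ≤ q x ∧ q x < 2 * t - 1) ∨
      (be l t = 0 ∧ ¬ ∃ x ∈ Ω, t ≤ q x ∧ q x < 2 * t - 1) := by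
    intro t
    unfold be
    by_cases h : ∃ k ∈ l, t ≤ k ∧ k + 1 < 2 * t
    · left
      rw [if_pos h]
      obtain ⟨k, hk1, hk2⟩ := h
      obtain ⟨x, hx, rfl⟩ := (hl k).1 hk1
      exact ⟨rfl, x, hx, hk2.1, by omega⟩
    · right
      rw [if_neg h]
      refine ⟨rfl, ?_⟩
      rintro ⟨x, hx, hx2⟩
      exact h ⟨q x, (hl _).2 ⟨x, hx, rfl⟩, hx2.1, by omega⟩
  have key : ∀ t ∈ Icc 1 M, (al l t + be l t) * κ t + χ t - (χ (2 * t) + χ (2 * t - 1)) ≤
      ((Ω.filter (fun x => t ≤ q x ∧ q x < 2 * t)).card : ℝ) +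
        ((Ω.filter (fun x => t ≤ q x ∧ q x < 2 * t - 1)).card : ℝ) := by
    intro t ht
    rw [Finset.mem_Icc] at ht
    have b1 : χ t + al l t * c t ≤ χ (2 * t) +
        ((Ω.filter (fun x => t ≤ q x ∧ q x < 2 * t)).card : ℝ) := by
      rcases hal t with ⟨ha, hx⟩ | ⟨ha, hx⟩
      · rw [ha, one_mul]
        exact hw t (2 * t) ht.1 (by omega) hx
      · rw [ha, zero_mul, add_zero, hn t (2 * t) ht.1 (by omega) hx]
        have := Nat.cast_nonneg (α := ℝ) (Ω.filter (fun x => t ≤ q x ∧ q x < 2 * t)).card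
        linarith
    have b2 : χ t + be l t * c t ≤ χ (2 * t - 1) +
        ((Ω.filter (fun x => t ≤ q x ∧ q x < 2 * t - 1)).card : ℝ) := by
      have hcard := Nat.cast_nonneg (α := ℝ)
        (Ω.filter (fun x => t ≤ q x ∧ q x < 2 * t - 1)).card
      rcases hbe t with ⟨ha, hx⟩ | ⟨ha, hx⟩
      · rw [ha, one_mul]
        have ht2 : t < 2 * t - 1 := by
          obtain ⟨x, _, hx1, hx2⟩ := hx
          omega
        exact hw t (2 * t - 1) ht.1 ht2 hx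
      · rw [ha, zero_mul, add_zero]
        rcases Nat.lt_or_ge t (2 * t - 1) with h | h
        · rw [hn t (2 * t - 1) ht.1 h hx]
          linarith
        · have : 2 * t - 1 = t := by omega
          rw [this] at hcard ⊢
          linarith
    have hκ := hk t ht.1
    have hχt := hχ t
    have hct := hc t
    rcases hal t with ⟨ha, -⟩ | ⟨ha, -⟩ <;> rcases hbe t with ⟨hb, -⟩ | ⟨hb, -⟩ <;>
      rw [ha] at b1 ⊢ <;> rw [hb] at b2 ⊢ <;> linarith
  have hsum := Finset.sum_le_sum key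
  rw [← hq, Finset.sum_sub_distrib, Finset.sum_add_distrib, tel_double, tel_half χ M h0] at hsum
  linarith

end Pool.Agent.EQB
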