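import Pool.Agent.EQB.Defs

set_option autoImplicit false

namespace Pool.Agent.EQB

open Finset

/-- **T_CL** (counting lemma, about 100 lines).
Proof. (0) No `w R ≥ 1`: if `w R ≥ 1`, `R ∈ F`, take `x ∈ R` (`R` is nonempty, `s > 0`): the sum of
the weights at `x` is `1` and all are positive, so `R` is the only set of `F` containing `x`. Hence
all other sets of `F` are disjoint from `R`, so `R` is `Closed` and nonempty, `R = X` by `Conn`. As
`F.card ≥ 2` there is `R' ∈ F`, `R' ≠ R`, it is nonempty, `⊆ X = R` and disjoint from `R`: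
contradiction. So `w R < 1` on `F`.
(1) `∑_{R ∈ F} w R * s = |X|` (double counting: `∑_{x ∈ X} ∑_{R ∋ x} w R`). So the claim is
`∑_{R ∈ F} (1 - 2 w R) ≥ 0` (times `s`).
(2) `H = {R ∈ F : w R > 1/2}`, `L = F \ H`. Two different sets of `H` are disjoint (a common point
would have weight `> 1`). For `R ∈ H`: `∑_{L' ∈ L} w L' |L' ∩ R| = s (1 - w R)` (the sets of `F`
containing `x ∈ R` are `R` itself and sets of `L`), and `∑_{L' ∈ L} |L' ∩ R| ≥ s` (each `x ∈ R` is in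
some `L' ∈ L` because `w R < 1`). For `L' ∈ L`: `∑_{R ∈ H} |L' ∩ R| ≤ |L'| = s`, and `1 - 2 w L' ≥ 0`.
So `s ∑_{L} (1 - 2 w L') ≥ ∑_{R ∈ H} ∑_{L' ∈ L} |L' ∩ R| (1 - 2 w L')
≥ ∑_{R ∈ H} (s - 2 s (1 - w R)) = s ∑_{R ∈ H} (2 w R - 1)`. -/
def T_CL : Prop :=
  ∀ (α : Type) [Fintype α] [DecidableEq α] (s : ℕ) (X : Finset α) (F : Finset (Finset α))
    (w : Finset α → ℝ), Sys s X F w → Conn X F → 2 ≤ F.card → 2 * X.card ≤ s * F.card

/-- **T_EXC** (exchange, about 120 lines).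
Proof. Let `𝒮` be the set of all `S ⊆ F`, `S ≠ F`, such that there is `w'` with `Sys s X S w'`
(`sub`, `card`, `pos_s` are inherited, so only positivity on `S` and the sum condition matter).
(1) `𝒮` is not empty. Take `z` with `∑_{R ∈ F} z R • ind R = 0`, `z` not zero on `F`. Replacing `z`
by `-z` we may assume that some `z R > 0`, `R ∈ F`. Let `τ` be the minimum of `w R / z R` over the
`R ∈ F` with `z R > 0` (`Finset.exists_min_image`), `τ > 0`. Then `w' = w - τ z ≥ 0` on `F`, and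
`w' R = 0` for the minimiser. `S = {R ∈ F : w' R > 0}` is in `𝒮`: the sum at `x ∈ X` is unchanged
because `∑_{R ∈ F} z R • ind R = 0` evaluated at `x`, and zero weights may be dropped.
(2) Take `S ∈ 𝒮` with `S.card` maximal, with `w'`. Claim: `OneRel F S`. Let `E₀ ∈ F \ S`, `z E₀ = 0`,
`∑_{E ∈ F \ S} z E • ind E = ∑_{R ∈ S} y R • ind R` (an element of `V S`, see
`Submodule.mem_span_finset` or `Finsupp`), and suppose `z E₁ ≠ 0` for some `E₁ ∈ F \ S`; replacing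
`z, y` by `-z, -y` we may assume `z E₁ > 0`. Let `τ` be the minimum of `w E / z E` over the
`E ∈ F \ S` with `z E > 0`. Put `v E = w E - τ z E` for `E ∈ F \ S` and
`v R = (w R - w' R) + τ y R` for `R ∈ S`. Then `∑_{R ∈ F} v R • ind R = 0` on `X` (both `w` and `w'`
have sum one at every point of `X`; off `X` all indicators vanish), `v ≥ 0` on `F \ S`, `v = 0` at the
minimiser, `v E₀ = w E₀ > 0`. For small `ε > 0` the weights `w' + ε v` (with `w' = 0` on `F \ S`) are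
positive on `S ∪ {E ∈ F \ S : v E > 0}`, which is a proper subfamily of `F` and strictly larger than
`S`: contradiction to the maximality. (`ε`: choose `ε > 0` with `ε |v R| < w' R` for all `R ∈ S`.) -/
def T_EXC : Prop :=
  ∀ (α : Type) [Fintype α] [DecidableEq α] (s : ℕ) (X : Finset α) (F : Finset (Finset α))
    (w : Finset α → ℝ), Sys s X F w →
    (∃ z : Finset α → ℝ, (∃ R ∈ F, z R ≠ 0) ∧ ∑ R ∈ F, z R • ind R = 0) →
    ∃ (S : Finset (Finset α)) (w' : Finset α → ℝ), S ⊆ F ∧ S ≠ F ∧ Sys s X S w' ∧ OneRel F S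

/-- **T_DIM** (about 50 lines). `rk S + |F \ S| ≤ rk F + 1`.
Proof. Fix `E₀ ∈ F \ S`. The linear map `V S × ({E // E ∈ (F \ S).erase E₀} → ℝ) → V F`,
`(v, z) ↦ v + ∑_E z E • ind E`, is injective: if `v + ∑ z E • ind E = 0`, extend `z` by `z E₀ = 0` (and
`0` elsewhere); then `∑_{E ∈ F \ S} z E • ind E = -v ∈ V S`, so `z = 0` by `OneRel`, so `v = 0`. Compare
finranks (`LinearMap.finrank_le_finrank_of_injective`, `Module.finrank_prod`,
`Module.finrank_fintype_fun_eq_card`). -/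
def T_DIM : Prop :=
  ∀ (α : Type) [Fintype α] [DecidableEq α] (F S : Finset (Finset α)), S ⊆ F → S ≠ F →
    OneRel F S → rk S + (F \ S).card ≤ rk F + 1

/-- **T_REL** (about 30 lines). `∑_{E ∈ F \ S} w E • ind E = ∑_{R ∈ S} (w' R - w R) • ind R`: at `x ∈ X`
both `∑_{R ∈ F, x ∈ R} w R` and `∑_{R ∈ S, x ∈ R} w' R` are `1`; off `X` everything vanishes. -/
def T_REL : Prop :=
  ∀ (α : Type) [Fintype α] [DecidableEq α] (s : ℕ) (X : Finset α) (F S : Finset (Finset α))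
    (w w' : Finset α → ℝ), Sys s X F w → Sys s X S w' → S ⊆ F →
    (∑ E ∈ F \ S, w E • ind E) ∈ V S

/-- **T_COMP** (components, about 80 lines).
Proof. Call `x ~ y` if every `Closed` set `Y ⊆ X` contains both or none of `x, y`. For `x ∈ X` let
`K x = {y ∈ X : ∀ Y ⊆ X, Closed F Y → (x ∈ Y ↔ y ∈ Y)}` (use classical decidability, or
`Finset.filter` with `Classical`), `P = X.image K`. `x ∈ K x`; `K x` and `K y` are equal or disjoint.
`Closed F (K x)`: let `R ∈ F` meet `K x` in `y`, and `z ∈ R`; every closed `Y` contains `R` or is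
disjoint from `R`, so it contains both or none of `y, z`; so `z ∈ K x` (`R ⊆ X` by `Sys`).
`Conn (K x) (inside F (K x))`: let `Y ⊆ K x` be closed for `inside F (K x)`. A set `R ∈ F` is inside
`K x` or disjoint from `K x`, so `Y` is closed for `F`; then by definition of `K x` all points of `K x`
are in `Y` or none. -/
def T_COMP : Prop :=
  ∀ (α : Type) [Fintype α] [DecidableEq α] (s : ℕ) (X : Finset α) (F : Finset (Finset α))
    (w : Finset α → ℝ), Sys s X F w → ∃ P : Finset (Finset α), IsComp X F P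

/-- **T_RES** (about 30 lines). Restriction to a closed set: by `Submodule.span_induction` (or
`Submodule.map_span_le`); the restriction of `ind R` to `Y` is `ind R` if `R ⊆ Y` and `0` if `R` is
disjoint from `Y`. -/
def T_RES : Prop :=
  ∀ (α : Type) [Fintype α] [DecidableEq α] (F : Finset (Finset α)) (Y : Finset α) (v : α → ℝ),
    Closed F Y → v ∈ V F → (fun a => if a ∈ Y then v a else 0) ∈ V (inside F Y)

/-- **T_SUM** (about 60 lines). Proof. The linear map from `∀ Y : {Y // Y ∈ P}, V (inside F Y)` to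
`V F`, `(v_Y) ↦ ∑ v_Y`, is well defined (`inside F Y ⊆ F`) and injective: the functions of
`V (inside F Y)` vanish outside `Y` (span induction), and the `Y` are pairwise disjoint, so the value
of `∑ v_Y` at `a ∈ Y` is `v_Y a`. Compare finranks (`Module.finrank_pi_fintype`). -/
def T_SUM : Prop :=
  ∀ (α : Type) [Fintype α] [DecidableEq α] (X : Finset α) (F P : Finset (Finset α)),
    IsComp X F P → ∑ Y ∈ P, rk (inside F Y) ≤ rk F

/-- **T_N1** (about 100 lines; uses `T_REL`, `T_RES`).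
`C = F \ S`, `ι_Y = ∑_{E ∈ C} |E ∩ Y|`. Proof. (1) `∑_Y ι_Y = s |C|`: the `Y ∈ P` partition `X` and
`E ⊆ X`, `|E| = s`. (2) `ι_Y > 0`: otherwise all `E ∈ C` are disjoint from `Y`, so `Y` is closed for
`F` (for the sets of `S` by `IsComp`), `Y = X` by `Conn X F` (`Y` is nonempty); but `C` is not empty,
`E ∈ C` is nonempty and inside `X`: contradiction. (3) Let `Y ∈ P` be not `Small`. The function
`u = ∑_{E ∈ C} w E • ind E` is in `V S` (T_REL), its restriction `u'` to `Y` is in `V (inside S Y)`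
(T_RES), it is `≥ 0`, and `≠ 0` (by (2) some `E ∈ C` meets `Y`, and `w E > 0`). Since `Y` is not
`Small`, the support of `u'` has at least `s` elements; it is contained in `⋃_{E ∈ C} (E ∩ Y)`, so
`s ≤ ι_Y`. (4) `s |Q| ≤ ∑_Y ι_Y = s |C|`. -/
def T_N1 : Prop :=
  ∀ (α : Type) [Fintype α] [DecidableEq α] (s : ℕ) (X : Finset α) (F S P : Finset (Finset α))
    (w w' : Finset α → ℝ), Sys s X F w → Conn X F → S ⊆ F → S ≠ F → Sys s X S w' → IsComp X S P →
    (∑ Y ∈ P, ∑ E ∈ F \ S, (E ∩ Y).card = s * (F \ S).card) ∧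
    (∀ Y ∈ P, 0 < ∑ E ∈ F \ S, (E ∩ Y).card) ∧
    (∀ Y ∈ P, ¬ Small s (inside S Y) → s ≤ ∑ E ∈ F \ S, (E ∩ Y).card) ∧
    (∀ Q ⊆ P, (∀ Y ∈ Q, ¬ Small s (inside S Y)) → Q.card ≤ (F \ S).card)

/-- **T_B** (about 170 lines; uses `T_REL`, `T_RES`). `C = F \ S`.
Proof. Suppose `u ∈ V F`, `u ≥ 0`, `u ≠ 0`, `|supp u| < s`. (1) `u = v + ∑_{E ∈ C} β E • ind E` with
`v ∈ V S` (`F = S ∪ C`, `Submodule.span_union`, `Submodule.mem_sup`). `u₀ = ∑_{E ∈ C} w E • ind E` is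
in `V S` (T_REL). Let `τ` be the maximum of `β E / w E` over `E ∈ C` (`C` is nonempty). Replacing `β`
by `β - τ w` and `v` by `v + τ u₀` we may assume `β E ≤ 0` for all `E ∈ C`, with equality for some:
`C₀ = {E ∈ C : β E = 0}` is nonempty. (2) `v = u + ∑_{E ∈ C} (-β E) • ind E ≥ 0`. For `Y ∈ P` let
`v_Y` be the restriction of `v` to `Y`, in `V (inside S Y)` by T_RES; `P₀ = {Y ∈ P : v_Y = 0}`.
(3) For `Y ∈ P \ P₀`: `Y` is not small and `v_Y ≥ 0`, `v_Y ≠ 0`, so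
`s ≤ |supp v_Y| ≤ |supp u ∩ Y| + ∑_{E ∈ C \ C₀} |E ∩ Y|`. Sum over `Y ∈ P \ P₀` (disjoint sets):
`(|P| - |P₀|) s ≤ |supp u| + ∑_{E ∈ C \ C₀} |E| < s + (|C| - |C₀|) s`. With `|P| = |C|`:
`|C₀| ≤ |P₀|`. (4) For `Y ∈ P₀`: `v = 0` on `Y`, so `u = 0` on `Y` and all `E ∈ C \ C₀` are disjoint
from `Y`. So `s = ∑_{E ∈ C₀} |E ∩ Y|`; sum over `Y ∈ P₀`, with `W = ⋃ P₀`:
`|P₀| s = ∑_{E ∈ C₀} |E ∩ W| ≤ |C₀| s`. Hence `|P₀| = |C₀|` and `|E ∩ W| = s = |E|` for every
`E ∈ C₀`, i.e. `E ⊆ W`. So `W` is closed for `F`: the sets of `S` are inside or disjoint from each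
`Y`, the sets of `C₀` are inside `W`, the sets of `C \ C₀` are disjoint from `W`. `W ≠ ∅` since
`|P₀| = |C₀| > 0`. By `Conn`, `W = X`. So `u = 0` on `X`, and `u = 0` off `X` since `u ∈ V F`:
contradiction to `u ≠ 0`. -/
def T_B : Prop :=
  ∀ (α : Type) [Fintype α] [DecidableEq α] (s : ℕ) (X : Finset α) (F S P : Finset (Finset α))
    (w w' : Finset α → ℝ), Sys s X F w → Conn X F → S ⊆ F → S ≠ F → Sys s X S w' → IsComp X S P →
    P.card = (F \ S).card → (∀ Y ∈ P, ¬ Small s (inside S Y)) →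
    (∀ Y ∈ P, ∑ E ∈ F \ S, (E ∩ Y).card = s) → ¬ Small s F

/-- **T_MC** (rank theorem; assembly, helper83). -/
def T_MC : Prop :=
  ∀ (α : Type) [Fintype α] [DecidableEq α] (s : ℕ) (X : Finset α) (F : Finset (Finset α))
    (w : Finset α → ℝ), Sys s X F w → Conn X F → Good s X F

/-- **T_RK** (about 150 lines; uses `T_MC`, `T_COMP`, `T_SUM`).
Proof. `R i = {j : Z i j = 1}`, `F = image R`, `X = univ`, `w R = #{i : R i = R} / s`. `|R i| = s` by the
row sums, `0 < s` by the diagonal (if `ι` is empty the claim is trivial), the weights at `j` add up to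
`(1/s) #{i : j ∈ R i} = 1` by the column sums. So `Sys s univ F w`. `ind (R i)` is the `i`-th row of
`Z`, so `rk F = Z.rank` (`Matrix.rank_eq_finrank_span_row`; the set of rows is `ind '' F`).
Components `P` by T_COMP. For `Y ∈ P`: `Sys s Y (inside F Y) w` (a set of `F` containing a point of
`Y` is inside `Y`), so by T_MC `2 |Y| ≤ s (rk (inside F Y) + 1)`. Sum over `P` and T_SUM:
`2 |ι| ≤ s (rk F + |P|)`. Finally `|P| ≤ finrank (D Z)`: the vectors `ind Y`, `Y ∈ P`, are linearly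
independent (disjoint nonempty sets) and lie in `D Z`: if `Z i j = 1` then `i, j ∈ R i` (diagonal),
and `R i` is inside or disjoint from `Y`. -/
def T_RK : Prop :=
  ∀ (ι : Type) [Fintype ι] [DecidableEq ι] (Z : Matrix ι ι ℝ) (s : ℕ), Reg Z s →
    2 * Fintype.card ι ≤ s * (Z.rank + Module.finrank ℝ (D Z))

/-- **T_WIN** (window lemma, about 120 lines).
Proof. For `f ∈ D M` (`M = A`): `A f = sA f`, `Aᵀ f = sA f`, `B f = sB f`, `Bᵀ f = sB f` (as functions,
`Matrix.mulVec`): in `∑_j A i j f j` all `j` with `A i j = 1` have `f j = f i`; `B i j = 1` implies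
`A i j = 1`; for the transposes use the column sums. `sA, sB ≥ 1` by the diagonal (if `ι` is empty all
is trivial). Let `G = ker (A - B)` (kernel of `Matrix.toLin'` or `mulVecLin`),
`dim G = |ι| - rank (A - B)`. Let `φ : G → (ι → ℝ)`, `φ f = A f`. Its kernel is contained in (is mapped
injectively into) `ker B`, as `A f = B f` for `f ∈ G`: dimension `≤ |ι| - rank B`. Its image is
contained in `range A` and orthogonal to `D A` for the standard form `∑ x_i y_i`: for `d ∈ D A`,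
`sA ∑ d_i f_i = ∑ (Aᵀ d)_i f_i = ∑ d_i (A f)_i = ∑ d_i (B f)_i = sB ∑ d_i f_i`, so `∑ d_i f_i = 0` (as
`sA ≠ sB`) and `∑ d_i (A f)_i = sA ∑ d_i f_i = 0`. `D A ≤ range A` (`d = A (d / sA)`), and `D A` meets the
image of `φ` only in `0` (positive definiteness), so `dim image + dim D A ≤ rank A`. So
`|ι| - rank (A - B) = dim G ≤ (|ι| - rank B) + (rank A - dim D A)`. -/
def T_WIN : Prop :=
  ∀ (ι : Type) [Fintype ι] [DecidableEq ι] (A B : Matrix ι ι ℝ) (sA sB : ℕ), Reg A sA → Reg B sB →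
    sA ≠ sB → (∀ i j, B i j = 1 → A i j = 1) →
    B.rank + Module.finrank ℝ (D A) ≤ (A - B).rank + A.rank

/-- **T_DR** (about 30 lines). `D Z ≤ range Z`: for `d ∈ D Z`, `Z d = s d`, and `s ≥ 1` if `ι` is
nonempty (diagonal). -/
def T_DR : Prop :=
  ∀ (ι : Type) [Fintype ι] [DecidableEq ι] (Z : Matrix ι ι ℝ) (s : ℕ), Reg Z s →
    Module.finrank ℝ (D Z) ≤ Z.rank

/-- **T_LAB** (about 40 lines). A matrix which is a sum of `|G|` rank one matrices has rank at most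
`|G|`: `M = P * Q` with `P : ι × G`, `Q : G × ι` (`Matrix.rank_mul_le_left`, `Matrix.rank_le_card_width`). -/
def T_LAB : Prop :=
  ∀ (ι β : Type) [Fintype ι] [DecidableEq ι] [DecidableEq β] (G : Finset β) (f g : β → ι → ℝ)
    (M : Matrix ι ι ℝ), (∀ i j, M i j = ∑ x ∈ G, f x i * g x j) → M.rank ≤ G.card

/-- **T_TEL** (telescoping, about 130 lines). All sums over `t ∈ Icc 1 M`.
Proof. (1) For `q = q x` with `1 ≤ q ≤ M`: `q = #{t ∈ Icc 1 M : t ≤ q < 2t} + #{t ∈ Icc 1 M : t ≤ q, q + 1 < 2t}`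
(the first set is `Ioc (q/2) q`, the second `Ioc ((q+1)/2) q`, floor division). So
`∑_x q x = ∑_t (N t (2t) + N t (2t-1))`, where `N t t' = #{x ∈ Ω : t ≤ q x < t'}`.
(2) by the hypotheses `N t t' ≥ χ t - χ t' + c t [∃ x ∈ Ω, t ≤ q x < t']` for `1 ≤ t ≤ t'` (for
`t = t'` trivial). (3) `∑_{t=1}^{M} (2 χ t - χ (2t) - χ (2t-1)) = 2 ∑_{t=1}^{M} χ t - ∑_{u=1}^{2M} χ u
= ∑_{t=1}^{M} χ t`, because `χ u = 0` for `u > M`. (4) So
`∑_x q x ≥ ∑_t (χ t + c t (a t + b t))`, where `a t, b t` are the two indicators; `b t ≤ a t`. Each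
bracket is `≥ (a t + b t) κ t`: `(0,0)`: `χ ≥ 0`; `(1,0)`: `2κ ≤ χ + 2c ≤ 2χ + 2c`; `(1,1)`:
`2κ ≤ χ + 2c`. -/
def T_TEL : Prop :=
  ∀ (β : Type) [DecidableEq β] (Ω : Finset β) (q : β → ℕ) (M : ℕ) (χ c κ : ℕ → ℝ),
    (∀ x ∈ Ω, 1 ≤ q x ∧ q x ≤ M) → (∀ t, 0 ≤ χ t) → (∀ t, 0 ≤ c t) → (∀ t, M < t → χ t = 0) →
    (∀ t, 1 ≤ t → 2 * κ t ≤ χ t + 2 * c t) →
    (∀ t t', 1 ≤ t → t < t' → (∃ x ∈ Ω, t ≤ q x ∧ q x < t') →
      χ t + c t ≤ χ t' + ((Ω.filter (fun x => t ≤ q x ∧ q x < t')).card : ℝ)) →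
    (∀ t t', 1 ≤ t → t < t' → (¬ ∃ x ∈ Ω, t ≤ q x ∧ q x < t') → χ t = χ t') →
    ∀ l : List ℕ, (∀ k, k ∈ l ↔ ∃ x ∈ Ω, q x = k) →
      ∑ t ∈ Icc 1 M, (al l t + be l t) * κ t ≤ ∑ x ∈ Ω, (q x : ℝ)

/-- **T_THR** (about 130 lines). Induction on the decreasing list `l`. For `q :: l` with `h = hd l ≤ q`:
for `t ≤ h`: `al (q :: l) t = al l t`, `be (q :: l) t = be l t` (if `t ≤ q < 2t` then also
`t ≤ h < 2t` and `h ∈ l`, because `h ≥ t ≥ 1` is not the default value), `den (q :: l) t = den l t`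
(as `t ≤ h ≤ q`). For `h < t ≤ q`: `al (q :: l) t = 1` iff `q < 2t`, `be (q :: l) t = 1` iff
`q + 1 < 2t`, and `den (q :: l) t = 1 + l.sum`; `al l t = be l t = 0`. For `t > q` all are `0`. So the
difference of the two sums is
`(#{t : max h (q/2) < t ≤ q} + #{t : max h ((q+1)/2) < t ≤ q}) / (1 + l.sum)`, and the number in
brackets is `min q (2 (q - h))` (floor divisions; `omega` after `Nat.card_Ioc`). -/
def T_THR : Prop :=
  ∀ (l : List ℕ) (M : ℕ), l.Pairwise (· ≥ ·) → (∀ q ∈ l, q ≤ M) →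
    ∑ t ∈ Icc 1 M, (al l t + be l t) / (den l t : ℝ) = FF l

/-- **T_STEP** (scalar inequality, about 150 lines). `A = cA = log 5 / 4 - 1/5`, `γ = cg`,
`gg y = max 0 (γ + .3 (y - 2/3))`. Facts: `A + γ = log (5/3) / 2`, `A - γ = log 3 / 2 - 2/5`.
It suffices to prove `F0 = A + .2 min z (2(z-y)) + gg y - .5 log (1+z) ≥ 0` and
`F1 = F0 - γ - .3 (z/(1+z) - 2/3) ≥ 0`.
Case `z ≥ 2y` (`min = z`, `gg y ≥ 0`): `F0 ≥ A + .2 z - .5 log (1+z) ≥ .1 + .5 log 2 - .25 log 5 > 0` by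
`log (1+z) ≤ log (5/2) + (1+z)/(5/2) - 1`. `F1 ≥ -.5 log x + .6 x + .1/x - .7` with `x = (1+z)/3`, and
`log x ≤ x - 1` gives `F1 ≥ .1 (x-1)²/x ≥ 0`.
Case `z ≤ 2y` (`min = 2(z-y)`). `F0`: if `y ≥ 1/4`: `log (1+z) - log (1+y) ≤ (z-y)/(1+y) ≤ .8 (z-y)`
and `A + gg y ≥ A + γ + .3 (y - 2/3) ≥ .5 log (1+y)` (`log (1+y) ≤ log (5/3) + (1+y)/(5/3) - 1`). If
`y ≤ 1/4`: `.4 z - .5 log (1+z) ≥ .1 - .5 log (5/4)` (tangent at `1/4`), so
`F0 ≥ A + .4 (1/4 - y) - .5 log (5/4) > 0`. `F1`: by `gg y ≥ γ + .3 (y - 2/3)`,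
`F1 ≥ A + .4 z - .1 y - .5 log (1+z) - .3 z/(1+z)`. If `z ≤ 1` use `y ≤ z`:
`F1 ≥ A + .3 z²/(1+z) - .5 log (1+z) =: h z`, and `h z ≥ h 1 = A + .15 - .5 log 2 > 0` since `h` is
decreasing on `[0,1]` (or: `.5 (log 2 - log (1+z)) ≥ ... `: `log (1+z) ≤ log 2 - (1 - z)/2 - ((1-z)/2)²/2`
is also enough). If `z ≥ 1` use `y ≤ 1`: `F1 ≥ A - .1 + .4 z - .5 log (1+z) - .3 z/(1+z)`, which is
increasing for `z ≥ 1` (`log (1+z) ≤ log 2 + (z-1)/2`, `z/(1+z) ≤ 1/2 + (z-1)/4`) with the same value at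
`1`. Numerical facts: `log 5 > 2 log 2 + .2`, `2 log 5 < .8 + 4 * .693..`: `log 2 ∈ (.6931, .6932)`,
`log 5 = log 2 * 2 + log (5/4)`. -/
def T_STEP : Prop :=
  ∀ y z : ℝ, 0 ≤ y → y < 1 → y ≤ z →
    Real.log (1 + z) / 2 + gg (z / (1 + z)) ≤ cA + 1 / 5 * min z (2 * (z - y)) + gg y

/-- **T_PROF** (about 60 lines; uses `T_STEP`). Induction on the decreasing list, proving
`log (1 + l.sum) / 2 + gg (hd l / (1 + l.sum)) ≤ cA * l.length + FF l / 5` (`gg 0 = 0`: `cg < 1/5`;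
`gg ≥ 0`). Step `q :: l`: T_STEP with `y = hd l / (1 + l.sum)` (`< 1` as `hd l ≤ l.sum`),
`z = q / (1 + l.sum)`; `z/(1+z) = q / (1 + l.sum + q)`. -/
def T_PROF : Prop :=
  ∀ l : List ℕ, l.Pairwise (· ≥ ·) →
    Real.log (1 + (l.sum : ℝ)) / 2 ≤ cA * l.length + FF l / 5

/-- **T_ZREG** (about 130 lines). `ZZ A B t` is regular with `s = den l t`, `l = prof (A i₀) (deg B)`.
Proof. `diag`: `A i ∩ B i = ∅`. `entry`: for `i ≠ j` the sum has exactly one `x ∈ A i` with `x ∈ B j`.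
`row`: `∑_j [x ∈ B j] = deg B x`, so the row sum is `1 + ∑_{x ∈ A i, deg B x < t} deg B x`, which does
not depend on `i` by `QEq` and is `den (prof (A i₀) (deg B)) t` for `i = i₀` (the list is a permutation
of the multiset `(A i₀).val.map (deg B)`; filter and sum: `Multiset.filter_map`, `Multiset.sort_eq`).
`col`: the column sum is `1 + ∑_{x ∈ B j, deg B x < t} deg A x`, which does not depend on `j` by `QEq`;
the total of all entries is `|ι|` times the row sum and `|ι|` times the column sum, so they agree. -/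
def T_ZREG : Prop :=
  ∀ (ι α : Type) [Fintype ι] [DecidableEq ι] [DecidableEq α] (A B : ι → Finset α), OneCross A B →
    QEq A B → ∀ (t : ℕ) (i₀ : ι), Reg (ZZ A B t) (den (prof (A i₀) (deg B)) t)

/-- **T_SIDE** (about 170 lines; uses `T_RK`, `T_WIN`, `T_DR`, `T_LAB`, `T_TEL`, `T_THR`, `T_ZREG`).
Proof. `Ω = {x ∈ ⋃ A_i : deg B x ≥ 1}`, `q = deg B`, `M = |ι|`, `ρ t = rank (ZZ t)`,
`c t = finrank (D (ZZ t))`, `χ t = ρ t - c t`, `κ t = |ι| / den l t`. T_DR: `χ ≥ 0`. For `t > M` all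
labels are included: `ZZ t` is the all-one matrix, `χ t = 1 - 1 = 0`. T_RK: `2 κ t ≤ ρ t + c t`.
`ZZ t' - ZZ t = ∑_{x ∈ Ω, t ≤ q x < t'} ind(S_x) ind(T_x)ᵀ`, rank `≤ N t t'` (T_LAB). If the window
contains some `x ∈ Ω` then the row sums differ (the one of a row `i` with `x ∈ A i`), T_WIN gives
`ρ t + c t' ≤ N + ρ t'`, i.e. `χ t + c t ≤ χ t' + N` (for `c t' ≥ 0` write `χ t' = ρ t' - c t'`);
otherwise `ZZ t = ZZ t'`. The list `l = prof (A i₀) q` has the same positive entries as `q` on `Ω`: by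
`QEq` at `t = k` and `t = k + 1`, `k * #{x ∈ A i : q x = k}` does not depend on `i`. Zeros of `l` do not
matter for `al`, `be` (`t ≥ 1`): apply T_TEL to the list `l.filter (0 < ·)`. T_TEL and T_THR:
`|ι| * FF l ≤ ∑_{x ∈ Ω} deg B x ≤ ∑_j |B j| ≤ |ι| b`. -/
def T_SIDE : Prop :=
  ∀ (ι α : Type) [Fintype ι] [DecidableEq ι] [DecidableEq α] (A B : ι → Finset α), OneCross A B →
    QEq A B → ∀ (b : ℕ), (∀ j, (B j).card ≤ b) → ∀ i₀ : ι, FF (prof (A i₀) (deg B)) ≤ b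

/-- **T_TR** (about 60 lines). If `(π, φ)` is an automorphism then `typ A B (φ x) = typ A B x`
(the indices `k` with `x ∈ A k` are mapped by `π` to the indices with `φ x ∈ A k`), and
`A (π k) = φ (A k)`, so the multisets of types agree. -/
def T_TR : Prop :=
  ∀ (ι α : Type) [Fintype ι] [DecidableEq α] (A B : ι → Finset α), Trans A B → Equit A B

/-- **T_POW** (about 150 lines). The pentagon powers. The pentagon: `ι = α = ZMod 5` (or `Fin 5`),
`A i = {i, i+1}`, `B i = {i+2, i+4}`; automorphisms: translations, `π = φ = (· + c)`. Composition of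
`(A, B)` on `ι, α` and `(A', B')` on `κ, β`: indices `ι × κ`, elements `α ⊕ (ι × β)`,
`A'' (i,k) = A i ∪ {i} × A' k`, `B'' (i,k) = B i ∪ {i} × B' k`. It is 1-cross intersecting (if `i ≠ i'`
the intersection is `A i ∩ B i'`; if `i = i'` it is `{i} × (A' k ∩ B' k')`), the cardinalities add, and
it is transitive: `(i,k) ↦ (π i, π' k)`, `x ↦ φ x`, `(i,y) ↦ (π i, φ' y)`. Induction on `k`; for `k = 0`
one index and empty sets. -/
def T_POW : Prop :=
  ∀ k : ℕ, ∃ (ι α : Type) (_ : Fintype ι) (_ : DecidableEq α) (A B : ι → Finset α),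
    Fintype.card ι = 5 ^ k ∧ OneCross A B ∧ Trans A B ∧
      (∀ i, (A i).card = 2 * k) ∧ ∀ i, (B i).card = 2 * k

end Pool.Agent.EQB
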